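import Pool.Agent.H777R4.DM.Stmts

set_option autoImplicit false

namespace H851R3.DSH

open Pool.Agent.H777R4.DM

attribute [local instance 100] LieRing.ofAssociativeRing

lemma lext_wd {α V : Type} [AddCommGroup V] [Module ℚ V] (F : List α → V) (l : List α) :
    lext F (wd l) = F l := by
  simp [lext, wd, MonoidAlgebra.coeffLinearEquiv]

lemma wd_nil {α : Type} : (wd ([] : List α)) = 1 := by
  simp [wd, MonoidAlgebra.one_def]

lemma wd_append {α : Type} (l m : List α) : wd (l ++ m) = wd l * wd m := by
  simp [wd, FreeMonoid.ofList_append]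

lemma wd_cons {α : Type} (i : α) (m : List α) : wd (i :: m) = wd [i] * wd m := by
  rw [← wd_append]; rfl

/-- induction principle: words span -/
lemma al_induction {α : Type} {p : Al α → Prop} (P : Al α) (h0 : p 0)
    (hadd : ∀ a b, p a → p b → p (a + b)) (hw : ∀ (c : ℚ) (l : List α), p (c • wd l)) : p P := by
  induction P using MonoidAlgebra.induction_linear with
  | zero => exact h0
  | add a b ha hb => exact hadd a b ha hb
  | single m r =>
    have : (MonoidAlgebra.single m r : Al α) = r • wd (FreeMonoid.toList m) := by
      simp [wd]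
    rw [this]
    exact hw r _

lemma der_wd (f : A) (u : List (Fin 2)) : der f (wd u) = derW f u := lext_wd _ _

lemma derW_append (f : A) (u v : List (Fin 2)) :
    derW f (u ++ v) = derW f u * wd v + wd u * derW f v := by
  induction u with
  | nil => simp [derW, wd_nil]
  | cons i u ih =>
    simp only [List.cons_append, derW, ih, wd_append, wd_cons i u]
    simp only [x]
    noncomm_ring

lemma der_mul (f a b : A) : der f (a * b) = der f a * b + a * der f b := by
  induction a using al_induction with
  | h0 => simp
  | hadd a a' ha ha' => rw [add_mul, map_add, map_add, ha, ha']; noncomm_ring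
  | hw c l =>
    induction b using al_induction with
    | h0 => simp
    | hadd b b' hb hb' => rw [mul_add, map_add, map_add, hb, hb']; noncomm_ring
    | hw d m =>
      rw [smul_mul_smul_comm, map_smul, map_smul, map_smul, ← wd_append, der_wd, der_wd, der_wd,
        derW_append, smul_mul_smul_comm, smul_mul_smul_comm, ← smul_add]

lemma der_one (f : A) : der f 1 = 0 := by
  rw [← wd_nil, der_wd]; rfl

lemma der_x0 (f : A) : der f (x 0) = 0 := by
  rw [x, der_wd]; simp [derW]

lemma der_x1 (f : A) : der f (x 1) = x 1 * f - f * x 1 := by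
  conv_lhs => rw [x, der_wd]
  simp [derW, wd_nil]

/-- a derivation vanishing on the letters vanishes -/
lemma deriv_eq_zero (E : A →ₗ[ℚ] A) (hE : ∀ a b, E (a * b) = E a * b + a * E b)
    (h0 : E (x 0) = 0) (h1 : E (x 1) = 0) (a : A) : E a = 0 := by
  have hone : E 1 = 0 := by
    have := hE 1 1
    rw [mul_one, mul_one, one_mul] at this
    exact (left_eq_add.mp this)
  have hl : ∀ l : List (Fin 2), E (wd l) = 0 := by
    intro l
    induction l with
    | nil => rw [wd_nil]; exact hone
    | cons i l ih =>
      rw [wd_cons, hE, ih, mul_zero, add_zero]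
      have : E (wd [i]) = 0 := by
        fin_cases i
        · exact h0
        · exact h1
      rw [this, zero_mul]
  induction a using al_induction with
  | h0 => simp
  | hadd a a' ha ha' => rw [map_add, ha, ha', add_zero]
  | hw c l => rw [map_smul, hl, smul_zero]

lemma derW_add (f g : A) (u : List (Fin 2)) : derW (f + g) u = derW f u + derW g u := by
  induction u with
  | nil => simp [derW]
  | cons i u ih =>
    simp only [derW, ih]
    split_ifs <;> noncomm_ring

lemma derW_smul (c : ℚ) (f : A) (u : List (Fin 2)) : derW (c • f) u = c • derW f u := by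
  induction u with
  | nil => simp [derW]
  | cons i u ih =>
    simp only [derW, ih]
    split_ifs <;> simp only [smul_add, smul_sub, mul_smul_comm, smul_mul_assoc, zero_mul, smul_zero,
      sub_mul]

lemma lext_add {α V : Type} [AddCommGroup V] [Module ℚ V] (F G H : List α → V)
    (h : ∀ l, H l = F l + G l) (P : Al α) : lext H P = lext F P + lext G P := by
  induction P using al_induction with
  | h0 => simp
  | hadd a b ha hb => rw [map_add, map_add, map_add, ha, hb]; abel
  | hw c l => rw [map_smul, map_smul, map_smul, lext_wd, lext_wd, lext_wd, h, smul_add]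

lemma lext_smul {α V : Type} [AddCommGroup V] [Module ℚ V] (c : ℚ) (F H : List α → V)
    (h : ∀ l, H l = c • F l) (P : Al α) : lext H P = c • lext F P := by
  induction P using al_induction with
  | h0 => simp
  | hadd a b ha hb => rw [map_add, map_add, ha, hb, smul_add]
  | hw d l => rw [map_smul, map_smul, lext_wd, lext_wd, h, smul_comm]

lemma der_add (f g a : A) : der (f + g) a = der f a + der g a :=
  lext_add _ _ _ (derW_add f g) a

lemma der_smul (c : ℚ) (f a : A) : der (c • f) a = c • der f a :=
  lext_smul _ _ _ (derW_smul c f) a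

lemma der_comm (p q a : A) :
    der p (der q a) - der q (der p a) = der (ihara p q) a := by
  have key := deriv_eq_zero
    ((der p) ∘ₗ (der q) - (der q) ∘ₗ (der p) - der (ihara p q)) ?_ ?_ ?_ a
  · simp only [LinearMap.sub_apply, LinearMap.comp_apply] at key
    exact sub_eq_zero.mp key
  · intro a b
    simp only [LinearMap.sub_apply, LinearMap.comp_apply, der_mul, map_add]
    noncomm_ring
  · simp only [LinearMap.sub_apply, LinearMap.comp_apply, der_x0, map_zero, sub_zero]
  · simp only [LinearMap.sub_apply, LinearMap.comp_apply, der_x1, map_sub, der_mul, ihara]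
    noncomm_ring

lemma s_apply (f h : A) : s f h = f * h + der f h := by
  simp [s]

lemma s_add (f g : A) : s (f + g) = s f + s g := by
  refine LinearMap.ext fun h => ?_
  simp only [s_apply, LinearMap.add_apply, der_add]
  noncomm_ring

lemma s_smul (c : ℚ) (f : A) : s (c • f) = c • s f := by
  refine LinearMap.ext fun h => ?_
  simp only [s_apply, LinearMap.smul_apply, der_smul, smul_add, smul_mul_assoc]

lemma s_zero : s 0 = 0 := by
  have := s_smul 0 0
  simpa using this

lemma s_one (f : A) : s f 1 = f := by
  rw [s_apply, der_one, mul_one, add_zero]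

lemma s_comm (p q : A) : s p * s q - s q * s p = s (ihara p q) := by
  refine LinearMap.ext fun h => ?_
  have h1 := der_comm p q h
  simp only [LinearMap.sub_apply, Module.End.mul_apply, s_apply, map_add, der_mul]
  rw [← h1]
  simp only [ihara]
  noncomm_ring

/-- the algebra map -/
noncomputable def S (f g : A) : A →ₐ[ℚ] Module.End ℚ A :=
  MonoidAlgebra.lift ℚ (Module.End ℚ A) (FreeMonoid (Fin 2)) (FreeMonoid.lift ![s f, s g])

lemma Phi_eq (f g P : A) : Phi f g P = S f g P 1 := rfl

lemma S_x0 (f g : A) : S f g (x 0) = s f := by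
  simp [S, x, wd]

lemma S_x1 (f g : A) : S f g (x 1) = s g := by
  simp [S, x, wd]

lemma S_lie (f g : A) (P : A) (hP : P ∈ LieX) : S f g P = s (S f g P 1) := by
  unfold LieX at hP
  induction hP using LieSubalgebra.lieSpan_induction with
  | mem y hy =>
    rcases hy with rfl | hy
    · rw [S_x0, s_one]
    · rw [Set.mem_singleton_iff] at hy
      subst hy
      rw [S_x1, s_one]
  | zero => rw [map_zero, LinearMap.zero_apply, s_zero]
  | add y z hy hz ihy ihz =>
    rw [map_add, LinearMap.add_apply, s_add, ← ihy, ← ihz]
  | smul c y hy ihy =>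
    rw [map_smul, LinearMap.smul_apply, s_smul, ← ihy]
  | lie y z hy hz ihy ihz =>
    rw [LieRing.of_associative_ring_bracket, map_sub, map_mul, map_mul]
    rw [ihy, ihz, s_comm, s_one]

theorem taskFinal : TaskFinal := by
  intro f g _ _ hinj
  refine ⟨(Phi f g) ∘ₗ LieX.toSubmodule.subtype, ?_, ?_, ?_, ?_⟩
  · intro a b hab
    exact Subtype.ext (hinj hab)
  · intro P hP
    change Phi f g (P : A) = f
    rw [hP, Phi_eq, S_x0, s_one]
  · intro P hP
    change Phi f g (P : A) = g
    rw [hP, Phi_eq, S_x1, s_one]
  · intro P Q
    change Phi f g ((⁅P, Q⁆ : LieX) : A) = ihara (Phi f g (P : A)) (Phi f g (Q : A))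
    rw [LieSubalgebra.coe_bracket, LieRing.of_associative_ring_bracket, Phi_eq, Phi_eq, Phi_eq,
      map_sub, map_mul, map_mul]
    have h := s_comm (S f g (P : A) 1) (S f g (Q : A) 1)
    rw [← S_lie f g P P.2, ← S_lie f g Q Q.2] at h
    rw [h, s_one]

end H851R3.DSH
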