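import Mathlib
import Pool.Agent.H456R3.Mult.Stmts

/-!
`TaskEAPP` of project H456-MULT: `C_c^∞` approximation of the first eigenfunction of a box in `H¹`.
-/

open MeasureTheory Set Filter Topology
open scoped ContDiff

set_option autoImplicit false

namespace Pool.Agent.H851R3.EAPP

open Pool.Agent.H456R3.Mult

/-- closed box -/
def cb (b : Box) : Set P := Icc b.a1 b.b1 ×ˢ Icc b.a2 b.b2 ×ˢ Icc b.a3 b.b3

lemma isCompact_cb (b : Box) : IsCompact (cb b) :=
  isCompact_Icc.prod (isCompact_Icc.prod isCompact_Icc)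

lemma set_subset_cb (b : Box) : b.set ⊆ cb b :=
  prod_mono Ioo_subset_Icc_self (prod_mono Ioo_subset_Icc_self Ioo_subset_Icc_self)

lemma isOpen_set (b : Box) : IsOpen b.set := isOpen_Ioo.prod (isOpen_Ioo.prod isOpen_Ioo)

lemma meas_set (b : Box) : MeasurableSet b.set := (isOpen_set b).measurableSet

lemma intOn (b : Box) {f : P → ℝ} (hf : Continuous f) : IntegrableOn f b.set :=
  (hf.continuousOn.integrableOn_compact (isCompact_cb b)).mono_set (set_subset_cb b)

lemma contDiff_ef (b : Box) : ContDiff ℝ ∞ b.ef := by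
  unfold Box.ef
  have h1 : ContDiff ℝ ∞ (fun p : P => Real.pi * (p.1 - b.a1) / (b.b1 - b.a1)) :=
    (contDiff_const.mul (contDiff_fst.sub contDiff_const)).div_const _
  have h2 : ContDiff ℝ ∞ (fun p : P => Real.pi * (p.2.1 - b.a2) / (b.b2 - b.a2)) :=
    (contDiff_const.mul ((contDiff_fst.comp contDiff_snd).sub contDiff_const)).div_const _
  have h3 : ContDiff ℝ ∞ (fun p : P => Real.pi * (p.2.2 - b.a3) / (b.b3 - b.a3)) :=
    (contDiff_const.mul ((contDiff_snd.comp contDiff_snd).sub contDiff_const)).div_const _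
  exact contDiff_const.mul ((h1.sin.mul h2.sin).mul h3.sin)

lemma cont_fderiv {f : P → ℝ} (hf : ContDiff ℝ ∞ f) (v : P) :
    Continuous (fun p => fderiv ℝ f p v) :=
  (hf.continuous_fderiv (by simp)).clm_apply continuous_const

lemma cont_gb {f g : P → ℝ} (hf : ContDiff ℝ ∞ f) (hg : ContDiff ℝ ∞ g) :
    Continuous (gb f g) := by
  unfold gb dx dy dz
  exact (((cont_fderiv hf _).mul (cont_fderiv hg _)).add
    ((cont_fderiv hf _).mul (cont_fderiv hg _))).add ((cont_fderiv hf _).mul (cont_fderiv hg _))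

lemma hasDerivAt_dx {f : P → ℝ} {p : P} (hf : DifferentiableAt ℝ f p) :
    HasDerivAt (fun t => f (t, p.2.1, p.2.2)) (dx f p) p.1 := by
  have h1 : HasDerivAt (fun t : ℝ => ((t, p.2.1, p.2.2) : P)) (1, 0, 0) p.1 :=
    (hasDerivAt_id p.1).prodMk (hasDerivAt_const p.1 (p.2.1, p.2.2))
  exact HasFDerivAt.comp_hasDerivAt (f := fun t : ℝ => ((t, p.2.1, p.2.2) : P)) p.1
    (hf.hasFDerivAt) h1

lemma hasDerivAt_dy {f : P → ℝ} {p : P} (hf : DifferentiableAt ℝ f p) :
    HasDerivAt (fun t => f (p.1, t, p.2.2)) (dy f p) p.2.1 := by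
  have h1 : HasDerivAt (fun t : ℝ => ((p.1, t, p.2.2) : P)) (0, 1, 0) p.2.1 :=
    (hasDerivAt_const p.2.1 p.1).prodMk ((hasDerivAt_id p.2.1).prodMk
      (hasDerivAt_const p.2.1 p.2.2))
  exact HasFDerivAt.comp_hasDerivAt (f := fun t : ℝ => ((p.1, t, p.2.2) : P)) p.2.1
    (hf.hasFDerivAt) h1

lemma hasDerivAt_dz {f : P → ℝ} {p : P} (hf : DifferentiableAt ℝ f p) :
    HasDerivAt (fun t => f (p.1, p.2.1, t)) (dz f p) p.2.2 := by
  have h1 : HasDerivAt (fun t : ℝ => ((p.1, p.2.1, t) : P)) (0, 0, 1) p.2.2 :=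
    (hasDerivAt_const p.2.2 p.1).prodMk ((hasDerivAt_const p.2.2 p.2.1).prodMk
      (hasDerivAt_id p.2.2))
  exact HasFDerivAt.comp_hasDerivAt (f := fun t : ℝ => ((p.1, p.2.1, t) : P)) p.2.2
    (hf.hasFDerivAt) h1

/-! ### one-dimensional factors -/

/-- the sine factor -/
noncomputable def sn (a b x : ℝ) : ℝ := Real.sin (Real.pi * (x - a) / (b - a))
/-- the cosine factor -/
noncomputable def cs (a b x : ℝ) : ℝ := Real.cos (Real.pi * (x - a) / (b - a))

lemma hasDerivAt_sn (a b x : ℝ) : HasDerivAt (sn a b) (Real.pi / (b - a) * cs a b x) x := by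
  have h1 : HasDerivAt (fun x => Real.pi * (x - a) / (b - a)) (Real.pi / (b - a)) x := by
    have := (((hasDerivAt_id x).sub_const a).const_mul Real.pi).div_const (b - a)
    simpa using this
  have h2 := h1.sin
  unfold sn cs
  convert h2 using 1
  ring

lemma sn_pos {a b x : ℝ} (hx : x ∈ Ioo a b) : 0 < sn a b x := by
  have hab : 0 < b - a := by linarith [hx.1, hx.2]
  apply Real.sin_pos_of_pos_of_lt_pi
  · exact div_pos (mul_pos Real.pi_pos (by linarith [hx.1])) hab
  · rw [div_lt_iff₀ hab]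
    exact mul_lt_mul_of_pos_left (by linarith [hx.2]) Real.pi_pos

lemma mem_Ioo_of_sn_ne {a b x : ℝ} (hab : a < b) (hx : x ∈ Icc a b) (h : sn a b x ≠ 0) :
    x ∈ Ioo a b := by
  refine ⟨lt_of_le_of_ne hx.1 ?_, lt_of_le_of_ne hx.2 ?_⟩
  · rintro rfl
    apply h; simp [sn]
  · rintro rfl
    apply h
    have h0 : x - a ≠ 0 := by linarith [sub_pos.mpr hab] |> fun (h : 0 < x - a) => h.ne'
    unfold sn
    rw [mul_div_assoc, div_self h0, mul_one, Real.sin_pi]

lemma cont_sn (a b : ℝ) : Continuous (sn a b) :=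
  continuous_iff_continuousAt.2 fun x => (hasDerivAt_sn a b x).continuousAt

lemma cont_cs (a b : ℝ) : Continuous (cs a b) := by
  unfold cs
  fun_prop

lemma int_sn (a b : ℝ) (h : a < b) : ∫ x in Ioo a b, sn a b x ^ 2 = (b - a) / 2 := by
  have hba : b - a ≠ 0 := (sub_pos.mpr h).ne'
  rw [← integral_Ioc_eq_integral_Ioo, ← intervalIntegral.integral_of_le h.le]
  have key : ∀ x ∈ uIcc a b, HasDerivAt
      (fun x => x / 2 - (b - a) / (4 * Real.pi) * Real.sin (2 * (Real.pi * (x - a) / (b - a))))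
      (sn a b x ^ 2) x := by
    intro x _
    have h1 : HasDerivAt (fun x => 2 * (Real.pi * (x - a) / (b - a)))
        (2 * (Real.pi / (b - a))) x := by
      have := ((((hasDerivAt_id x).sub_const a).const_mul Real.pi).div_const (b - a)).const_mul 2
      simpa using this
    have h3 := ((hasDerivAt_id x).div_const 2).sub (h1.sin.const_mul ((b - a) / (4 * Real.pi)))
    refine h3.congr_deriv ?_
    unfold sn
    rw [Real.cos_two_mul, Real.cos_sq']
    field_simp
    ring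
  rw [intervalIntegral.integral_eq_sub_of_hasDerivAt key
    (((cont_sn a b).pow 2).intervalIntegrable _ _)]
  rw [mul_div_assoc, div_self hba]
  simp
  ring

lemma int_cs (a b : ℝ) (h : a < b) : ∫ x in Ioo a b, cs a b x ^ 2 = (b - a) / 2 := by
  have hba : b - a ≠ 0 := (sub_pos.mpr h).ne'
  have h1 : ∀ x, cs a b x ^ 2 = 1 - sn a b x ^ 2 := by
    intro x
    unfold cs sn
    rw [Real.sin_sq]; ring
  simp_rw [h1]
  have hi : IntegrableOn (fun x => sn a b x ^ 2) (Ioo a b) :=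
    (((cont_sn a b).pow 2).continuousOn.integrableOn_compact isCompact_Icc).mono_set
      Ioo_subset_Icc_self
  have hc : IntegrableOn (fun _ : ℝ => (1 : ℝ)) (Ioo a b) :=
    (continuous_const.continuousOn.integrableOn_compact isCompact_Icc).mono_set
      Ioo_subset_Icc_self
  rw [integral_sub hc hi, int_sn a b h]
  simp [h.le]
  ring

/-- the normalisation -/
noncomputable def nc (b : Box) : ℝ := √(8 / ((b.b1 - b.a1) * (b.b2 - b.a2) * (b.b3 - b.a3)))

lemma ef_eq (b : Box) (p : P) : b.ef p =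
    nc b * (sn b.a1 b.b1 p.1 * sn b.a2 b.b2 p.2.1 * sn b.a3 b.b3 p.2.2) := rfl

lemma diff_ef (b : Box) (p : P) : DifferentiableAt ℝ b.ef p :=
  (contDiff_ef b).differentiable (by simp) p

lemma dx_ef (b : Box) (p : P) : dx b.ef p =
    nc b * (Real.pi / (b.b1 - b.a1)) *
      (cs b.a1 b.b1 p.1 * sn b.a2 b.b2 p.2.1 * sn b.a3 b.b3 p.2.2) := by
  have h1 := hasDerivAt_dx (diff_ef b p)
  have h2 : HasDerivAt (fun t => b.ef (t, p.2.1, p.2.2)) (nc b *
      (Real.pi / (b.b1 - b.a1) * cs b.a1 b.b1 p.1 * sn b.a2 b.b2 p.2.1 *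
        sn b.a3 b.b3 p.2.2)) p.1 := by
    simp only [ef_eq]
    exact (((hasDerivAt_sn b.a1 b.b1 p.1).mul_const _).mul_const _).const_mul _
  rw [h1.unique h2]; ring

lemma dy_ef (b : Box) (p : P) : dy b.ef p =
    nc b * (Real.pi / (b.b2 - b.a2)) *
      (sn b.a1 b.b1 p.1 * cs b.a2 b.b2 p.2.1 * sn b.a3 b.b3 p.2.2) := by
  have h1 := hasDerivAt_dy (diff_ef b p)
  have h2 : HasDerivAt (fun t => b.ef (p.1, t, p.2.2)) (nc b *
      (sn b.a1 b.b1 p.1 * (Real.pi / (b.b2 - b.a2) * cs b.a2 b.b2 p.2.1) *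
        sn b.a3 b.b3 p.2.2)) p.2.1 := by
    simp only [ef_eq]
    exact (((hasDerivAt_sn b.a2 b.b2 p.2.1).const_mul _).mul_const _).const_mul _
  rw [h1.unique h2]; ring

lemma dz_ef (b : Box) (p : P) : dz b.ef p =
    nc b * (Real.pi / (b.b3 - b.a3)) *
      (sn b.a1 b.b1 p.1 * sn b.a2 b.b2 p.2.1 * cs b.a3 b.b3 p.2.2) := by
  have h1 := hasDerivAt_dz (diff_ef b p)
  have h2 : HasDerivAt (fun t => b.ef (p.1, p.2.1, t)) (nc b *
      (sn b.a1 b.b1 p.1 * sn b.a2 b.b2 p.2.1 * (Real.pi / (b.b3 - b.a3) * cs b.a3 b.b3 p.2.2)))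
      p.2.2 := by
    simp only [ef_eq]
    exact ((hasDerivAt_sn b.a3 b.b3 p.2.2).const_mul _).const_mul _
  rw [h1.unique h2]; ring

/-- Fubini for products -/
lemma int_prod (b : Box) (u v w : ℝ → ℝ) :
    ∫ p in b.set, u p.1 * v p.2.1 * w p.2.2 =
      (∫ x in Ioo b.a1 b.b1, u x) * (∫ x in Ioo b.a2 b.b2, v x) * ∫ x in Ioo b.a3 b.b3, w x := by
  have h1 := MeasureTheory.setIntegral_prod_mul (μ := (volume : Measure ℝ))
    (ν := (volume : Measure (ℝ × ℝ))) u (fun q : ℝ × ℝ => v q.1 * w q.2) (Ioo b.a1 b.b1)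
    (Ioo b.a2 b.b2 ×ˢ Ioo b.a3 b.b3)
  have h2 := MeasureTheory.setIntegral_prod_mul (μ := (volume : Measure ℝ))
    (ν := (volume : Measure ℝ)) v w (Ioo b.a2 b.b2) (Ioo b.a3 b.b3)
  have h3 : (∫ p in b.set, u p.1 * v p.2.1 * w p.2.2) =
      ∫ p in b.set, u p.1 * (v p.2.1 * w p.2.2) := by
    congr 1; ext p; ring
  rw [h3, mul_assoc, ← h2]
  exact h1

lemma nc_sq (b : Box) (h1 : b.a1 < b.b1) (h2 : b.a2 < b.b2) (h3 : b.a3 < b.b3) :
    nc b ^ 2 * ((b.b1 - b.a1) / 2 * ((b.b2 - b.a2) / 2) * ((b.b3 - b.a3) / 2)) = 1 := by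
  have h1' := sub_pos.mpr h1
  have h2' := sub_pos.mpr h2
  have h3' := sub_pos.mpr h3
  unfold nc
  rw [Real.sq_sqrt (by positivity)]
  field_simp
  norm_num

lemma int_ef_sq (b : Box) (h1 : b.a1 < b.b1) (h2 : b.a2 < b.b2) (h3 : b.a3 < b.b3) :
    ∫ p in b.set, b.ef p * b.ef p = 1 := by
  have h : ∀ p : P, b.ef p * b.ef p = nc b ^ 2 * (sn b.a1 b.b1 p.1 ^ 2 * sn b.a2 b.b2 p.2.1 ^ 2 *
      sn b.a3 b.b3 p.2.2 ^ 2) := by
    intro p; rw [ef_eq]; ring
  simp_rw [h]
  rw [integral_const_mul, int_prod b (fun x => sn b.a1 b.b1 x ^ 2) (fun x => sn b.a2 b.b2 x ^ 2)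
    (fun x => sn b.a3 b.b3 x ^ 2), int_sn _ _ h1, int_sn _ _ h2, int_sn _ _ h3]
  exact nc_sq b h1 h2 h3

lemma int_gb_ef (b : Box) (h1 : b.a1 < b.b1) (h2 : b.a2 < b.b2) (h3 : b.a3 < b.b3) :
    ∫ p in b.set, gb b.ef b.ef p = b.mu := by
  have h : ∀ p : P, gb b.ef b.ef p =
      nc b ^ 2 * (Real.pi / (b.b1 - b.a1)) ^ 2 * (cs b.a1 b.b1 p.1 ^ 2 * sn b.a2 b.b2 p.2.1 ^ 2 *
      sn b.a3 b.b3 p.2.2 ^ 2) +
      nc b ^ 2 * (Real.pi / (b.b2 - b.a2)) ^ 2 * (sn b.a1 b.b1 p.1 ^ 2 * cs b.a2 b.b2 p.2.1 ^ 2 *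
      sn b.a3 b.b3 p.2.2 ^ 2) +
      nc b ^ 2 * (Real.pi / (b.b3 - b.a3)) ^ 2 * (sn b.a1 b.b1 p.1 ^ 2 * sn b.a2 b.b2 p.2.1 ^ 2 *
      cs b.a3 b.b3 p.2.2 ^ 2) := by
    intro p; unfold gb; rw [dx_ef, dy_ef, dz_ef]; ring
  have cfst : Continuous (fun p : P => p.1) := continuous_fst
  have csnd : Continuous (fun p : P => p.2.1) := continuous_fst.comp continuous_snd
  have cthd : Continuous (fun p : P => p.2.2) := continuous_snd.comp continuous_snd
  have s1 := (cont_sn b.a1 b.b1).comp cfst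
  have s2 := (cont_sn b.a2 b.b2).comp csnd
  have s3 := (cont_sn b.a3 b.b3).comp cthd
  have c1 := (cont_cs b.a1 b.b1).comp cfst
  have c2 := (cont_cs b.a2 b.b2).comp csnd
  have c3 := (cont_cs b.a3 b.b3).comp cthd
  simp_rw [h]
  have i1 : IntegrableOn (fun p : P => nc b ^ 2 * (Real.pi / (b.b1 - b.a1)) ^ 2 *
      (cs b.a1 b.b1 p.1 ^ 2 * sn b.a2 b.b2 p.2.1 ^ 2 * sn b.a3 b.b3 p.2.2 ^ 2)) b.set :=
    intOn b (continuous_const.mul (((c1.pow 2).mul (s2.pow 2)).mul (s3.pow 2)))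
  have i2 : IntegrableOn (fun p : P => nc b ^ 2 * (Real.pi / (b.b2 - b.a2)) ^ 2 *
      (sn b.a1 b.b1 p.1 ^ 2 * cs b.a2 b.b2 p.2.1 ^ 2 * sn b.a3 b.b3 p.2.2 ^ 2)) b.set :=
    intOn b (continuous_const.mul (((s1.pow 2).mul (c2.pow 2)).mul (s3.pow 2)))
  have i3 : IntegrableOn (fun p : P => nc b ^ 2 * (Real.pi / (b.b3 - b.a3)) ^ 2 *
      (sn b.a1 b.b1 p.1 ^ 2 * sn b.a2 b.b2 p.2.1 ^ 2 * cs b.a3 b.b3 p.2.2 ^ 2)) b.set :=
    intOn b (continuous_const.mul (((s1.pow 2).mul (s2.pow 2)).mul (c3.pow 2)))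
  have e1 := integral_add (i1.add i2) i3
  have e2 := integral_add i1 i2
  simp only [Pi.add_apply] at e1 e2
  rw [e1, e2, integral_const_mul, integral_const_mul, integral_const_mul,
    int_prod b (fun x => cs b.a1 b.b1 x ^ 2) (fun x => sn b.a2 b.b2 x ^ 2)
      (fun x => sn b.a3 b.b3 x ^ 2),
    int_prod b (fun x => sn b.a1 b.b1 x ^ 2) (fun x => cs b.a2 b.b2 x ^ 2)
      (fun x => sn b.a3 b.b3 x ^ 2),
    int_prod b (fun x => sn b.a1 b.b1 x ^ 2) (fun x => sn b.a2 b.b2 x ^ 2)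
      (fun x => cs b.a3 b.b3 x ^ 2),
    int_sn _ _ h1, int_sn _ _ h2, int_sn _ _ h3, int_cs _ _ h1, int_cs _ _ h2, int_cs _ _ h3]
  have hn := nc_sq b h1 h2 h3
  unfold Box.mu
  calc _ = (nc b ^ 2 * ((b.b1 - b.a1) / 2 * ((b.b2 - b.a2) / 2) * ((b.b3 - b.a3) / 2))) *
      ((Real.pi / (b.b1 - b.a1)) ^ 2 + (Real.pi / (b.b2 - b.a2)) ^ 2 +
        (Real.pi / (b.b3 - b.a3)) ^ 2) := by ring
    _ = _ := by rw [hn, div_pow, div_pow, div_pow]; ring

/-! ### the cut-off -/

/-- derivative of the cut-off -/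
noncomputable def G (u : ℝ) : ℝ :=
  Real.smoothTransition u + (u + 1) * deriv Real.smoothTransition u

lemma contDiff_st : ContDiff ℝ ∞ Real.smoothTransition := Real.smoothTransition.contDiff

lemma cont_G : Continuous G := by
  unfold G
  exact contDiff_st.continuous.add ((continuous_id.add continuous_const).mul
    (contDiff_st.continuous_deriv (by simp)))

lemma G_of_neg {u : ℝ} (h : u < 0) : G u = 0 := by
  have h1 : Real.smoothTransition =ᶠ[𝓝 u] fun _ => 0 := by
    filter_upwards [Iio_mem_nhds h] with v hv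
    exact Real.smoothTransition.zero_of_nonpos (le_of_lt hv)
  unfold G
  rw [h1.deriv_eq, Real.smoothTransition.zero_of_nonpos h.le]
  simp

lemma G_of_gt {u : ℝ} (h : 1 < u) : G u = 1 := by
  have h1 : Real.smoothTransition =ᶠ[𝓝 u] fun _ => 1 := by
    filter_upwards [Ioi_mem_nhds h] with v hv
    exact Real.smoothTransition.one_of_one_le (le_of_lt hv)
  unfold G
  rw [h1.deriv_eq, Real.smoothTransition.one_of_one_le h.le]
  simp

lemma G_bdd : ∃ B : ℝ, 0 ≤ B ∧ ∀ u, |G u| ≤ B := by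
  obtain ⟨C, hC⟩ := (isCompact_Icc (a := (0 : ℝ)) (b := 1)).exists_bound_of_continuousOn
    cont_G.continuousOn
  refine ⟨max C 1, le_trans zero_le_one (le_max_right _ _), fun u => ?_⟩
  rcases lt_or_ge u 0 with h | h
  · rw [G_of_neg h]; simp
  rcases lt_or_ge 1 u with h' | h'
  · rw [G_of_gt h']; simp
  · exact (hC u ⟨h, h'⟩).trans (le_max_left _ _)

/-- cut-off -/
noncomputable def th (n t : ℝ) : ℝ := t * Real.smoothTransition (n * t - 1)

lemma hasDerivAt_th (n t : ℝ) : HasDerivAt (th n) (G (n * t - 1)) t := by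
  have h1 : HasDerivAt (fun t : ℝ => n * t - 1) n t := by
    simpa using ((hasDerivAt_id t).const_mul n).sub_const 1
  have h2 : HasDerivAt Real.smoothTransition (deriv Real.smoothTransition (n * t - 1))
      (n * t - 1) := (contDiff_st.differentiable (by simp) _).hasDerivAt
  have h3 := (hasDerivAt_id t).mul (h2.comp t h1)
  refine h3.congr_deriv ?_
  unfold G
  simp
  ring

lemma contDiff_th (n : ℝ) : ContDiff ℝ ∞ (th n) := by
  unfold th
  exact contDiff_id.mul (contDiff_st.comp ((contDiff_const.mul contDiff_id).sub contDiff_const))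

lemma abs_th_le (n t : ℝ) : |th n t| ≤ |t| := by
  unfold th
  rw [abs_mul, abs_of_nonneg (Real.smoothTransition.nonneg _)]
  exact mul_le_of_le_one_right (abs_nonneg _) (Real.smoothTransition.le_one _)

lemma th_zero {n t : ℝ} (h : n * t ≤ 1) : th n t = 0 := by
  unfold th
  rw [Real.smoothTransition.zero_of_nonpos (by linarith), mul_zero]

lemma th_one {n t : ℝ} (h : 2 ≤ n * t) : th n t = t := by
  unfold th
  rw [Real.smoothTransition.one_of_one_le (by linarith), mul_one]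

/-! ### the approximating functions -/

/-- truncated eigenfunction -/
noncomputable def gn (b : Box) (c n : ℝ) : P → ℝ :=
  b.set.indicator (fun p => c * th n (b.ef p))

/-- the compact set carrying it -/
def Kn (b : Box) (n : ℝ) : Set P := cb b ∩ {p | 1 ≤ n * b.ef p}

lemma isCompact_Kn (b : Box) (n : ℝ) : IsCompact (Kn b n) :=
  (isCompact_cb b).inter_right
    (isClosed_le continuous_const (continuous_const.mul (contDiff_ef b).continuous))

variable {b : Box} (h1 : b.a1 < b.b1) (h2 : b.a2 < b.b2) (h3 : b.a3 < b.b3)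

include h1 h2 h3 in
lemma Kn_subset (n : ℝ) : Kn b n ⊆ b.set := by
  rintro p ⟨hp, hp'⟩
  have hne : b.ef p ≠ 0 := by
    intro h
    simp only [mem_setOf_eq, h] at hp'
    linarith
  rw [ef_eq] at hne
  have hne' := right_ne_zero_of_mul hne
  have hz := right_ne_zero_of_mul hne'
  have hxy := left_ne_zero_of_mul hne'
  have hx := left_ne_zero_of_mul hxy
  have hy := right_ne_zero_of_mul hxy
  obtain ⟨hp1, hp2, hp3⟩ := hp
  exact ⟨mem_Ioo_of_sn_ne h1 hp1 hx, mem_Ioo_of_sn_ne h2 hp2 hy, mem_Ioo_of_sn_ne h3 hp3 hz⟩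

lemma gn_zero {c n : ℝ} {p : P} (hp : p ∉ Kn b n) : gn b c n p = 0 := by
  unfold gn
  by_cases h : p ∈ b.set
  · rw [indicator_of_mem h]
    have : ¬ (1 ≤ n * b.ef p) := fun h' => hp ⟨set_subset_cb b h, h'⟩
    rw [th_zero (not_le.1 this).le, mul_zero]
  · rw [indicator_of_notMem h]

lemma gn_eventually_zero {c n : ℝ} {p : P} (hp : p ∉ Kn b n) :
    gn b c n =ᶠ[𝓝 p] fun _ => 0 := by
  filter_upwards [(isCompact_Kn b n).isClosed.isOpen_compl.mem_nhds hp] with q hq
  exact gn_zero hq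

lemma gn_eventually {c n : ℝ} {p : P} (hp : p ∈ b.set) :
    gn b c n =ᶠ[𝓝 p] fun q => c * th n (b.ef q) := by
  filter_upwards [(isOpen_set b).mem_nhds hp] with q hq
  exact indicator_of_mem hq _

include h1 h2 h3 in
lemma contDiff_gn (c n : ℝ) : ContDiff ℝ ∞ (gn b c n) := by
  rw [contDiff_iff_contDiffAt]
  intro p
  by_cases hp : p ∈ b.set
  · refine ContDiffAt.congr_of_eventuallyEq ?_ (gn_eventually hp)
    exact (contDiff_const.mul ((contDiff_th n).comp (contDiff_ef b))).contDiffAt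
  · have hp' : p ∉ Kn b n := fun h => hp (Kn_subset h1 h2 h3 n h)
    exact contDiffAt_const.congr_of_eventuallyEq (gn_eventually_zero hp')

include h1 h2 h3 in
lemma gn_mem (c n : ℝ) : gn b c n ∈ Dc b.set := by
  have hs : tsupport (gn b c n) ⊆ Kn b n := by
    apply closure_minimal _ (isCompact_Kn b n).isClosed
    intro p hp
    by_contra h
    exact hp (gn_zero h)
  refine ⟨contDiff_gn h1 h2 h3 c n, ?_, hs.trans (Kn_subset h1 h2 h3 n)⟩
  exact (isCompact_Kn b n).of_isClosed_subset (isClosed_tsupport _) hs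

lemma fderiv_gn_of_mem {c n : ℝ} {p : P} (hp : p ∈ b.set) (v : P) :
    fderiv ℝ (gn b c n) p v = c * G (n * b.ef p - 1) * fderiv ℝ b.ef p v := by
  rw [(gn_eventually hp).fderiv_eq]
  have h := (((hasDerivAt_th n (b.ef p)).comp_hasFDerivAt p (diff_ef b p).hasFDerivAt).const_mul c)
  have h' : HasFDerivAt (fun q => c * th n (b.ef q))
    (c • (G (n * b.ef p - 1) • fderiv ℝ b.ef p)) p := h
  rw [h'.fderiv]
  simp
  ring

include h1 h2 h3 in
lemma fderiv_gn_of_not_mem {c n : ℝ} {p : P} (hp : p ∉ b.set) (v : P) :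
    fderiv ℝ (gn b c n) p v = 0 := by
  have hp' : p ∉ Kn b n := fun h => hp (Kn_subset h1 h2 h3 n h)
  rw [(gn_eventually_zero hp').fderiv_eq]
  simp

lemma gb_gn {c n : ℝ} {p : P} (hp : p ∈ b.set) (f : P → ℝ) :
    gb (gn b c n) f p = c * G (n * b.ef p - 1) * gb b.ef f p := by
  unfold gb dx dy dz
  rw [fderiv_gn_of_mem hp, fderiv_gn_of_mem hp, fderiv_gn_of_mem hp]
  ring

lemma gb_gn_gn {c n : ℝ} {p : P} (hp : p ∈ b.set) :
    gb (gn b c n) (gn b c n) p = c ^ 2 * (G (n * b.ef p - 1) ^ 2 * gb b.ef b.ef p) := by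
  unfold gb dx dy dz
  rw [fderiv_gn_of_mem hp, fderiv_gn_of_mem hp, fderiv_gn_of_mem hp]
  ring

include h1 h2 h3 in
lemma gb_gn_of_not_mem {c n : ℝ} {p : P} (hp : p ∉ b.set) (f : P → ℝ) :
    gb (gn b c n) f p = 0 := by
  unfold gb dx dy dz
  rw [fderiv_gn_of_not_mem h1 h2 h3 hp, fderiv_gn_of_not_mem h1 h2 h3 hp,
    fderiv_gn_of_not_mem h1 h2 h3 hp]
  ring

include h1 h2 h3 in
lemma Eb_gn (c n : ℝ) (f : P → ℝ) :
    Eb (gn b c n) f = ∫ p in b.set, c * G (n * b.ef p - 1) * gb b.ef f p := by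
  unfold Eb
  rw [← setIntegral_eq_integral_of_forall_compl_eq_zero (s := b.set)
    (fun p hp => gb_gn_of_not_mem h1 h2 h3 hp f)]
  exact setIntegral_congr_fun (meas_set b) (fun p hp => gb_gn hp f)

include h1 h2 h3 in
lemma En_gn (c n : ℝ) :
    En (gn b c n) = c ^ 2 * ∫ p in b.set, G (n * b.ef p - 1) ^ 2 * gb b.ef b.ef p := by
  unfold En Eb
  rw [← setIntegral_eq_integral_of_forall_compl_eq_zero (s := b.set)
    (fun p hp => gb_gn_of_not_mem h1 h2 h3 hp _), ← integral_const_mul]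
  exact setIntegral_congr_fun (meas_set b) (fun p hp => gb_gn_gn hp)

lemma gn_of_mem {c n : ℝ} {p : P} (hp : p ∈ b.set) : gn b c n p = c * th n (b.ef p) :=
  indicator_of_mem hp _

lemma gn_of_not_mem {c n : ℝ} {p : P} (hp : p ∉ b.set) : gn b c n p = 0 :=
  indicator_of_notMem hp _

lemma Mb_gn (c n : ℝ) (f : P → ℝ) :
    Mb (gn b c n) f = ∫ p in b.set, c * th n (b.ef p) * f p := by
  unfold Mb
  rw [← setIntegral_eq_integral_of_forall_compl_eq_zero (s := b.set)
    (fun p hp => by rw [gn_of_not_mem hp, zero_mul])]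
  exact setIntegral_congr_fun (meas_set b) (fun p hp => by
    show gn b c n p * f p = _
    rw [gn_of_mem hp])

lemma Ms_gn (c n : ℝ) :
    Ms (gn b c n) = c ^ 2 * ∫ p in b.set, th n (b.ef p) ^ 2 := by
  unfold Ms Mb
  rw [← setIntegral_eq_integral_of_forall_compl_eq_zero (s := b.set)
    (fun p hp => by rw [gn_of_not_mem hp, zero_mul]), ← integral_const_mul]
  exact setIntegral_congr_fun (meas_set b) (fun p hp => by
    show gn b c n p * gn b c n p = _
    rw [gn_of_mem hp]; ring)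

lemma l_gn (c n : ℝ) :
    b.l (gn b c n) = c * ∫ p in b.set, b.ef p * th n (b.ef p) := by
  unfold Box.l
  rw [← integral_const_mul]
  exact setIntegral_congr_fun (meas_set b) (fun p hp => by
    show b.ef p * gn b c n p = _
    rw [gn_of_mem hp]; ring)

/-! ### dominated convergence -/

lemma ef_pos {p : P} (hp : p ∈ b.set) : 0 < b.ef p := by
  have hx : 0 < b.b1 - b.a1 := by linarith [hp.1.1, hp.1.2]
  have hy : 0 < b.b2 - b.a2 := by linarith [hp.2.1.1, hp.2.1.2]
  have hz : 0 < b.b3 - b.a3 := by linarith [hp.2.2.1, hp.2.2.2]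
  rw [ef_eq]
  have hn : 0 < nc b := by unfold nc; positivity
  exact mul_pos hn (mul_pos (mul_pos (sn_pos hp.1) (sn_pos hp.2.1)) (sn_pos hp.2.2))

lemma dct {F : ℕ → P → ℝ} {F0 H : P → ℝ} (hF : ∀ n, Continuous (F n)) (hH : Continuous H)
    (hFH : ∀ n p, |F n p| ≤ H p)
    (hlim : ∀ p ∈ b.set, ∀ᶠ n : ℕ in atTop, F n p = F0 p) :
    Tendsto (fun n => ∫ p in b.set, F n p) atTop (𝓝 (∫ p in b.set, F0 p)) := by
  refine tendsto_integral_of_dominated_convergence H
    (fun n => (hF n).aestronglyMeasurable) (intOn b hH)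
    (fun n => Eventually.of_forall fun p => hFH n p) ?_
  refine (ae_restrict_iff' (meas_set b)).2 (Eventually.of_forall fun p hp => ?_)
  exact tendsto_const_nhds.congr' ((hlim p hp).mono fun n hn => hn.symm)

lemma eventually_big {p : P} (hp : p ∈ b.set) : ∀ᶠ n : ℕ in atTop, 2 < (n : ℝ) * b.ef p :=
  (tendsto_natCast_atTop_atTop.atTop_mul_const (ef_pos hp)).eventually_gt_atTop 2

lemma cont_Gn (b : Box) (n : ℝ) : Continuous (fun p => G (n * b.ef p - 1)) :=
  cont_G.comp ((continuous_const.mul (contDiff_ef b).continuous).sub continuous_const)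

lemma cont_thn (b : Box) (n : ℝ) : Continuous (fun p => th n (b.ef p)) :=
  (contDiff_th n).continuous.comp (contDiff_ef b).continuous

lemma gb_self_nonneg (f : P → ℝ) (p : P) : 0 ≤ gb f f p :=
  add_nonneg (add_nonneg (mul_self_nonneg _) (mul_self_nonneg _)) (mul_self_nonneg _)

lemma lim1 : Tendsto (fun n : ℕ => ∫ p in b.set, b.ef p * th n (b.ef p)) atTop
    (𝓝 (∫ p in b.set, b.ef p * b.ef p)) := by
  refine dct (H := fun p => b.ef p ^ 2)
    (fun n => (contDiff_ef b).continuous.mul (cont_thn b n)) ((contDiff_ef b).continuous.pow 2)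
    (fun n p => ?_) (fun p hp => ?_)
  · rw [abs_mul, ← sq_abs, sq]
    exact mul_le_mul_of_nonneg_left (abs_th_le _ _) (abs_nonneg _)
  · filter_upwards [eventually_big hp] with n hn
    rw [th_one hn.le]

lemma lim2 : Tendsto (fun n : ℕ => ∫ p in b.set, th n (b.ef p) ^ 2) atTop
    (𝓝 (∫ p in b.set, b.ef p * b.ef p)) := by
  refine dct (H := fun p => b.ef p ^ 2)
    (fun n => (cont_thn b n).pow 2) ((contDiff_ef b).continuous.pow 2)
    (fun n p => ?_) (fun p hp => ?_)
  · rw [abs_of_nonneg (sq_nonneg _)]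
    exact sq_le_sq.2 (abs_th_le _ _)
  · filter_upwards [eventually_big hp] with n hn
    rw [th_one hn.le]; ring

lemma lim3 : Tendsto (fun n : ℕ => ∫ p in b.set, G (n * b.ef p - 1) ^ 2 * gb b.ef b.ef p) atTop
    (𝓝 (∫ p in b.set, gb b.ef b.ef p)) := by
  obtain ⟨B, hB0, hB⟩ := G_bdd
  refine dct (H := fun p => B ^ 2 * gb b.ef b.ef p)
    (fun n => ((cont_Gn b n).pow 2).mul (cont_gb (contDiff_ef b) (contDiff_ef b)))
    (continuous_const.mul (cont_gb (contDiff_ef b) (contDiff_ef b)))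
    (fun n p => ?_) (fun p hp => ?_)
  · rw [abs_mul, abs_of_nonneg (gb_self_nonneg _ _), abs_of_nonneg (sq_nonneg _)]
    refine mul_le_mul_of_nonneg_right ?_ (gb_self_nonneg _ _)
    rw [← sq_abs]
    exact pow_le_pow_left₀ (abs_nonneg _) (hB _) 2
  · filter_upwards [eventually_big hp] with n hn
    rw [G_of_gt (by linarith)]; ring

lemma lim4 : Tendsto (fun n : ℕ => ∫ p in b.set, G (n * b.ef p - 1) * gb b.ef b.ef p) atTop
    (𝓝 (∫ p in b.set, gb b.ef b.ef p)) := by
  obtain ⟨B, hB0, hB⟩ := G_bdd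
  refine dct (H := fun p => B * gb b.ef b.ef p)
    (fun n => ((cont_Gn b n)).mul (cont_gb (contDiff_ef b) (contDiff_ef b)))
    (continuous_const.mul (cont_gb (contDiff_ef b) (contDiff_ef b)))
    (fun n p => ?_) (fun p hp => ?_)
  · rw [abs_mul, abs_of_nonneg (gb_self_nonneg _ _)]
    exact mul_le_mul_of_nonneg_right (hB _) (gb_self_nonneg _ _)
  · filter_upwards [eventually_big hp] with n hn
    rw [G_of_gt (by linarith)]; ring

/-! ### Cauchy–Schwarz -/

lemma cs_real {A B F : ℝ} (h : ∀ t : ℝ, 0 ≤ F * (t * t) + (2 * B) * t + A) (hA : 0 ≤ A) :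
    |B| ≤ √A * √F := by
  have hd := discrim_le_zero h
  unfold discrim at hd
  rw [← Real.sqrt_mul hA]
  apply Real.abs_le_sqrt
  nlinarith

lemma cs_grad {φ f : P → ℝ} (hφ : Continuous φ) (hf : ContDiff ℝ ∞ f) :
    |∫ p in b.set, φ p * gb b.ef f p| ≤
      √(∫ p in b.set, φ p ^ 2 * gb b.ef b.ef p) * √(∫ p in b.set, gb f f p) := by
  have ce := cont_gb (contDiff_ef b) (contDiff_ef b)
  have cf := cont_gb hf hf
  have cef := cont_gb (contDiff_ef b) hf
  have i1 : IntegrableOn (fun p => φ p ^ 2 * gb b.ef b.ef p) b.set := intOn b ((hφ.pow 2).mul ce)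
  have i2 : IntegrableOn (fun p => φ p * gb b.ef f p) b.set := intOn b (hφ.mul cef)
  have i3 : IntegrableOn (fun p => gb f f p) b.set := intOn b cf
  refine cs_real (fun t => ?_) (integral_nonneg fun p =>
    mul_nonneg (sq_nonneg _) (gb_self_nonneg _ _))
  have : (∫ p in b.set, gb f f p) * (t * t) + (2 * ∫ p in b.set, φ p * gb b.ef f p) * t +
      ∫ p in b.set, φ p ^ 2 * gb b.ef b.ef p =
      ∫ p in b.set, (gb f f p * (t * t) + (φ p * gb b.ef f p) * (2 * t) +
        φ p ^ 2 * gb b.ef b.ef p) := by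
    have e1 := integral_add ((i3.mul_const (t * t)).add (i2.mul_const (2 * t))) i1
    have e2 := integral_add (i3.mul_const (t * t)) (i2.mul_const (2 * t))
    simp only [Pi.add_apply] at e1 e2
    rw [e1, e2, integral_mul_const, integral_mul_const]
    ring
  rw [this]
  refine integral_nonneg fun p => ?_
  have : gb f f p * (t * t) + (φ p * gb b.ef f p) * (2 * t) + φ p ^ 2 * gb b.ef b.ef p =
      (t * dx f p + φ p * dx b.ef p) ^ 2 + (t * dy f p + φ p * dy b.ef p) ^ 2 +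
      (t * dz f p + φ p * dz b.ef p) ^ 2 := by
    unfold gb; ring
  show 0 ≤ gb f f p * (t * t) + (φ p * gb b.ef f p) * (2 * t) + φ p ^ 2 * gb b.ef b.ef p
  rw [this]
  positivity

lemma cs_mass {φ f : P → ℝ} (hφ : Continuous φ) (hf : Continuous f) :
    |∫ p in b.set, φ p * f p| ≤ √(∫ p in b.set, φ p ^ 2) * √(∫ p in b.set, f p * f p) := by
  have i1 : IntegrableOn (fun p => φ p ^ 2) b.set := intOn b (hφ.pow 2)
  have i2 : IntegrableOn (fun p => φ p * f p) b.set := intOn b (hφ.mul hf)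
  have i3 : IntegrableOn (fun p => f p * f p) b.set := intOn b (hf.mul hf)
  refine cs_real (fun t => ?_) (integral_nonneg fun p => sq_nonneg _)
  have : (∫ p in b.set, f p * f p) * (t * t) + (2 * ∫ p in b.set, φ p * f p) * t +
      ∫ p in b.set, φ p ^ 2 =
      ∫ p in b.set, (f p * f p * (t * t) + (φ p * f p) * (2 * t) + φ p ^ 2) := by
    have e1 := integral_add ((i3.mul_const (t * t)).add (i2.mul_const (2 * t))) i1
    have e2 := integral_add (i3.mul_const (t * t)) (i2.mul_const (2 * t))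
    simp only [Pi.add_apply] at e1 e2
    rw [e1, e2, integral_mul_const, integral_mul_const]
    ring
  rw [this]
  refine integral_nonneg fun p => ?_
  show 0 ≤ f p * f p * (t * t) + (φ p * f p) * (2 * t) + φ p ^ 2
  nlinarith [sq_nonneg (t * f p + φ p)]

lemma hcs_gb {f : P → ℝ} (hf : HasCompactSupport f) : HasCompactSupport (gb f f) := by
  have hx := hf.fderiv_apply ℝ (1, 0, 0)
  have hy := hf.fderiv_apply ℝ (0, 1, 0)
  have hz := hf.fderiv_apply ℝ (0, 0, 1)
  exact ((hx.mul_left (f := dx f)).add (hy.mul_left (f := dy f))).add (hz.mul_left (f := dz f))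

lemma En_ge {f : P → ℝ} (hf : f ∈ Dc univ) : ∫ p in b.set, gb f f p ≤ En f := by
  unfold En Eb
  exact setIntegral_le_integral ((cont_gb hf.1 hf.1).integrable_of_hasCompactSupport
    (hcs_gb hf.2.1)) (Eventually.of_forall fun p => gb_self_nonneg f p)

lemma Ms_ge {f : P → ℝ} (hf : f ∈ Dc univ) : ∫ p in b.set, f p * f p ≤ Ms f := by
  unfold Ms Mb
  exact setIntegral_le_integral ((hf.1.continuous.mul hf.1.continuous).integrable_of_hasCompactSupport
    (hf.2.1.mul_left)) (Eventually.of_forall fun p => mul_self_nonneg (f p))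

/-! ### assembly -/

theorem taskEAPP : TaskEAPP := by
  intro b h1 h2 h3 ε hε
  have e1 := int_ef_sq b h1 h2 h3
  have e2 := int_gb_ef b h1 h2 h3
  have L1 := lim1 (b := b)
  have L2 := lim2 (b := b)
  have L3 := lim3 (b := b)
  have L4 := lim4 (b := b)
  rw [e1] at L1 L2
  rw [e2] at L3 L4
  set T1 : ℕ → ℝ := fun n => ∫ p in b.set, b.ef p * th n (b.ef p) with hT1
  set T2 : ℕ → ℝ := fun n => ∫ p in b.set, th n (b.ef p) ^ 2 with hT2
  set T3 : ℕ → ℝ := fun n => ∫ p in b.set, G (n * b.ef p - 1) ^ 2 * gb b.ef b.ef p with hT3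
  set T4 : ℕ → ℝ := fun n => ∫ p in b.set, G (n * b.ef p - 1) * gb b.ef b.ef p with hT4
  have Lc : Tendsto (fun n => (T1 n)⁻¹) atTop (𝓝 1) := by
    have := L1.inv₀ one_ne_zero
    rwa [inv_one] at this
  have A1 : Tendsto (fun n => (T1 n)⁻¹ ^ 2 * T2 n) atTop (𝓝 1) := by
    have := (Lc.pow 2).mul L2
    simpa using this
  have A2 : Tendsto (fun n => (T1 n)⁻¹ ^ 2 * T3 n) atTop (𝓝 b.mu) := by
    have := (Lc.pow 2).mul L3
    simpa using this
  have A3 : Tendsto (fun n => (T1 n)⁻¹ ^ 2 * T3 n - 2 * ((T1 n)⁻¹ * T4 n) + b.mu) atTop (𝓝 0) := by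
    have := (A2.sub ((Lc.mul L4).const_mul 2)).add_const b.mu
    convert this using 2
    ring
  have A4 : Tendsto (fun n => (T1 n)⁻¹ ^ 2 * T2 n - 2 * ((T1 n)⁻¹ * T1 n) + 1) atTop (𝓝 0) := by
    have := (A1.sub ((Lc.mul L1).const_mul 2)).add_const 1
    convert this using 2
    ring
  have ε2 : 0 < ε ^ 2 := by positivity
  have E0 : ∀ᶠ n in atTop, (0 : ℝ) < T1 n := L1.eventually_const_lt one_pos
  have E1 : ∀ᶠ n in atTop, |(T1 n)⁻¹ ^ 2 * T2 n - 1| < ε := by
    have := (Metric.tendsto_nhds.1 A1) ε hε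
    simpa [Real.dist_eq] using this
  have E2 : ∀ᶠ n in atTop, |(T1 n)⁻¹ ^ 2 * T3 n - b.mu| < ε := by
    have := (Metric.tendsto_nhds.1 A2) ε hε
    simpa [Real.dist_eq] using this
  have E3 := A3.eventually_lt_const ε2
  have E4 := A4.eventually_lt_const ε2
  obtain ⟨n, n0, n1, n2, n3, n4⟩ := (E0.and (E1.and (E2.and (E3.and E4)))).exists
  set c : ℝ := (T1 n)⁻¹ with hc
  have ce := (contDiff_ef b).continuous
  have cee := cont_gb (contDiff_ef b) (contDiff_ef b)
  have cG := cont_Gn b n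
  have cth := cont_thn b n
  refine ⟨gn b c n, gn_mem h1 h2 h3 c n, ?_, ?_, ?_, ?_⟩
  · rw [l_gn]
    exact inv_mul_cancel₀ n0.ne'
  · rw [Ms_gn]
    exact n1.le
  · rw [En_gn h1 h2 h3]
    exact n2.le
  · intro f hf
    have cfd := hf.1
    have cf := hf.1.continuous
    have cef := cont_gb (contDiff_ef b) hf.1
    constructor
    · have q1 : Eb (gn b c n) f - ∫ p in b.set, gb b.ef f p =
          ∫ p in b.set, (c * G (n * b.ef p - 1) - 1) * gb b.ef f p := by
        rw [Eb_gn h1 h2 h3]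
        have i1 : IntegrableOn (fun p => c * G (n * b.ef p - 1) * gb b.ef f p) b.set :=
          intOn b ((continuous_const.mul cG).mul cef)
        rw [← integral_sub i1 (intOn b cef)]
        congr 1; ext p; ring
      have q2 : ∫ p in b.set, (c * G (n * b.ef p - 1) - 1) ^ 2 * gb b.ef b.ef p =
          c ^ 2 * T3 n - 2 * (c * T4 n) + b.mu := by
        have i3 : IntegrableOn (fun p => G (n * b.ef p - 1) ^ 2 * gb b.ef b.ef p) b.set :=
          intOn b ((cG.pow 2).mul cee)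
        have i4 : IntegrableOn (fun p => G (n * b.ef p - 1) * gb b.ef b.ef p) b.set :=
          intOn b (cG.mul cee)
        have i5 : IntegrableOn (fun p => gb b.ef b.ef p) b.set := intOn b cee
        have q := integral_add ((i3.const_mul (c ^ 2)).sub (i4.const_mul (2 * c))) i5
        have q' := integral_sub (i3.const_mul (c ^ 2)) (i4.const_mul (2 * c))
        simp only [Pi.add_apply, Pi.sub_apply] at q q'
        rw [q', integral_const_mul, integral_const_mul, e2] at q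
        rw [hT3, hT4]
        have : (∫ p in b.set, (c * G (n * b.ef p - 1) - 1) ^ 2 * gb b.ef b.ef p) =
            ∫ p in b.set, (c ^ 2 * (G (n * b.ef p - 1) ^ 2 * gb b.ef b.ef p) -
              2 * c * (G (n * b.ef p - 1) * gb b.ef b.ef p) + gb b.ef b.ef p) := by
          congr 1; ext p; ring
        rw [this, q]
        ring
      have cφ : Continuous (fun p => c * G (n * b.ef p - 1) - 1) :=
        (continuous_const.mul cG).sub continuous_const
      rw [q1]
      refine (cs_grad cφ hf.1).trans ?_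
      rw [q2]
      refine mul_le_mul ?_ (Real.sqrt_le_sqrt (En_ge hf)) (Real.sqrt_nonneg _) hε.le
      exact Real.sqrt_le_iff.2 ⟨hε.le, n3.le⟩
    · have q1 : Mb (gn b c n) f - b.l f =
          ∫ p in b.set, (c * th n (b.ef p) - b.ef p) * f p := by
        rw [Mb_gn]
        unfold Box.l
        have i1 : IntegrableOn (fun p => c * th n (b.ef p) * f p) b.set :=
          intOn b ((continuous_const.mul cth).mul cf)
        have i2 : IntegrableOn (fun p => b.ef p * f p) b.set := intOn b (ce.mul cf)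
        rw [← integral_sub i1 i2]
        congr 1; ext p; ring
      have q2 : ∫ p in b.set, (c * th n (b.ef p) - b.ef p) ^ 2 =
          c ^ 2 * T2 n - 2 * (c * T1 n) + 1 := by
        have i3 : IntegrableOn (fun p => th n (b.ef p) ^ 2) b.set := intOn b (cth.pow 2)
        have i4 : IntegrableOn (fun p => b.ef p * th n (b.ef p)) b.set := intOn b (ce.mul cth)
        have i5 : IntegrableOn (fun p => b.ef p * b.ef p) b.set := intOn b (ce.mul ce)
        have q := integral_add ((i3.const_mul (c ^ 2)).sub (i4.const_mul (2 * c))) i5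
        have q' := integral_sub (i3.const_mul (c ^ 2)) (i4.const_mul (2 * c))
        simp only [Pi.add_apply, Pi.sub_apply] at q q'
        rw [q', integral_const_mul, integral_const_mul, e1] at q
        rw [hT1, hT2]
        have : (∫ p in b.set, (c * th n (b.ef p) - b.ef p) ^ 2) =
            ∫ p in b.set, (c ^ 2 * (th n (b.ef p) ^ 2) -
              2 * c * (b.ef p * th n (b.ef p)) + b.ef p * b.ef p) := by
          congr 1; ext p; ring
        rw [this, q]
        ring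
      have cφ : Continuous (fun p => c * th n (b.ef p) - b.ef p) :=
        (continuous_const.mul cth).sub ce
      rw [q1]
      refine (cs_mass cφ cf).trans ?_
      rw [q2]
      refine mul_le_mul ?_ (Real.sqrt_le_sqrt (Ms_ge hf)) (Real.sqrt_nonneg _) hε.le
      exact Real.sqrt_le_iff.2 ⟨hε.le, n4.le⟩

end Pool.Agent.H851R3.EAPP
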