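import Pool.Agent.H851R3.Growth

set_option autoImplicit false

namespace Pool.Agent.H851R3

/-- index set of a finite family of tree isometries -/
def G : ℕ → Type
  | 0 => Unit
  | n + 1 => (G n × G n) × Bool

/-- expectation over the family -/
noncomputable def EG {V : Type} [AddCommGroup V] [Module ℝ V] : (n : ℕ) → (G n → V) → V
  | 0, φ => φ ()
  | n + 1, φ => (1 / 2 : ℝ) • (EG n (fun g => EG n (fun h => φ ((g, h), false))) +
      EG n (fun g => EG n (fun h => φ ((g, h), true))))

section EG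
variable {V W : Type} [AddCommGroup V] [Module ℝ V] [AddCommGroup W] [Module ℝ W]

lemma EG_add : ∀ (n : ℕ) (φ ψ : G n → V), EG n (fun g => φ g + ψ g) = EG n φ + EG n ψ
  | 0, _, _ => rfl
  | n + 1, φ, ψ => by
    simp only [EG]
    rw [show (fun g => EG n (fun h => φ ((g, h), false) + ψ ((g, h), false))) =
      (fun g => EG n (fun h => φ ((g, h), false)) + EG n (fun h => ψ ((g, h), false))) from
      funext fun g => EG_add n _ _,
      show (fun g => EG n (fun h => φ ((g, h), true) + ψ ((g, h), true))) =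
      (fun g => EG n (fun h => φ ((g, h), true)) + EG n (fun h => ψ ((g, h), true))) from
      funext fun g => EG_add n _ _, EG_add n, EG_add n]
    module

lemma EG_map (L : V →ₗ[ℝ] W) : ∀ (n : ℕ) (φ : G n → V), EG n (fun g => L (φ g)) = L (EG n φ)
  | 0, _ => rfl
  | n + 1, φ => by
    simp only [EG]
    rw [map_smul, map_add, ← EG_map L n, ← EG_map L n]
    simp only [← EG_map L n]

lemma EG_const : ∀ (n : ℕ) (v : V), EG n (fun _ => v) = v
  | 0, _ => rfl
  | n + 1, v => by
    simp only [EG, EG_const n]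
    module

lemma EG_smul (n : ℕ) (c : ℝ) (φ : G n → V) : EG n (fun g => c • φ g) = c • EG n φ :=
  EG_map (LinearMap.lsmul ℝ V c) n φ

lemma EG_bound (p : V → ℝ) (hadd : ∀ x y, p (x + y) ≤ p x + p y)
    (hsmul : ∀ (c : ℝ) x, p (c • x) = |c| * p x) (C : ℝ) :
    ∀ (n : ℕ) (φ : G n → V), (∀ g, p (φ g) ≤ C) → p (EG n φ) ≤ C
  | 0, φ, h => h ()
  | n + 1, φ, h => by
    simp only [EG]
    rw [hsmul]
    have h1 := EG_bound p hadd hsmul C n _ (fun g => EG_bound p hadd hsmul C n _
      (fun h' => h ((g, h'), false)))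
    have h2 := EG_bound p hadd hsmul C n _ (fun g => EG_bound p hadd hsmul C n _
      (fun h' => h ((g, h'), true)))
    have h3 := hadd (EG n (fun g => EG n (fun h => φ ((g, h), false))))
      (EG n (fun g => EG n (fun h => φ ((g, h), true))))
    rw [abs_of_pos (by norm_num)]
    linarith

end EG

/-- halves as linear maps -/
noncomputable def lfL (n : ℕ) : Y (n + 1) →ₗ[ℝ] Y n :=
  { toFun := lf, map_add' := fun _ _ => rfl, map_smul' := fun _ _ => rfl }
noncomputable def rtL (n : ℕ) : Y (n + 1) →ₗ[ℝ] Y n :=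
  { toFun := rt, map_add' := fun _ _ => rfl, map_smul' := fun _ _ => rfl }
noncomputable def inl (n : ℕ) : Y n →ₗ[ℝ] Y (n + 1) :=
  { toFun := fun f => mk f 0
    map_add' := fun f g => by apply Y_ext <;> simp
    map_smul' := fun c f => by apply Y_ext <;> simp }
noncomputable def inr (n : ℕ) : Y n →ₗ[ℝ] Y (n + 1) :=
  { toFun := fun f => mk 0 f
    map_add' := fun f g => by apply Y_ext <;> simp
    map_smul' := fun c f => by apply Y_ext <;> simp }

lemma lfL_apply (n : ℕ) (f : Y (n + 1)) : lfL n f = lf f := rfl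
lemma rtL_apply (n : ℕ) (f : Y (n + 1)) : rtL n f = rt f := rfl
lemma inl_apply (n : ℕ) (f : Y n) : inl n f = mk f 0 := rfl
lemma inr_apply (n : ℕ) (f : Y n) : inr n f = mk 0 f := rfl

lemma mk_eq (n : ℕ) (a b : Y n) : mk a b = inl n a + inr n b := by
  apply Y_ext <;> simp [inl_apply, inr_apply]

/-- action of the family -/
noncomputable def act : (n : ℕ) → G n → Y n →ₗ[ℝ] Y n
  | 0, _ => LinearMap.id
  | n + 1, ((g, h), false) => inl n ∘ₗ act n g ∘ₗ lfL n + inr n ∘ₗ act n h ∘ₗ rtL n
  | n + 1, ((g, h), true) => inl n ∘ₗ act n g ∘ₗ rtL n + inr n ∘ₗ act n h ∘ₗ lfL n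

/-- inverse action -/
noncomputable def acti : (n : ℕ) → G n → Y n →ₗ[ℝ] Y n
  | 0, _ => LinearMap.id
  | n + 1, ((g, h), false) => inl n ∘ₗ acti n g ∘ₗ lfL n + inr n ∘ₗ acti n h ∘ₗ rtL n
  | n + 1, ((g, h), true) => inl n ∘ₗ acti n h ∘ₗ rtL n + inr n ∘ₗ acti n g ∘ₗ lfL n

section act
variable (n : ℕ) (g h : G n) (f : Y (n + 1))

lemma act_false : act (n + 1) ((g, h), false) f = mk (act n g (lf f)) (act n h (rt f)) := by
  rw [mk_eq]; rfl
lemma act_true : act (n + 1) ((g, h), true) f = mk (act n g (rt f)) (act n h (lf f)) := by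
  rw [mk_eq]; rfl
lemma acti_false : acti (n + 1) ((g, h), false) f = mk (acti n g (lf f)) (acti n h (rt f)) := by
  rw [mk_eq]; rfl
lemma acti_true : acti (n + 1) ((g, h), true) f = mk (acti n h (rt f)) (acti n g (lf f)) := by
  rw [mk_eq]; rfl
end act

lemma act_acti : ∀ (n : ℕ) (g : G n) (f : Y n), act n g (acti n g f) = f
  | 0, _, _ => rfl
  | n + 1, ((g, h), false), f => by
    rw [acti_false, act_false, lf_mk, rt_mk, act_acti n, act_acti n, mk_lf_rt]
  | n + 1, ((g, h), true), f => by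
    rw [acti_true, act_true, lf_mk, rt_mk, act_acti n, act_acti n, mk_lf_rt]

lemma nr_act : ∀ (n k : ℕ) (g : G n) (f : Y n), nr n k (act n g f) = nr n k f
  | 0, _, _, _ => rfl
  | n + 1, k, ((g, h), false), f => by
    rw [act_false, nr_succ, nr_succ, lf_mk, rt_mk, nr_act n, nr_act n]
  | n + 1, k, ((g, h), true), f => by
    rw [act_true, nr_succ, nr_succ, lf_mk, rt_mk, nr_act n, nr_act n, qq_comm]

lemma nr_acti : ∀ (n k : ℕ) (g : G n) (f : Y n), nr n k (acti n g f) = nr n k f
  | 0, _, _, _ => rfl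
  | n + 1, k, ((g, h), false), f => by
    rw [acti_false, nr_succ, nr_succ, lf_mk, rt_mk, nr_acti n, nr_acti n]
  | n + 1, k, ((g, h), true), f => by
    rw [acti_true, nr_succ, nr_succ, lf_mk, rt_mk, nr_acti n, nr_acti n, qq_comm]

lemma mean_act : ∀ (n : ℕ) (g : G n) (f : Y n), mean n (act n g f) = mean n f
  | 0, _, _ => rfl
  | n + 1, ((g, h), false), f => by
    rw [act_false, mean_succ, mean_succ, lf_mk, rt_mk, mean_act n, mean_act n]
  | n + 1, ((g, h), true), f => by
    rw [act_true, mean_succ, mean_succ, lf_mk, rt_mk, mean_act n, mean_act n, add_comm]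

lemma act_one : ∀ (n : ℕ) (g : G n), act n g (one n) = one n
  | 0, _ => rfl
  | n + 1, ((g, h), false) => by
    rw [act_false, lf_one, rt_one, act_one n, act_one n]; rfl
  | n + 1, ((g, h), true) => by
    rw [act_true, lf_one, rt_one, act_one n, act_one n]; rfl

lemma act_M (μ : ℕ → ℝ) : ∀ (n k : ℕ) (g : G n) (f : Y n),
    act n g (M μ n k f) = M μ n k (act n g f)
  | 0, _, _, _ => rfl
  | n + 1, k, ((g, h), false), f => by
    rw [act_false, act_false]
    apply Y_ext
    · rw [lf_mk, lf_M, lf_M, lf_mk, rt_mk, map_add, act_M μ n, map_smul, act_one, mean_act,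
        mean_act]
    · rw [rt_mk, rt_M, rt_M, lf_mk, rt_mk, map_sub, act_M μ n, map_smul, act_one, mean_act,
        mean_act]
  | n + 1, k, ((g, h), true), f => by
    rw [act_true, act_true]
    apply Y_ext
    · rw [lf_mk, lf_M, rt_M, lf_mk, rt_mk, map_sub, act_M μ n, map_smul, act_one, mean_act,
        mean_act]
      module
    · rw [rt_mk, rt_M, lf_M, lf_mk, rt_mk, map_add, act_M μ n, map_smul, act_one, mean_act,
        mean_act]
      module

lemma EG_act : ∀ (n : ℕ) (f : Y n), EG n (fun g => act n g f) = (mean n f) • one n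
  | 0, f => by
    apply Y0_ext
    simp [EG, act]
  | n + 1, f => by
    simp only [EG, act_false, act_true]
    have e : ∀ (a b : Y n), EG n (fun g => EG n (fun h => mk (act n g a) (act n h b))) =
        mk ((mean n a) • one n) ((mean n b) • one n) := by
      intro a b
      simp only [mk_eq, EG_add, EG_const, EG_map, EG_act n]
    rw [e, e]
    apply Y_ext
    · simp only [lf_smul, lf_add, lf_mk, mean_succ, lf_one]; module
    · simp only [rt_smul, rt_add, rt_mk, mean_succ, rt_one]; module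

lemma EG_acti : ∀ (n : ℕ) (f : Y n), EG n (fun g => acti n g f) = (mean n f) • one n
  | 0, f => by
    apply Y0_ext
    simp [EG, acti]
  | n + 1, f => by
    simp only [EG, acti_false, acti_true]
    have e : ∀ (a b : Y n), EG n (fun g => EG n (fun h => mk (acti n g a) (acti n h b))) =
        mk ((mean n a) • one n) ((mean n b) • one n) := by
      intro a b
      simp only [mk_eq, EG_add, EG_const, EG_map, EG_acti n]
    have e' : ∀ (a b : Y n), EG n (fun g => EG n (fun h => mk (acti n h a) (acti n g b))) =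
        mk ((mean n a) • one n) ((mean n b) • one n) := by
      intro a b
      simp only [mk_eq, EG_add, EG_const, EG_map, EG_acti n]
    rw [e, e']
    apply Y_ext
    · simp only [lf_smul, lf_add, lf_mk, mean_succ, lf_one]; module
    · simp only [rt_smul, rt_add, rt_mk, mean_succ, rt_one]; module

lemma M_congr {μ ν : ℕ → ℝ} : ∀ (n k : ℕ) (_ : ∀ i, k ≤ i → i < k + n → μ i = ν i) (f : Y n),
    M μ n k f = M ν n k f
  | 0, _, _, _ => rfl
  | n + 1, k, h, f => by
    have h1 : ∀ i, k + 1 ≤ i → i < k + 1 + n → μ i = ν i := fun i h1 h2 => h i (by omega) (by omega)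
    apply Y_ext
    · rw [lf_M, lf_M, M_congr n (k + 1) h1, h k le_rfl (by omega)]
    · rw [rt_M, rt_M, M_congr n (k + 1) h1, h k le_rfl (by omega)]

/-- averaging of an operator over the family -/
noncomputable def Avg (n : ℕ) (T : Y n →ₗ[ℝ] Y n) (f : Y n) : Y n :=
  EG n (fun g => act n g (T (acti n g f)))

lemma Avg_add_op (n : ℕ) (S T : Y n →ₗ[ℝ] Y n) (f : Y n) :
    Avg n (S + T) f = Avg n S f + Avg n T f := by
  simp only [Avg, LinearMap.add_apply, map_add, EG_add]

lemma Avg_smul_op (n : ℕ) (c : ℝ) (T : Y n →ₗ[ℝ] Y n) (f : Y n) :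
    Avg n (c • T) f = c • Avg n T f := by
  simp only [Avg, LinearMap.smul_apply, map_smul, EG_smul]

lemma Avg_bound (n k : ℕ) (T : Y n →ₗ[ℝ] Y n) (C : ℝ) (hC : ∀ f, nr n k (T f) ≤ C * nr n k f)
    (f : Y n) : nr n k (Avg n T f) ≤ C * nr n k f := by
  apply EG_bound (nr n k) (nr_add_le n k) (nr_smul n k)
  intro g
  rw [nr_act]
  refine (hC _).trans ?_
  rw [nr_acti]

lemma Avg_M (μ : ℕ → ℝ) (n k : ℕ) (f : Y n) : Avg n (M μ n k) f = M μ n k f := by
  simp only [Avg, act_M, act_acti, EG_const]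

/-- the averaged operator is a multiplier -/
lemma Avg_eq : ∀ (n : ℕ) (T : Y n →ₗ[ℝ] Y n), ∃ (c : ℝ) (s : ℕ → ℝ), ∀ (k : ℕ) (f : Y n),
    Avg n T f = (c * mean n f) • one n + M (fun i => s (i - k)) n k f
  | 0, T => by
    refine ⟨toR (T (one 0)), fun _ => 0, fun k f => ?_⟩
    rw [M_zero, add_zero]
    have e : f = (toR f) • one 0 := by apply Y0_ext; simp
    have e2 : Avg 0 T f = T f := rfl
    rw [e2]
    apply Y0_ext
    rw [toR_smul, toR_one, mul_one, mean_zero']
    conv_lhs => rw [e]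
    rw [map_smul, toR_smul, mul_comm]
  | n + 1, T => by
    set T00 : Y n →ₗ[ℝ] Y n := lfL n ∘ₗ T ∘ₗ inl n with h00
    set T01 : Y n →ₗ[ℝ] Y n := lfL n ∘ₗ T ∘ₗ inr n with h01
    set T10 : Y n →ₗ[ℝ] Y n := rtL n ∘ₗ T ∘ₗ inl n with h10
    set T11 : Y n →ₗ[ℝ] Y n := rtL n ∘ₗ T ∘ₗ inr n with h11
    have lfT : ∀ a b : Y n, lf (T (mk a b)) = T00 a + T01 b := fun a b => by
      rw [mk_eq, map_add, lf_add]; rfl
    have rtT : ∀ a b : Y n, rt (T (mk a b)) = T10 a + T11 b := fun a b => by
      rw [mk_eq, map_add, rt_add]; rfl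
    obtain ⟨c, s, hcs⟩ := Avg_eq n ((1 / 2 : ℝ) • (T00 + T11))
    set κ : ℝ := mean n ((T01 + T10) (one n)) / 2 with hκ
    -- the four basic averages
    have b1 : ∀ (S : Y n →ₗ[ℝ] Y n) (f0 f1 : Y n),
        EG n (fun g => EG n (fun h => act n g (S (acti n h f1)))) =
          (mean n f1 * mean n (S (one n))) • one n := by
      intro S _ f1
      have : ∀ g, EG n (fun h => act n g (S (acti n h f1))) =
          act n g ((mean n f1) • S (one n)) := by
        intro g
        rw [EG_map (act n g) n (fun h => S (acti n h f1)), EG_map S n (fun h => acti n h f1),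
          EG_acti, map_smul]
      simp only [this, map_smul, EG_smul, EG_act]
      module
    have b1' : ∀ (S : Y n →ₗ[ℝ] Y n) (f1 : Y n),
        EG n (fun g => EG n (fun h => act n h (S (acti n g f1)))) =
          (mean n f1 * mean n (S (one n))) • one n := by
      intro S f1
      simp only [EG_act]
      have : ∀ g, (mean n (S (acti n g f1))) • one n =
        (LinearMap.toSpanSingleton ℝ (Y n) (one n) ∘ₗ mean n ∘ₗ S) (acti n g f1) := fun g => rfl
      simp only [this]
      rw [EG_map, EG_acti]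
      simp only [LinearMap.comp_apply, map_smul, LinearMap.toSpanSingleton_apply]
      module
    have key : ∀ f : Y (n + 1), Avg (n + 1) T f =
        mk (Avg n ((1 / 2 : ℝ) • (T00 + T11)) (lf f) + (κ * mean n (rt f)) • one n)
          (Avg n ((1 / 2 : ℝ) • (T00 + T11)) (rt f) + (κ * mean n (lf f)) • one n) := by
      intro f
      apply Y_ext
      · rw [lf_mk]
        show lfL n (Avg (n + 1) T f) = _
        rw [Avg, ← EG_map (lfL n)]
        simp only [EG, act_false, act_true, acti_false, acti_true, lfL_apply, lf_mk, lfT, rtT,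
          map_add, EG_add, EG_const, b1 _ (lf f), Avg, LinearMap.smul_apply, LinearMap.add_apply,
          map_smul, EG_smul, hκ]
        module
      · rw [rt_mk]
        show rtL n (Avg (n + 1) T f) = _
        rw [Avg, ← EG_map (rtL n)]
        simp only [EG, act_false, act_true, acti_false, acti_true, rtL_apply, rt_mk, lfT, rtT,
          map_add, EG_add, EG_const, b1', Avg, LinearMap.smul_apply, LinearMap.add_apply,
          map_smul, EG_smul, hκ]
        module
    refine ⟨c + κ, fun i => match i with | 0 => c - κ | i + 1 => s i, fun k f => ?_⟩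
    rw [key]
    have hM : ∀ f : Y n, M (fun i => (fun i => match i with | 0 => c - κ | i + 1 => s i : ℕ → ℝ) (i - k))
        n (k + 1) f = M (fun i => s (i - (k + 1))) n (k + 1) f := by
      intro f
      apply M_congr
      intro i hi _
      obtain ⟨j, rfl⟩ : ∃ j, i = k + 1 + j := ⟨i - (k + 1), by omega⟩
      have e1 : k + 1 + j - k = j + 1 := by omega
      have e2 : k + 1 + j - (k + 1) = j := by omega
      simp only [e1, e2]
    apply Y_ext
    · rw [lf_mk, lf_add, lf_smul, lf_one, lf_M, hM, hcs (k + 1)]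
      simp only [mean_succ, Nat.sub_self]
      module
    · rw [rt_mk, rt_add, rt_smul, rt_one, rt_M, hM, hcs (k + 1)]
      simp only [mean_succ, Nat.sub_self]
      module

/-- Rademacher functions -/
noncomputable def rad : (n : ℕ) → (i : ℕ) → Y n
  | 0, _ => 0
  | n + 1, 0 => mk (one n) (-one n)
  | n + 1, i + 1 => mk (rad n i) (rad n i)

/-- value at the leftmost leaf -/
noncomputable def leaf : (n : ℕ) → Y n →ₗ[ℝ] ℝ
  | 0 => mean 0
  | n + 1 => leaf n ∘ₗ lfL n

lemma leaf_succ (n : ℕ) (f : Y (n + 1)) : leaf (n + 1) f = leaf n (lf f) := rfl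

lemma leaf_one : ∀ n : ℕ, leaf n (one n) = 1
  | 0 => rfl
  | n + 1 => by rw [leaf_succ, lf_one, leaf_one n]

lemma mean_rad : ∀ n i : ℕ, mean n (rad n i) = 0
  | 0, _ => by simp [rad]
  | n + 1, 0 => by simp [rad]
  | n + 1, i + 1 => by simp [rad, mean_rad n i]

lemma nr_rad : ∀ n k i : ℕ, i < n → nr n k (rad n i) = 1
  | 0, _, _, h => by omega
  | n + 1, k, 0, _ => by
    rw [nr_succ, rad, lf_mk, rt_mk, nr_neg, nr_one, qq_diag k zero_le_one]
  | n + 1, k, i + 1, h => by
    rw [nr_succ, rad, lf_mk, rt_mk, nr_rad n (k + 1) i (by omega), qq_diag k zero_le_one]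

lemma leaf_rad : ∀ n i : ℕ, i < n → leaf n (rad n i) = 1
  | 0, _, h => by omega
  | n + 1, 0, _ => by rw [leaf_succ, rad, lf_mk, leaf_one]
  | n + 1, i + 1, h => by rw [leaf_succ, rad, lf_mk, leaf_rad n i (by omega)]

lemma rad_eq_zero : ∀ n i : ℕ, n ≤ i → rad n i = 0
  | 0, _, _ => rfl
  | n + 1, 0, h => by omega
  | n + 1, i + 1, h => by
    rw [rad, rad_eq_zero n i (by omega)]; rfl

lemma M_rad (μ : ℕ → ℝ) : ∀ n k i : ℕ, M μ n k (rad n i) = μ (k + i) • rad n i
  | 0, _, _ => by rw [M_zero]; simp [rad]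
  | n + 1, k, 0 => by
    apply Y_ext
    · rw [lf_M, lf_smul, rad, lf_mk, rt_mk, M_one, map_neg, mean_one, add_zero]; module
    · rw [rt_M, rt_smul, rad, lf_mk, rt_mk, map_neg, M_one, map_neg, mean_one, add_zero]; module
  | n + 1, k, i + 1 => by
    apply Y_ext
    · rw [lf_M, lf_smul, rad, lf_mk, rt_mk, M_rad μ n, show k + 1 + i = k + (i + 1) by ring]
      simp
    · rw [rt_M, rt_smul, rad, lf_mk, rt_mk, M_rad μ n, show k + 1 + i = k + (i + 1) by ring]
      simp

/-- the `i`-th normalised level trace of an operator -/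
noncomputable def coef (n i : ℕ) (T : Y n →ₗ[ℝ] Y n) : ℝ := leaf n (Avg n T (rad n i))

lemma coef_add (n i : ℕ) (S T : Y n →ₗ[ℝ] Y n) : coef n i (S + T) = coef n i S + coef n i T := by
  simp only [coef, Avg_add_op, map_add]

lemma coef_smul (n i : ℕ) (c : ℝ) (T : Y n →ₗ[ℝ] Y n) : coef n i (c • T) = c * coef n i T := by
  simp only [coef, Avg_smul_op, map_smul, smul_eq_mul]

lemma coef_M (μ : ℕ → ℝ) (n i : ℕ) (hi : i < n) : coef n i (M μ n 0) = μ i := by
  rw [coef, Avg_M, M_rad, map_smul, leaf_rad n i hi, zero_add, smul_eq_mul, mul_one]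

lemma Avg_zero_vec (n : ℕ) (T : Y n →ₗ[ℝ] Y n) : Avg n T 0 = 0 := by
  simp only [Avg, map_zero, EG_const]

lemma Avg_coef (n : ℕ) (T : Y n →ₗ[ℝ] Y n) (f : Y n) (hf : mean n f = 0) :
    Avg n T f = M (fun i => coef n i T) n 0 f := by
  obtain ⟨c, s, h⟩ := Avg_eq n T
  have h0 := h 0 f
  rw [hf, mul_zero, zero_smul, zero_add] at h0
  rw [h0]
  apply M_congr
  intro i _ hi
  rw [coef, h 0 (rad n i), mean_rad, mul_zero, zero_smul, zero_add, M_rad, map_smul,
    leaf_rad n i (by omega), zero_add, smul_eq_mul, mul_one]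

lemma coef_bound (n i : ℕ) (T : Y n →ₗ[ℝ] Y n) (C : ℝ) (hC0 : 0 ≤ C)
    (hC : ∀ f, nr n 0 (T f) ≤ C * nr n 0 f) : |coef n i T| ≤ C := by
  by_cases hi : i < n
  · have h1 := Avg_bound n 0 T C hC (rad n i)
    rw [Avg_coef n T (rad n i) (mean_rad n i), M_rad, nr_smul, nr_rad n 0 i hi, mul_one, mul_one,
      zero_add] at h1
    exact h1
  · rw [coef, rad_eq_zero n i (by omega), Avg_zero_vec, map_zero, abs_zero]; exact hC0

lemma M_coef_bound (n : ℕ) (T : Y n →ₗ[ℝ] Y n) (C : ℝ)
    (hC : ∀ f, nr n 0 (T f) ≤ C * nr n 0 f) (f : Y n) (hf : mean n f = 0) :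
    nr n 0 (M (fun i => coef n i T) n 0 f) ≤ C * nr n 0 f := by
  rw [← Avg_coef n T f hf]
  exact Avg_bound n 0 T C hC f

/-- the tail multiplier is bounded by two -/
lemma tail_bound (p : ℕ) : ∀ (n k : ℕ) (f : Y n),
    nr n k (M (fun i => if p ≤ i then 1 else 0) n k f) ≤ 2 * nr n k f := by
  have full : ∀ (n k : ℕ) (f : Y n), p ≤ k →
      M (fun i => if p ≤ i then (1 : ℝ) else 0) n k f = f - (mean n f) • one n := by
    intro n
    induction n with
    | zero =>
      intro k f _
      apply Y0_ext; simp [M_zero]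
    | succ n ih =>
      intro k f hk
      apply Y_ext
      · rw [lf_M, ih (k + 1) _ (by omega), lf_sub, lf_smul, lf_one, mean_succ, if_pos hk]; module
      · rw [rt_M, ih (k + 1) _ (by omega), rt_sub, rt_smul, rt_one, mean_succ, if_pos hk]; module
  intro n
  induction n with
  | zero =>
    intro k f
    rw [M_zero, nr_zero]
    exact mul_nonneg (by norm_num) (nr_nonneg _ _ _)
  | succ n ih =>
    intro k f
    by_cases hk : p ≤ k
    · rw [full _ _ _ hk, sub_eq_add_neg]
      refine (nr_add_le _ _ _ _).trans ?_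
      rw [nr_neg, nr_smul, nr_one]
      have := abs_mean_le (n + 1) k f
      linarith
    · rw [nr_succ, lf_M, rt_M, if_neg hk, nr_succ, ← qq_smul k (by norm_num)]
      rw [zero_mul, zero_smul, add_zero, sub_zero]
      exact qq_mono k (nr_nonneg _ _ _) (nr_nonneg _ _ _) (ih _ _) (ih _ _)

end Pool.Agent.H851R3
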