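import Mathlib

set_option autoImplicit false

namespace Pool.Agent.H851R3.Fac

open Filter Topology

/-- large constants -/
def Cc (k : ℕ) : ℕ := (k + 1) ^ 2 + 1
def Mm (k : ℕ) : ℕ := (k + 1) * Cc k
/-- the number of coordinates tested in the `k`-th summand -/
def mt (k : ℕ) (b : Bool) : ℕ := if b then Mm k ^ ((k + 1) * (k + 2)) else 1

lemma Cc_pos (k : ℕ) : 0 < Cc k := by unfold Cc; positivity
lemma Mm_pos (k : ℕ) : 0 < Mm k := by
  have := Cc_pos k
  unfold Mm; positivity
lemma mt_pos (k : ℕ) (b : Bool) : 0 < mt k b := by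
  have := Mm_pos k
  unfold mt; split_ifs
  · positivity
  · norm_num

/-- index set: number of the summand, part, position -/
abbrev Ix : Type := ℕ × Bool × ℕ

/-- finitely supported functions -/
def F : Type := Ix →₀ ℝ

noncomputable instance : AddCommGroup F := inferInstanceAs (AddCommGroup (Ix →₀ ℝ))
noncomputable instance : Module ℝ F := inferInstanceAs (Module ℝ (Ix →₀ ℝ))

/-- coordinates -/
def co (x : F) (α : Ix) : ℝ := (show Ix →₀ ℝ from x) α
/-- unit vectors -/
noncomputable def sg (α : Ix) : F := (Finsupp.single α 1 : Ix →₀ ℝ)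
/-- the support -/
noncomputable def sup (x : F) : Finset Ix := (show Ix →₀ ℝ from x).support

@[simp] lemma co_add (x y : F) (α : Ix) : co (x + y) α = co x α + co y α := rfl
@[simp] lemma co_sub (x y : F) (α : Ix) : co (x - y) α = co x α - co y α := rfl
@[simp] lemma co_neg (x : F) (α : Ix) : co (-x) α = - co x α := rfl
@[simp] lemma co_smul (c : ℝ) (x : F) (α : Ix) : co (c • x) α = c * co x α := rfl
@[simp] lemma co_zero (α : Ix) : co 0 α = 0 := rfl
lemma co_sg (α β : Ix) : co (sg α) β = if α = β then 1 else 0 := by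
  unfold co sg; exact Finsupp.single_apply
lemma co_sg_self (α : Ix) : co (sg α) α = 1 := by rw [co_sg, if_pos rfl]

lemma F_ext {x y : F} (h : ∀ α, co x α = co y α) : x = y := Finsupp.ext h

lemma co_sum {κ : Type} (s : Finset κ) (f : κ → F) (α : Ix) :
    co (∑ i ∈ s, f i) α = ∑ i ∈ s, co (f i) α := by
  classical
  induction s using Finset.induction_on with
  | empty => simp
  | insert a s ha ih => rw [Finset.sum_insert ha, Finset.sum_insert ha, co_add, ih]

lemma mem_sup (x : F) (α : Ix) : α ∈ sup x ↔ co x α ≠ 0 := Finsupp.mem_support_iff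

lemma F_expand (x : F) : x = ∑ α ∈ sup x, co x α • sg α := by
  apply F_ext
  intro β
  rw [co_sum]
  simp only [co_smul, co_sg, mul_ite, mul_one, mul_zero]
  rw [Finset.sum_ite_eq']
  split_ifs with h
  · rfl
  · rw [mem_sup] at h; push Not at h; exact h

/-- the exponent of the `k`-th summand -/
noncomputable def q (k : ℕ) : ℝ := (k : ℝ) + 1

lemma q_pos (k : ℕ) : 0 < q k := by unfold q; positivity
lemma one_le_q (k : ℕ) : 1 ≤ q k := by
  unfold q
  have : (0 : ℝ) ≤ k := by positivity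
  linarith

/-- the basic tests -/
noncomputable def tv (k : ℕ) (b : Bool) (A : Finset ℕ) (x : Ix → ℝ) : ℝ :=
  (∑ i ∈ A, |x (k, b, i)| ^ q k) ^ (1 / q k)

lemma rr {p : ℝ} (hp : 0 < p) {c : ℝ} (hc : 0 ≤ c) : (c ^ p) ^ (1 / p) = c := by
  rw [one_div, Real.rpow_rpow_inv hc hp.ne']

lemma rr' {p : ℝ} (hp : 0 < p) {c : ℝ} (hc : 0 ≤ c) : (c ^ (1 / p)) ^ p = c := by
  rw [one_div, Real.rpow_inv_rpow hc hp.ne']

lemma sum_nonneg' (k : ℕ) (b : Bool) (A : Finset ℕ) (x : Ix → ℝ) :
    0 ≤ ∑ i ∈ A, |x (k, b, i)| ^ q k :=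
  Finset.sum_nonneg fun i _ => Real.rpow_nonneg (abs_nonneg _) _

lemma tv_nonneg (k : ℕ) (b : Bool) (A : Finset ℕ) (x : Ix → ℝ) : 0 ≤ tv k b A x :=
  Real.rpow_nonneg (sum_nonneg' k b A x) _

lemma tv_rpow (k : ℕ) (b : Bool) (A : Finset ℕ) (x : Ix → ℝ) :
    tv k b A x ^ q k = ∑ i ∈ A, |x (k, b, i)| ^ q k := rr' (q_pos k) (sum_nonneg' k b A x)

lemma tv_add_le (k : ℕ) (b : Bool) (A : Finset ℕ) (x y : Ix → ℝ) :
    tv k b A (fun α => x α + y α) ≤ tv k b A x + tv k b A y :=
  Real.Lp_add_le A (fun i => x (k, b, i)) (fun i => y (k, b, i)) (one_le_q k)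

lemma tv_le_of {k : ℕ} {b : Bool} {A : Finset ℕ} {x : Ix → ℝ} {c M : ℝ} (hM : 0 ≤ M) (hc : 0 ≤ c)
    (h : ∑ i ∈ A, |x (k, b, i)| ^ q k ≤ c * M ^ q k) : tv k b A x ≤ c ^ (1 / q k) * M := by
  unfold tv
  have h1 : (∑ i ∈ A, |x (k, b, i)| ^ q k) ^ (1 / q k) ≤ (c * M ^ q k) ^ (1 / q k) :=
    Real.rpow_le_rpow (sum_nonneg' k b A x) h (by have := q_pos k; positivity)
  rwa [Real.mul_rpow hc (by positivity), rr (q_pos k) hM] at h1

lemma tv_smul (k : ℕ) (b : Bool) (A : Finset ℕ) (c : ℝ) (x : Ix → ℝ) :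
    tv k b A (fun α => c * x α) = |c| * tv k b A x := by
  unfold tv
  have : ∑ i ∈ A, |c * x (k, b, i)| ^ q k = |c| ^ q k * ∑ i ∈ A, |x (k, b, i)| ^ q k := by
    rw [Finset.mul_sum]
    apply Finset.sum_congr rfl
    intro i _
    rw [abs_mul, Real.mul_rpow (abs_nonneg _) (abs_nonneg _)]
  rw [this, Real.mul_rpow (by positivity) (sum_nonneg' k b A x), rr (q_pos k) (abs_nonneg c)]

lemma tv_mono {k : ℕ} {b : Bool} {A : Finset ℕ} {x y : Ix → ℝ}
    (h : ∀ i ∈ A, |x (k, b, i)| ≤ |y (k, b, i)|) : tv k b A x ≤ tv k b A y := by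
  have := q_pos k
  unfold tv
  apply Real.rpow_le_rpow (sum_nonneg' k b A x) _ (by positivity)
  apply Finset.sum_le_sum
  intro i hi
  exact Real.rpow_le_rpow (abs_nonneg _) (h i hi) this.le

lemma tv_singleton (k : ℕ) (b : Bool) (i : ℕ) (x : Ix → ℝ) : tv k b {i} x = |x (k, b, i)| := by
  unfold tv
  rw [Finset.sum_singleton, rr (q_pos k) (abs_nonneg _)]

lemma tv_empty (k : ℕ) (b : Bool) (x : Ix → ℝ) : tv k b ∅ x = 0 := by
  have := q_pos k
  unfold tv
  rw [Finset.sum_empty, Real.zero_rpow (by positivity)]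

/-- crude bound -/
lemma tv_le_card {k : ℕ} {b : Bool} {A : Finset ℕ} {x : Ix → ℝ} {M : ℝ} (hM : 0 ≤ M)
    (h : ∀ i ∈ A, |x (k, b, i)| ≤ M) (m : ℕ) (hm : 1 ≤ m) (hA : A.card ≤ m) :
    tv k b A x ≤ m * M := by
  have hq := q_pos k
  have h1 : ∑ i ∈ A, |x (k, b, i)| ^ q k ≤ (m : ℝ) * M ^ q k := by
    calc ∑ i ∈ A, |x (k, b, i)| ^ q k ≤ ∑ i ∈ A, M ^ q k := by
          apply Finset.sum_le_sum
          intro i hi
          exact Real.rpow_le_rpow (abs_nonneg _) (h i hi) hq.le
      _ = (A.card : ℝ) * M ^ q k := by rw [Finset.sum_const, nsmul_eq_mul]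
      _ ≤ (m : ℝ) * M ^ q k := by
          have : (A.card : ℝ) ≤ m := by exact_mod_cast hA
          have h0 : 0 ≤ M ^ q k := Real.rpow_nonneg hM _
          gcongr
  refine (tv_le_of hM (by positivity) h1).trans ?_
  have hm1 : (1 : ℝ) ≤ m := by exact_mod_cast hm
  have : (m : ℝ) ^ (1 / q k) ≤ (m : ℝ) ^ (1 : ℝ) := by
    apply Real.rpow_le_rpow_of_exponent_le hm1
    rw [div_le_one hq]; exact one_le_q k
  rw [Real.rpow_one] at this
  gcongr

/-- admissible tests -/
def Test : Type := {t : ℕ × Bool × Finset ℕ // t.2.2.card ≤ mt t.1 t.2.1}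

/-- the value of a test -/
noncomputable def tvt (t : Test) (x : Ix → ℝ) : ℝ := tv t.1.1 t.1.2.1 t.1.2.2 x

instance : Nonempty Test := ⟨⟨(0, false, ∅), by simp⟩⟩

/-- the norm -/
noncomputable def NN (x : F) : ℝ := ⨆ t : Test, tvt t (co x)

lemma tvt_sg_le (t : Test) (α : Ix) : tvt t (co (sg α)) ≤ 1 := by
  unfold tvt
  obtain ⟨⟨k, b, A⟩, hA⟩ := t
  simp only
  have h : ∑ i ∈ A, |co (sg α) (k, b, i)| ^ q k ≤ 1 * (1 : ℝ) ^ q k := by
    have hq := q_pos k
    rw [Real.one_rpow, mul_one]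
    calc ∑ i ∈ A, |co (sg α) (k, b, i)| ^ q k
        ≤ ∑ i ∈ A, (if i = α.2.2 then (1 : ℝ) else 0) := by
          apply Finset.sum_le_sum
          intro i _
          rw [co_sg]
          split_ifs with h1 h2 h2
          · simp
          · exact absurd (by rw [h1]) h2
          · rw [abs_zero, Real.zero_rpow hq.ne']; norm_num
          · rw [abs_zero, Real.zero_rpow hq.ne']
      _ ≤ 1 := by
          rw [Finset.sum_ite_eq']
          split_ifs <;> norm_num
  have := tv_le_of (by norm_num) (by norm_num) h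
  simpa using this

lemma tvt_add_le (t : Test) (x y : F) : tvt t (co (x + y)) ≤ tvt t (co x) + tvt t (co y) :=
  tv_add_le _ _ _ (co x) (co y)

lemma tvt_smul (t : Test) (c : ℝ) (x : F) : tvt t (co (c • x)) = |c| * tvt t (co x) :=
  tv_smul _ _ _ c (co x)

lemma tvt_zero (t : Test) : tvt t (co 0) = 0 := by
  have := tvt_smul t 0 0
  simpa using this

lemma tvt_sum_le (t : Test) {κ : Type} (s : Finset κ) (f : κ → F) :
    tvt t (co (∑ i ∈ s, f i)) ≤ ∑ i ∈ s, tvt t (co (f i)) := by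
  classical
  induction s using Finset.induction_on with
  | empty => simp [tvt_zero]
  | insert a s ha ih =>
    rw [Finset.sum_insert ha, Finset.sum_insert ha]
    exact (tvt_add_le t _ _).trans (by linarith)

lemma tvt_le_sum (t : Test) (x : F) : tvt t (co x) ≤ ∑ α ∈ sup x, |co x α| := by
  conv_lhs => rw [F_expand x]
  refine (tvt_sum_le t _ _).trans ?_
  apply Finset.sum_le_sum
  intro α _
  rw [tvt_smul]
  have := tvt_sg_le t α
  have h2 := abs_nonneg (co x α)
  nlinarith

lemma bdd (x : F) : BddAbove (Set.range fun t : Test => tvt t (co x)) :=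
  ⟨∑ α ∈ sup x, |co x α|, by rintro _ ⟨t, rfl⟩; exact tvt_le_sum t x⟩

lemma tvt_le_NN (t : Test) (x : F) : tvt t (co x) ≤ NN x := le_ciSup (bdd x) t

lemma NN_le {x : F} {M : ℝ} (h : ∀ t, tvt t (co x) ≤ M) : NN x ≤ M := ciSup_le h

lemma NN_nonneg (x : F) : 0 ≤ NN x :=
  (tv_nonneg _ _ _ _).trans (tvt_le_NN ⟨(0, false, ∅), by simp⟩ x)

lemma abs_co_le (x : F) (α : Ix) : |co x α| ≤ NN x := by
  obtain ⟨k, b, i⟩ := α
  have hc : ((k, b, {i}) : ℕ × Bool × Finset ℕ).2.2.card ≤ mt k b := by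
    rw [Finset.card_singleton]; exact mt_pos k b
  have h := tvt_le_NN ⟨(k, b, {i}), hc⟩ x
  have h2 : tvt ⟨(k, b, {i}), hc⟩ (co x) = |co x (k, b, i)| :=
    tv_singleton k b i (co x)
  rwa [h2] at h

noncomputable instance : Norm F := ⟨NN⟩

lemma norm_def (x : F) : ‖x‖ = NN x := rfl

lemma coreF : NormedSpace.Core ℝ F where
  norm_nonneg := NN_nonneg
  norm_smul := fun c x => by
    rw [norm_def, norm_def, Real.norm_eq_abs]
    apply le_antisymm
    · apply NN_le
      intro t
      rw [tvt_smul]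
      have := tvt_le_NN t x
      gcongr
    · by_cases hc : c = 0
      · rw [hc, abs_zero, zero_mul]; exact NN_nonneg _
      · have hc' : 0 < |c| := abs_pos.2 hc
        rw [← le_div_iff₀' hc']
        apply NN_le
        intro t
        rw [le_div_iff₀' hc', ← tvt_smul]
        exact tvt_le_NN t _
  norm_triangle := fun x y => by
    apply NN_le
    intro t
    refine (tvt_add_le t x y).trans ?_
    have h1 := tvt_le_NN t x
    have h2 := tvt_le_NN t y
    exact add_le_add h1 h2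
  norm_eq_zero_iff := fun x => by
    constructor
    · intro h
      apply F_ext
      intro α
      have := abs_co_le x α
      rw [norm_def] at h
      rw [h] at this
      rw [co_zero]
      exact abs_nonpos_iff.1 this
    · rintro rfl
      apply le_antisymm
      · apply NN_le
        intro t
        rw [tvt_zero]
      · exact NN_nonneg _

noncomputable instance : NormedAddCommGroup F := NormedAddCommGroup.ofCore coreF
noncomputable instance : NormedSpace ℝ F := NormedSpace.ofCore coreF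

lemma norm_sg (α : Ix) : ‖sg α‖ = 1 := by
  apply le_antisymm
  · exact NN_le fun t => tvt_sg_le t α
  · have := abs_co_le (sg α) α
    rw [co_sg_self, abs_one] at this
    exact this

/-- the Banach space -/
abbrev X : Type := UniformSpace.Completion F

/-- the embedding of the finitely supported functions -/
noncomputable def em : F →ₗ[ℝ] X := (UniformSpace.Completion.toComplL (𝕜 := ℝ) (E := F)).toLinearMap

lemma em_norm (x : F) : ‖em x‖ = ‖x‖ := UniformSpace.Completion.norm_coe x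

lemma em_dense : DenseRange em := UniformSpace.Completion.denseRange_coe

/-- extension of bounded linear maps -/
noncomputable def ext {G : Type} [NormedAddCommGroup G] [NormedSpace ℝ G] [CompleteSpace G]
    (A : F →ₗ[ℝ] G) : X →L[ℝ] G := A.extendOfNorm em

section ext
variable {G : Type} [NormedAddCommGroup G] [NormedSpace ℝ G] [CompleteSpace G]

lemma ext_em {A : F →ₗ[ℝ] G} {C : ℝ} (h : ∀ x, ‖A x‖ ≤ C * ‖x‖) (x : F) : ext A (em x) = A x :=
  LinearMap.extendOfNorm_eq em_dense ⟨C, fun y => by rw [em_norm]; exact h y⟩ x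

lemma ext_norm {A : F →ₗ[ℝ] G} {C : ℝ} (hC : 0 ≤ C) (h : ∀ x, ‖A x‖ ≤ C * ‖x‖) : ‖ext A‖ ≤ C :=
  LinearMap.opNorm_extendOfNorm_le em_dense hC (fun y => by rw [em_norm]; exact h y)

end ext

/-- the unit vectors of `X` -/
noncomputable def g (α : Ix) : X := em (sg α)

lemma norm_g (α : Ix) : ‖g α‖ = 1 := by rw [g, em_norm, norm_sg]

/-- coordinate functional on `F` -/
noncomputable def coL (α : Ix) : F →ₗ[ℝ] ℝ :=
  { toFun := fun x => co x α, map_add' := fun _ _ => rfl, map_smul' := fun _ _ => rfl }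

lemma coL_bound (α : Ix) (x : F) : ‖coL α x‖ ≤ 1 * ‖x‖ := by
  rw [one_mul]; exact abs_co_le x α

/-- coordinate functionals on `X` -/
noncomputable def gs (α : Ix) : X →L[ℝ] ℝ := ext (coL α)

lemma gs_em (α : Ix) (x : F) : gs α (em x) = co x α := ext_em (coL_bound α) x

lemma gs_norm (α : Ix) : ‖gs α‖ ≤ 1 := ext_norm zero_le_one (coL_bound α)

lemma gs_g (α β : Ix) : gs α (g β) = if β = α then 1 else 0 := by rw [g, gs_em, co_sg]

lemma abs_gs_le (α : Ix) (x : X) : |gs α x| ≤ ‖x‖ := by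
  have := (gs α).le_opNorm x
  have h := gs_norm α
  have h0 := norm_nonneg x
  rw [Real.norm_eq_abs] at this
  nlinarith

lemma em_expand (x : F) : em x = ∑ α ∈ sup x, co x α • g α := by
  conv_lhs => rw [F_expand x]
  rw [map_sum]
  simp only [map_smul, g]

/-- monotonicity principle: a linear map on `F` controlled by tests -/
lemma norm_le_of_tests {x : F} {M : ℝ} (h : ∀ t, tvt t (co x) ≤ M) : ‖x‖ ≤ M := NN_le h

end Pool.Agent.H851R3.Fac
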