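import Pool.Agent.H851R3.Fac4

set_option autoImplicit false

namespace Pool.Agent.H851R3.Fac

open Filter Topology

/-- the tilt -/
noncomputable def th (k : ℕ) : ℝ := 1 / ((k : ℝ) + 1)

lemma th_pos (k : ℕ) : 0 < th k := by unfold th; positivity
lemma th_le_one (k : ℕ) : th k ≤ 1 := by
  unfold th
  rw [div_le_one (by positivity)]
  have : (0 : ℝ) ≤ k := by positivity
  linarith

/-- the tilted pair -/
noncomputable def ub (k i : ℕ) (b : Bool) : X :=
  if b then (-th k) • g (k, false, i) + g (k, true, i) else
    g (k, false, i) + th k • g (k, true, i)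

/-- the functionals of the tilted pair -/
noncomputable def uf (k i : ℕ) (b : Bool) : X →L[ℝ] ℝ :=
  if b then (1 + th k ^ 2)⁻¹ • ((-th k) • gs (k, false, i) + gs (k, true, i)) else
    (1 + th k ^ 2)⁻¹ • (gs (k, false, i) + th k • gs (k, true, i))

lemma uf_false (k i : ℕ) (x : X) :
    uf k i false x = (1 + th k ^ 2)⁻¹ * (gs (k, false, i) x + th k * gs (k, true, i) x) := rfl

lemma uf_true (k i : ℕ) (x : X) :
    uf k i true x = (1 + th k ^ 2)⁻¹ * ((-th k) * gs (k, false, i) x + gs (k, true, i) x) := rfl

/-- matrix entries in one block -/
noncomputable def te (T : X →L[ℝ] X) (k i : ℕ) (b1 b2 : Bool) : ℝ :=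
  gs (k, b1, i) (T (g (k, b2, i)))

lemma te_le (T : X →L[ℝ] X) (k i : ℕ) (b1 b2 : Bool) : |te T k i b1 b2| ≤ ‖T‖ := by
  refine (abs_gs_le _ _).trans ?_
  have := T.le_opNorm (g (k, b2, i))
  rwa [norm_g, mul_one] at this

lemma uf_T_false (T : X →L[ℝ] X) (k i : ℕ) :
    uf k i false (T (ub k i false)) = (1 + th k ^ 2)⁻¹ *
      (te T k i false false + th k * te T k i false true + th k * te T k i true false +
        th k ^ 2 * te T k i true true) := by
  rw [uf_false]
  simp only [ub, Bool.false_eq_true, if_false, map_add, map_smul, smul_eq_mul, te]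
  ring

lemma uf_T_true (T : X →L[ℝ] X) (k i : ℕ) :
    uf k i true (T (ub k i true)) = (1 + th k ^ 2)⁻¹ *
      (th k ^ 2 * te T k i false false - th k * te T k i false true - th k * te T k i true false +
        te T k i true true) := by
  rw [uf_true]
  simp only [ub, if_true, map_add, map_smul, smul_eq_mul, te]
  ring

lemma inv_le (k : ℕ) {δ x : ℝ} (h : δ ≤ |(1 + th k ^ 2)⁻¹ * x|) : δ ≤ |x| := by
  have h1 : 0 < 1 + th k ^ 2 := by positivity
  have h2 : (1 + th k ^ 2)⁻¹ ≤ 1 := by
    rw [inv_le_one₀ h1]
    have := sq_nonneg (th k)
    linarith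
  rw [abs_mul, abs_of_pos (by positivity)] at h
  have := abs_nonneg x
  nlinarith

lemma fp (T : X →L[ℝ] X) {δ : ℝ} (hδ : 0 < δ)
    (h : ∀ k i b, δ ≤ |uf k i b (T (ub k i b))|) :
    ∃ S R : X →L[ℝ] X, S.comp (T.comp R) = ContinuousLinearMap.id ℝ X := by
  have hT := norm_nonneg T
  obtain ⟨k0, hk0⟩ := exists_nat_gt (4 * ‖T‖ / δ)
  have hth : ∀ k, k0 ≤ k → 4 * th k * ‖T‖ ≤ δ := by
    intro k hk
    have h1 : (k0 : ℝ) ≤ k := by exact_mod_cast hk
    have h2 : 4 * ‖T‖ / δ ≤ (k : ℝ) + 1 := by linarith
    rw [div_le_iff₀ hδ] at h2
    have h3 : 4 * th k * ‖T‖ = (4 * ‖T‖) / ((k : ℝ) + 1) := by unfold th; ring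
    rw [h3, div_le_iff₀ (by positivity)]
    linarith
  -- some entry is large
  have hany : ∀ k i, ∃ p : Bool × Bool, δ / 4 ≤ |te T k i p.1 p.2| := by
    intro k i
    by_contra hcon
    push Not at hcon
    have h1 := h k i false
    rw [uf_T_false] at h1
    have h2 := inv_le k h1
    have t0 := th_pos k
    have t1 := th_le_one k
    have c1 := hcon (false, false)
    have c2 := hcon (false, true)
    have c3 := hcon (true, false)
    have c4 := hcon (true, true)
    simp only at c1 c2 c3 c4
    have b2 : |th k * te T k i false true| < δ / 4 := by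
      rw [abs_mul, abs_of_pos t0]
      have := abs_nonneg (te T k i false true)
      nlinarith
    have b3 : |th k * te T k i true false| < δ / 4 := by
      rw [abs_mul, abs_of_pos t0]
      have := abs_nonneg (te T k i true false)
      nlinarith
    have b4 : |th k ^ 2 * te T k i true true| < δ / 4 := by
      rw [abs_mul, abs_of_pos (by positivity)]
      have h5 := abs_nonneg (te T k i true true)
      have h6 : th k ^ 2 ≤ 1 := by nlinarith
      nlinarith
    have := abs_add_le (te T k i false false + th k * te T k i false true +
      th k * te T k i true false) (th k ^ 2 * te T k i true true)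
    have := abs_add_le (te T k i false false + th k * te T k i false true)
      (th k * te T k i true false)
    have := abs_add_le (te T k i false false) (th k * te T k i false true)
    linarith
  -- large diagonal entries in the tail
  have hdiag : ∀ k, k0 ≤ k → ∀ i b, δ / 4 ≤ |te T k i b b| := by
    intro k hk i b
    have t0 := th_pos k
    have t1 := th_le_one k
    have ht := hth k hk
    have b2 : |th k * te T k i false true| ≤ δ / 4 := by
      rw [abs_mul, abs_of_pos t0]
      have := te_le T k i false true
      nlinarith
    have b3 : |th k * te T k i true false| ≤ δ / 4 := by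
      rw [abs_mul, abs_of_pos t0]
      have := te_le T k i true false
      nlinarith
    have b4 : ∀ b, |th k ^ 2 * te T k i b b| ≤ δ / 4 := by
      intro b
      rw [abs_mul, abs_of_pos (by positivity)]
      have h5 := te_le T k i b b
      have h6 := abs_nonneg (te T k i b b)
      have h7 : th k ^ 2 ≤ th k := by nlinarith
      nlinarith
    cases b
    · have h1 := h k i false
      rw [uf_T_false] at h1
      have h2 := inv_le k h1
      have h4 := b4 true
      have := abs_add_le (te T k i false false + th k * te T k i false true +
        th k * te T k i true false) (th k ^ 2 * te T k i true true)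
      have := abs_add_le (te T k i false false + th k * te T k i false true)
        (th k * te T k i true false)
      have := abs_add_le (te T k i false false) (th k * te T k i false true)
      linarith
    · have h1 := h k i true
      rw [uf_T_true] at h1
      have h2 := inv_le k h1
      have h4 := b4 false
      have := abs_add_le (th k ^ 2 * te T k i false false - th k * te T k i false true -
        th k * te T k i true false) (te T k i true true)
      have := abs_sub (th k ^ 2 * te T k i false false - th k * te T k i false true)
        (th k * te T k i true false)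
      have := abs_sub (th k ^ 2 * te T k i false false) (th k * te T k i false true)
      linarith
  -- a good pattern for every block
  have hpat : ∀ k, ∃ p : Bool × Bool, ∃ᶠ i in atTop, δ / 4 ≤ |te T k i p.1 p.2| := by
    intro k
    by_contra hcon
    push Not at hcon
    have := Filter.eventually_all.2 hcon
    obtain ⟨i, hi⟩ := this.exists
    obtain ⟨p, hp⟩ := hany k i
    exact absurd (hi p) (not_lt.2 hp)
  choose p hp using hpat
  refine factor T (δ := δ / 4) (by positivity) (k0 := k0)
    (β1 := fun k b => if k0 ≤ k then b else (p k).1)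
    (β2 := fun k b => if k0 ≤ k then b else (p k).2) ?_ ?_ ?_
  · intro k hk b; simp only [hk, if_true]
  · intro k hk b; simp only [hk, if_true]
  · intro k b
    by_cases hk : k0 ≤ k
    · simp only [hk, if_true]
      exact Eventually.frequently (Eventually.of_forall fun i => hdiag k hk i b)
    · simp only [hk, if_false]
      exact hp k

end Pool.Agent.H851R3.Fac
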