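import Pool.Agent.H851R3.Fac5

set_option autoImplicit false

namespace Pool.Agent.H851R3.Fac

open Filter Topology

/-- a finite projection realised in `F` -/
noncomputable def cut (E : Finset Ix) (x : X) : F := ∑ α ∈ E, gs α x • sg α

lemma em_cut (E : Finset Ix) (x : X) : em (cut E x) = PE ↑E x := by
  rw [cut, map_sum, PE_finset]
  simp only [map_smul, g]

open Classical in
lemma co_cut (E : Finset Ix) (x : X) (α : Ix) :
    co (cut E x) α = (if α ∈ E then 1 else 0) * gs α x := by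
  rw [← gs_em, em_cut, gs_PE]
  simp only [Finset.mem_coe]

lemma cut_norm (E : Finset Ix) (x : X) : ‖cut E x‖ ≤ ‖x‖ := by
  rw [← em_norm, em_cut]; exact PE_le _ _

open Classical in
lemma PE_sdiff (E₀ E₁ : Finset Ix) (x : X) :
    PE ↑(E₀ \ E₁) x = PE ↑(E₀ ∪ E₁) x - PE ↑E₁ x := by
  have : PE ↑(E₀ \ E₁) = PE ↑(E₀ ∪ E₁) - PE ↑E₁ := by
    apply clm_ext
    intro α
    rw [ContinuousLinearMap.sub_apply, PE_g, PE_g, PE_g, ← sub_smul]
    congr 1
    simp only [Finset.coe_sdiff, Finset.coe_union, Set.mem_diff, Set.mem_union, Finset.mem_coe]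
    by_cases h1 : α ∈ E₁ <;> by_cases h0 : α ∈ E₀ <;> simp [h1, h0]
  rw [this, ContinuousLinearMap.sub_apply]

/-- spread-out sums -/
lemma spread (y : ℕ → X) (k : ℕ) {B : ℝ} (hB0 : 0 ≤ B) (hB : ∀ i, ‖y i‖ ≤ B)
    (hz : ∀ i j l, j ≤ k → gs (j, true, l) (y i) = 0)
    (hlim : ∀ α, Tendsto (fun i => gs α (y i)) atTop (𝓝 0)) {ε : ℝ} (hε : 0 < ε) (l : ℕ) :
    ∃ s : Finset ℕ, s.card = l ∧ ∃ w : F, ‖∑ i ∈ s, y i - em w‖ ≤ l * ε ∧
      (∀ j i, j ≤ k → co w (j, true, i) = 0) ∧ (∀ α, |co w α| ≤ B) ∧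
      ∀ (j : ℕ) (A : Finset ℕ), k < j → A.card ≤ mt j true →
        ∑ i ∈ A, |co w (j, true, i)| ^ q j ≤ l * B ^ q j := by
  classical
  induction l with
  | zero =>
    refine ⟨∅, rfl, 0, by simp, fun _ _ _ => rfl, fun α => by simpa using hB0, ?_⟩
    intro j A _ _
    simp only [co_zero, abs_zero, Real.zero_rpow (q_pos j).ne', Finset.sum_const_zero]
    simp
  | succ l ih =>
    obtain ⟨s, hs, w, hw1, hw2, hw3, hw4⟩ := ih
    -- choose the next index
    have hl : Tendsto (fun i => ∑ α ∈ sup w, |gs α (y i)|) atTop (𝓝 0) := by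
      have := tendsto_finsetSum (sup w) fun α _ =>
        (tendsto_zero_iff_abs_tendsto_zero _).1 (hlim α)
      simpa using this
    have hev : ∀ᶠ i in atTop, ∑ α ∈ sup w, |gs α (y i)| < ε / 2 :=
      hl.eventually (gt_mem_nhds (half_pos hε))
    have hns : ∀ᶠ i in atTop, i ∉ s := by
      refine (eventually_gt_atTop (s.sup id)).mono fun i hi hmem => ?_
      have := Finset.le_sup (f := id) hmem
      simp only [id] at this
      omega
    obtain ⟨i, hi1, hi2⟩ := (hev.and hns).exists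
    obtain ⟨E₀, hE₀⟩ := PE_approx (y i) (half_pos hε)
    set wn : F := cut (E₀ \ sup w) (y i) with hwn
    have hwn1 : ‖y i - em wn‖ ≤ ε := by
      rw [hwn, em_cut, PE_sdiff]
      have h1 := hE₀ ↑(E₀ ∪ sup w) (by simp)
      have h2 : ‖PE ↑(sup w) (y i)‖ ≤ ∑ α ∈ sup w, |gs α (y i)| := by
        rw [PE_finset]
        refine (norm_sum_le _ _).trans (Finset.sum_le_sum fun α _ => ?_)
        rw [norm_smul, norm_g, mul_one, Real.norm_eq_abs]
      calc ‖y i - (PE ↑(E₀ ∪ sup w) (y i) - PE ↑(sup w) (y i))‖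
          = ‖(y i - PE ↑(E₀ ∪ sup w) (y i)) + PE ↑(sup w) (y i)‖ := by congr 1; abel
        _ ≤ ‖y i - PE ↑(E₀ ∪ sup w) (y i)‖ + ‖PE ↑(sup w) (y i)‖ := norm_add_le _ _
        _ ≤ ε := by linarith
    have hwn2 : ‖wn‖ ≤ B := (cut_norm _ _).trans (hB i)
    have hdis : ∀ α, co w α = 0 ∨ co wn α = 0 := by
      intro α
      by_cases h : α ∈ sup w
      · right
        rw [hwn, co_cut, if_neg (by simp [h]), zero_mul]
      · left
        rw [mem_sup] at h
        push Not at h
        exact h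
    refine ⟨insert i s, by rw [Finset.card_insert_of_notMem hi2, hs], w + wn, ?_, ?_, ?_, ?_⟩
    · rw [Finset.sum_insert hi2, map_add]
      calc ‖y i + ∑ i ∈ s, y i - (em w + em wn)‖
          = ‖(y i - em wn) + (∑ i ∈ s, y i - em w)‖ := by congr 1; abel
        _ ≤ ‖y i - em wn‖ + ‖∑ i ∈ s, y i - em w‖ := norm_add_le _ _
        _ ≤ ((l + 1 : ℕ) : ℝ) * ε := by push_cast; linarith
    · intro j i' hj
      rw [co_add, hw2 j i' hj, zero_add, hwn, co_cut, hz i j i' hj, mul_zero]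
    · intro α
      rw [co_add]
      rcases hdis α with h | h
      · rw [h, zero_add]; exact (abs_co_le wn α).trans hwn2
      · rw [h, add_zero]; exact hw3 α
    · intro j A hj hA
      have h1 := hw4 j A hj hA
      have h2 : ∑ i' ∈ A, |co wn (j, true, i')| ^ q j ≤ B ^ q j := by
        rw [← tv_rpow]
        apply Real.rpow_le_rpow (tv_nonneg _ _ _ _) _ (q_pos j).le
        exact (tvt_le_NN ⟨(j, true, A), hA⟩ wn).trans hwn2
      calc ∑ i' ∈ A, |co (w + wn) (j, true, i')| ^ q j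
          ≤ ∑ i' ∈ A, (|co w (j, true, i')| ^ q j + |co wn (j, true, i')| ^ q j) := by
            apply Finset.sum_le_sum
            intro i' _
            rw [co_add]
            have n1 : 0 ≤ |co w (j, true, i')| ^ q j := Real.rpow_nonneg (abs_nonneg _) _
            have n2 : 0 ≤ |co wn (j, true, i')| ^ q j := Real.rpow_nonneg (abs_nonneg _) _
            rcases hdis (j, true, i') with h | h
            · rw [h] at n1 ⊢; rw [zero_add]; linarith
            · rw [h] at n2 ⊢; rw [add_zero]; linarith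
        _ = ∑ i' ∈ A, |co w (j, true, i')| ^ q j + ∑ i' ∈ A, |co wn (j, true, i')| ^ q j :=
            Finset.sum_add_distrib
        _ ≤ ((l + 1 : ℕ) : ℝ) * B ^ q j := by push_cast; linarith

lemma mt_root1 (k : ℕ) : ((mt k true : ℕ) : ℝ) ^ (1 / q k) = (Mm k : ℝ) ^ (k + 2) := by
  have h : ((mt k true : ℕ) : ℝ) = ((Mm k : ℝ) ^ (k + 2)) ^ q k := by
    have : q k = ((k + 1 : ℕ) : ℝ) := by unfold q; push_cast; ring
    rw [this, Real.rpow_natCast, ← pow_mul]
    simp only [mt, if_true]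
    push_cast
    rw [mul_comm]
  rw [h, rr (q_pos k) (by positivity)]

lemma mt_root2 (k : ℕ) : ((mt k true : ℕ) : ℝ) ^ (1 / q (k + 1)) = (Mm k : ℝ) ^ (k + 1) := by
  have h : ((mt k true : ℕ) : ℝ) = ((Mm k : ℝ) ^ (k + 1)) ^ q (k + 1) := by
    have : q (k + 1) = ((k + 2 : ℕ) : ℝ) := by unfold q; push_cast; ring
    rw [this, Real.rpow_natCast, ← pow_mul]
    simp only [mt, if_true]
    push_cast
    rfl
  rw [h, rr (q_pos (k + 1)) (by positivity)]

/-- the bad multipliers -/
noncomputable def cb (k : ℕ) (α : Ix) : ℝ :=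
  if α.1 ≤ k then (if α.2.1 then 0 else (Cc α.1 : ℝ)) else 1

lemma cb_le (k : ℕ) (α : Ix) : |cb k α| ≤ Cc k := by
  have h1 : (1 : ℝ) ≤ Cc k := by exact_mod_cast Cc_pos k
  unfold cb
  split_ifs with h h2
  · rw [abs_zero]; positivity
  · rw [abs_of_nonneg (by positivity)]
    have : Cc α.1 ≤ Cc k := by unfold Cc; gcongr
    exact_mod_cast this
  · rw [abs_one]; exact h1

/-- the bad operators -/
noncomputable def Tb (k : ℕ) : X →L[ℝ] X := Dm (cb k)

lemma Tb_norm (k : ℕ) : ‖Tb k‖ ≤ Cc k := Dm_norm (by positivity) (cb_le k)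

lemma te_Tb (k j i : ℕ) (b1 b2 : Bool) :
    te (Tb k) j i b1 b2 = if b1 = b2 then cb k (j, b2, i) else 0 := by
  rw [te, Tb, Dm_g (by positivity) (cb_le k), map_smul, gs_g, smul_eq_mul]
  cases b1 <;> cases b2 <;> simp

lemma Tb_diag (k j i : ℕ) (b : Bool) : 1 ≤ |uf j i b (Tb k (ub j i b))| := by
  have t0 := th_pos j
  have t1 := th_le_one j
  have hC : th j ^ 2 * (Cc j : ℝ) = 1 + th j ^ 2 := by
    unfold th Cc; push_cast; field_simp
  have hC0 : (0 : ℝ) < Cc j := by exact_mod_cast Cc_pos j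
  have hp : 0 < 1 + th j ^ 2 := by positivity
  cases b
  · rw [uf_T_false]
    simp only [te_Tb]
    by_cases hj : j ≤ k
    · simp only [cb, hj, if_true, Bool.false_eq_true, if_false, reduceCtorEq, mul_zero, add_zero]
      rw [abs_of_pos (by positivity), inv_mul_eq_div, le_div_iff₀ hp, one_mul, ← hC]
      have h2 : th j ^ 2 ≤ 1 := by nlinarith
      nlinarith
    · simp only [cb, hj, if_false, if_true, Bool.false_eq_true, mul_zero, add_zero, mul_one,
        reduceCtorEq]
      rw [inv_mul_cancel₀ hp.ne', abs_one]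
  · rw [uf_T_true]
    simp only [te_Tb]
    by_cases hj : j ≤ k
    · simp only [cb, hj, if_true, Bool.false_eq_true, if_false, mul_zero, add_zero, sub_zero,
        reduceCtorEq]
      rw [hC, inv_mul_cancel₀ hp.ne', abs_one]
    · simp only [cb, hj, if_false, if_true, Bool.false_eq_true, mul_zero, sub_zero, mul_one,
        reduceCtorEq]
      rw [add_comm (th j ^ 2), inv_mul_cancel₀ hp.ne', abs_one]

/-- the bad operators are bad -/
lemma bad (k : ℕ) {K : ℝ} {S R : X →L[ℝ] X}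
    (h : S.comp ((Tb k).comp R) = ContinuousLinearMap.id ℝ X) (hK : ‖R‖ * ‖S‖ ≤ K) :
    (k : ℝ) + 1 ≤ K := by
  have hC0 : (0 : ℝ) < Cc k := by exact_mod_cast Cc_pos k
  have hM0 : (0 : ℝ) < Mm k := by exact_mod_cast Mm_pos k
  have hN1 : (1 : ℝ) ≤ mt k true := by exact_mod_cast mt_pos k true
  have hR0 := norm_nonneg R
  have hS0 := norm_nonneg S
  set y : ℕ → X := fun i => Tb k (R (g (k, true, i))) with hy
  set B : ℝ := Cc k * ‖R‖ with hB
  have hB0 : 0 ≤ B := by positivity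
  have hyB : ∀ i, ‖y i‖ ≤ B := by
    intro i
    have h1 := (Tb k).le_opNorm (R (g (k, true, i)))
    have h2 := R.le_opNorm (g (k, true, i))
    rw [norm_g, mul_one] at h2
    have h3 := Tb_norm k
    have h4 := norm_nonneg (R (g (k, true, i)))
    calc ‖y i‖ ≤ ‖Tb k‖ * ‖R (g (k, true, i))‖ := h1
      _ ≤ Cc k * ‖R‖ := by gcongr
  have hz : ∀ i j l, j ≤ k → gs (j, true, l) (y i) = 0 := by
    intro i j l hj
    rw [hy]
    simp only
    rw [Tb, gs_Dm (by positivity) (cb_le k)]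
    simp [cb, hj]
  have hlim : ∀ α, Tendsto (fun i => gs α (y i)) atTop (𝓝 0) := by
    intro α
    exact dual_tendsto ((gs α).comp ((Tb k).comp R)) k true
  -- the estimate for every ε
  have main : ∀ ε : ℝ, 0 < ε →
      (Mm k : ℝ) ^ (k + 2) ≤ ‖S‖ * (mt k true * ε) + (Mm k : ℝ) ^ (k + 1) * Cc k * (‖R‖ * ‖S‖) := by
    intro ε hε
    obtain ⟨s, hs, w, hw1, hw2, hw3, hw4⟩ := spread y k hB0 hyB hz hlim hε (mt k true)
    have hwn : ‖w‖ ≤ (Mm k : ℝ) ^ (k + 1) * B := by
      have hM1 : (1 : ℝ) ≤ (Mm k : ℝ) ^ (k + 1) := by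
        have : (1 : ℝ) ≤ Mm k := by exact_mod_cast Mm_pos k
        exact one_le_pow₀ this
      apply norm_le_of_tests
      rintro ⟨⟨j, b, A⟩, hA⟩
      show tv j b A (co w) ≤ _
      cases b
      · have := tv_le_card (k := j) (b := false) (A := A) (x := co w) hB0
          (fun i _ => hw3 _) 1 le_rfl (by simpa [mt] using hA)
        refine this.trans ?_
        rw [Nat.cast_one]
        gcongr
      · by_cases hj : j ≤ k
        · have := tv_le_card (k := j) (b := true) (A := A) (x := co w) (M := 0) le_rfl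
            (fun i _ => by rw [hw2 j i hj, abs_zero]) (mt j true) (mt_pos j true) hA
          refine this.trans ?_
          rw [mul_zero]; positivity
        · push Not at hj
          have := tv_le_of hB0 (by positivity) (hw4 j A hj hA)
          refine this.trans ?_
          have h1 : ((mt k true : ℕ) : ℝ) ^ (1 / q j) ≤ ((mt k true : ℕ) : ℝ) ^ (1 / q (k + 1)) := by
            apply Real.rpow_le_rpow_of_exponent_le hN1
            apply one_div_le_one_div_of_le (q_pos _)
            unfold q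
            have : ((k + 1 : ℕ) : ℝ) ≤ j := by exact_mod_cast hj
            linarith
          rw [mt_root2] at h1
          gcongr
    have hlow : (Mm k : ℝ) ^ (k + 2) ≤ ‖∑ i ∈ s, g (k, true, i)‖ := by
      have e : ∑ i ∈ s, g (k, true, i) = em (∑ i ∈ s, sg (k, true, i)) := by
        rw [map_sum]; rfl
      rw [e, em_norm, ← mt_root1]
      have hc : s.card ≤ mt k true := hs.le
      refine le_trans ?_ (tvt_le_NN ⟨(k, true, s), hc⟩ (∑ i ∈ s, sg (k, true, i)))
      show _ ≤ tv k true s _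
      unfold tv
      have : ∑ i ∈ s, |co (∑ i ∈ s, sg (k, true, i)) (k, true, i)| ^ q k = (mt k true : ℝ) := by
        rw [← hs]
        have : ∀ i ∈ s, |co (∑ i ∈ s, sg (k, true, i)) (k, true, i)| ^ q k = 1 := by
          intro i hi
          rw [co_sum]
          simp only [co_sg, Prod.mk.injEq, true_and]
          rw [Finset.sum_ite_eq', if_pos hi, abs_one, Real.one_rpow]
        rw [Finset.sum_congr rfl this, Finset.sum_const, nsmul_eq_mul, mul_one]
      rw [this]
    have hid : ∑ i ∈ s, g (k, true, i) = S (∑ i ∈ s, y i) := by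
      rw [map_sum]
      apply Finset.sum_congr rfl
      intro i _
      have := DFunLike.congr_fun h (g (k, true, i))
      exact this.symm
    rw [hid] at hlow
    refine hlow.trans ?_
    have hup : ‖∑ i ∈ s, y i‖ ≤ mt k true * ε + (Mm k : ℝ) ^ (k + 1) * B := by
      calc ‖∑ i ∈ s, y i‖ = ‖(∑ i ∈ s, y i - em w) + em w‖ := by congr 1; abel
        _ ≤ ‖∑ i ∈ s, y i - em w‖ + ‖em w‖ := norm_add_le _ _
        _ ≤ _ := by rw [em_norm]; linarith
    calc ‖S (∑ i ∈ s, y i)‖ ≤ ‖S‖ * ‖∑ i ∈ s, y i‖ := S.le_opNorm _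
      _ ≤ ‖S‖ * (mt k true * ε + (Mm k : ℝ) ^ (k + 1) * B) := by gcongr
      _ = ‖S‖ * (mt k true * ε) + (Mm k : ℝ) ^ (k + 1) * Cc k * (‖R‖ * ‖S‖) := by
          rw [hB]; ring
  have hle : (Mm k : ℝ) ^ (k + 2) ≤ (Mm k : ℝ) ^ (k + 1) * Cc k * (‖R‖ * ‖S‖) := by
    apply le_of_forall_pos_le_add
    intro η hη
    have hden : 0 < ‖S‖ * mt k true + 1 := by positivity
    have := main (η / (‖S‖ * mt k true + 1)) (by positivity)
    have h2 : ‖S‖ * (mt k true * (η / (‖S‖ * mt k true + 1))) ≤ η := by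
      have : ‖S‖ * (mt k true * (η / (‖S‖ * mt k true + 1))) =
          (‖S‖ * mt k true) / (‖S‖ * mt k true + 1) * η := by ring
      rw [this]
      have h3 : (‖S‖ * mt k true) / (‖S‖ * mt k true + 1) ≤ 1 := by
        rw [div_le_one hden]; linarith
      nlinarith
    linarith
  have hpow : 0 < (Mm k : ℝ) ^ (k + 1) := by positivity
  have h1 : (Mm k : ℝ) ≤ Cc k * K := by
    have e : (Mm k : ℝ) ^ (k + 2) = (Mm k : ℝ) ^ (k + 1) * Mm k := by ring
    rw [e, mul_assoc] at hle
    have h2 := le_of_mul_le_mul_left hle hpow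
    refine h2.trans ?_
    gcongr
  have h2 : (Mm k : ℝ) = ((k : ℝ) + 1) * Cc k := by unfold Mm; push_cast; ring
  rw [h2, mul_comm] at h1
  exact le_of_mul_le_mul_left h1 hC0

end Pool.Agent.H851R3.Fac
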