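import Pool.Agent.H851R3.Sum

set_option autoImplicit false

namespace Pool.Agent.H851R3

open Filter Topology ENNReal

/-- the indicator of the levels beyond `p` -/
noncomputable def chi (p : ℕ) : ℕ → ℝ := fun i => if p ≤ i then 1 else 0

lemma tailMem (p : ℕ) (x : H) : Memℓp (fun n => M (chi p) n 0 (x n)) 2 := by
  apply memℓp_gen
  have hs := (lp.memℓp x).summable two_pos'
  simp only [two_toReal, Real.rpow_two] at hs ⊢
  refine Summable.of_nonneg_of_le (fun i => by positivity) (fun i => ?_) (hs.mul_left 4)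
  have h := tail_bound p i 0 (x i)
  have h0 := nr_nonneg i 0 (M (chi p) i 0 (x i))
  have : ‖M (chi p) i 0 (x i)‖ ^ 2 ≤ (2 * ‖x i‖) ^ 2 := by
    gcongr
    exact h
  calc ‖M (chi p) i 0 (x i)‖ ^ 2 ≤ (2 * ‖x i‖) ^ 2 := this
    _ = 4 * ‖x i‖ ^ 2 := by ring

/-- the tail operator -/
noncomputable def J (p : ℕ) : H →L[ℝ] H :=
  LinearMap.mkContinuous
    { toFun := fun x => ⟨fun n => M (chi p) n 0 (x n), tailMem p x⟩
      map_add' := fun x y => by
        ext n
        show M (chi p) n 0 ((x + y) n) = M (chi p) n 0 (x n) + M (chi p) n 0 (y n)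
        rw [← map_add]; rfl
      map_smul' := fun c x => by
        ext n
        show M (chi p) n 0 ((c • x) n) = c • M (chi p) n 0 (x n)
        rw [← map_smul]; rfl } 2
    (fun x => by
      have h1 : ‖(⟨fun n => M (chi p) n 0 (x n), tailMem p x⟩ : H)‖ ≤ ‖(2 : ℝ) • x‖ := by
        apply lp.norm_mono (by norm_num)
        intro i
        have h := tail_bound p i 0 (x i)
        calc ‖M (chi p) i 0 (x i)‖ ≤ 2 * ‖x i‖ := h
          _ = ‖(2 : ℝ) • x i‖ := by rw [norm_smul]; norm_num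
          _ = ‖((2 : ℝ) • x) i‖ := rfl
      rw [norm_smul] at h1
      simpa using h1)

lemma J_norm (p : ℕ) : ‖J p‖ ≤ 2 := LinearMap.mkContinuous_norm_le _ (by norm_num) _

lemma comp_J (m p : ℕ) : comp m (J p) = M (chi p) m 0 := by
  ext f
  show M (chi p) m 0 ((lp.single 2 m f : H) m) = M (chi p) m 0 f
  rw [lp.single_apply_self]

lemma lamm_J (m i p : ℕ) (hi : i < m) : lamm m i (J p) = chi p i := by
  rw [lamm_apply, comp_J, coef_M (chi p) m i hi]

/-- the level functionals on the operator space -/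
noncomputable def lam (i : ℕ) : (H →L[ℝ] H) →L[ℝ] ℝ :=
  Classical.choose (ultralim (fun m => lamm m i) 1 (fun m => lamm_norm m i) (hyperfilter ℕ))

lemma lam_norm (i : ℕ) : ‖lam i‖ ≤ 1 :=
  (Classical.choose_spec
    (ultralim (fun m => lamm m i) 1 (fun m => lamm_norm m i) (hyperfilter ℕ))).1

lemma lam_tendsto (i : ℕ) (T : H →L[ℝ] H) :
    Tendsto (fun m => lamm m i T) (hyperfilter ℕ : Ultrafilter ℕ) (𝓝 (lam i T)) :=
  (Classical.choose_spec
    (ultralim (fun m => lamm m i) 1 (fun m => lamm_norm m i) (hyperfilter ℕ))).2 T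

/-- the limit functional -/
noncomputable def lamInf : (H →L[ℝ] H) →L[ℝ] ℝ :=
  Classical.choose (ultralim (fun j => lam (2 * j + 1)) 1 (fun _ => lam_norm _) (hyperfilter ℕ))

lemma lamInf_tendsto (T : H →L[ℝ] H) :
    Tendsto (fun j => lam (2 * j + 1) T) (hyperfilter ℕ : Ultrafilter ℕ) (𝓝 (lamInf T)) :=
  (Classical.choose_spec
    (ultralim (fun j => lam (2 * j + 1)) 1 (fun _ => lam_norm _) (hyperfilter ℕ))).2 T

lemma ev_ge (k : ℕ) : ∀ᶠ j in ((hyperfilter ℕ : Ultrafilter ℕ) : Filter ℕ), k ≤ j :=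
  (eventually_ge_atTop k).filter_mono Nat.hyperfilter_le_atTop

lemma lam_conv (T : H →L[ℝ] H) :
    Tendsto (fun j => lam (2 * j) T) atTop (𝓝 (lamInf T)) := by
  by_contra hcon
  rw [Metric.tendsto_atTop] at hcon
  push Not at hcon
  obtain ⟨γ, hγ, h⟩ := hcon
  have hA : ∀ k, ∃ i, k ≤ i ∧ i % 2 = 0 ∧ γ ≤ |lam i T - lamInf T| := by
    intro k
    obtain ⟨n, hn, hn2⟩ := h k
    exact ⟨2 * n, by omega, by omega, hn2⟩
  have hB : ∀ k, ∃ i, k ≤ i ∧ i % 2 = 1 ∧ |lam i T - lamInf T| < γ / 4 := by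
    intro k
    have h1 := (lamInf_tendsto T).eventually (Metric.ball_mem_nhds _ (show 0 < γ / 4 by positivity))
    obtain ⟨j, hj1, hj2⟩ := (h1.and (ev_ge k)).exists
    exact ⟨2 * j + 1, by omega, by omega, hj1⟩
  have chain := grow_chain (U := ((hyperfilter ℕ : Ultrafilter ℕ) : Filter ℕ))
    (fun m i => lamm m i T) (fun i => lam i T) (fun i => lam_tendsto i T) (lamInf T) γ hγ hA hB
  set η := (γ / 2) ^ 4 / 128 with hη
  have hη0 : 0 < η := by positivity
  obtain ⟨N, hN⟩ := exists_nat_gt (‖T‖ ^ 4 / η)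
  obtain ⟨K, -, hK⟩ := chain N 0
  obtain ⟨m, hm1, hm2⟩ := (hK.and (ev_ge K)).exists
  obtain ⟨g', hg', hg'4, hQ⟩ := hm1 (m - K) 0 le_rfl (Q_zero _ _ _)
  rw [show m - K + (K - 0) = m by omega] at hQ
  obtain ⟨f, f0, f1, f2⟩ := hQ
  rw [zero_smul, zero_add] at f1 f2
  have h3 := M_coef_bound m (comp m T) ‖T‖ (comp_bound m T) f f0
  have h4 : g' ≤ ‖T‖ := by
    refine f2.trans (h3.trans ?_)
    have := norm_nonneg T
    nlinarith
  have h5 : g' ^ 4 ≤ ‖T‖ ^ 4 := by gcongr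
  rw [div_lt_iff₀ hη0] at hN
  simp only [ne_eq, OfNat.ofNat_ne_zero, not_false_eq_true, zero_pow, zero_add] at hg'4
  linarith

lemma lam_J (i p : ℕ) : lam i (J p) = chi p i := by
  have h1 := lam_tendsto i (J p)
  have h2 : Tendsto (fun m => lamm m i (J p)) (hyperfilter ℕ : Ultrafilter ℕ) (𝓝 (chi p i)) := by
    apply tendsto_nhds_of_eventually_eq
    filter_upwards [ev_ge (i + 1)] with m hm
    exact lamm_J m i p (by omega)
  exact tendsto_nhds_unique h1 h2

lemma lamInf_J (p : ℕ) : lamInf (J p) = 1 := by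
  have h1 := lamInf_tendsto (J p)
  have h2 : Tendsto (fun j => lam (2 * j + 1) (J p)) (hyperfilter ℕ : Ultrafilter ℕ) (𝓝 1) := by
    apply tendsto_nhds_of_eventually_eq
    filter_upwards [ev_ge p] with j hj
    rw [lam_J, chi, if_pos (by omega)]
  exact tendsto_nhds_unique h1 h2

/-- limits of evaluations along ultrafilters -/
lemma ultraev {B : Type} [NormedAddCommGroup B] [NormedSpace ℝ B] (J : ℕ → B) (C : ℝ) (hC : 0 ≤ C)
    (hJ : ∀ p, ‖J p‖ ≤ C) (U : Ultrafilter ℕ) :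
    ∃ φ : (B →L[ℝ] ℝ) →L[ℝ] ℝ, ∀ ψ : B →L[ℝ] ℝ, Tendsto (fun p => ψ (J p)) U (𝓝 (φ ψ)) := by
  obtain ⟨φ, -, hφ⟩ := ultralim (E := B →L[ℝ] ℝ)
    (fun p => ContinuousLinearMap.apply ℝ ℝ (J p)) C (fun p => by
      apply ContinuousLinearMap.opNorm_le_bound _ hC
      intro ψ
      rw [ContinuousLinearMap.apply_apply]
      refine (ψ.le_opNorm (J p)).trans ?_
      have h1 := hJ p
      have h2 := norm_nonneg ψ
      nlinarith) U
  exact ⟨φ, fun ψ => hφ ψ⟩

/-- the operator space of the uniformly convex space `H` carries a weak-star null sequence of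
functionals which is not weakly null -/
theorem not_grothendieck :
    ∃ f : ℕ → ((H →L[ℝ] H) →L[ℝ] ℝ),
      (∀ T : H →L[ℝ] H, Tendsto (fun n => f n T) atTop (𝓝 0)) ∧
      ∃ φ : ((H →L[ℝ] H) →L[ℝ] ℝ) →L[ℝ] ℝ, ∀ n, φ (f n) = -1 := by
  refine ⟨fun n => lam (2 * n) - lamInf, fun T => ?_, ?_⟩
  · have := (lam_conv T).sub_const (lamInf T)
    simpa using this
  · obtain ⟨φ, hφ⟩ := ultraev J 2 (by norm_num) J_norm (hyperfilter ℕ)
    refine ⟨φ, fun n => ?_⟩
    have h1 : φ (lam (2 * n)) = 0 := by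
      apply tendsto_nhds_unique (hφ (lam (2 * n)))
      apply tendsto_nhds_of_eventually_eq
      filter_upwards [ev_ge (2 * n + 1)] with p hp
      rw [lam_J, chi, if_neg (by omega)]
    have h2 : φ lamInf = 1 := by
      apply tendsto_nhds_unique (hφ lamInf)
      apply tendsto_nhds_of_eventually_eq
      filter_upwards with p
      rw [lamInf_J]
    rw [map_sub, h1, h2]; norm_num

end Pool.Agent.H851R3
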