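import Pool.Agent.H851R3.Tree

set_option autoImplicit false

namespace Pool.Agent.H851R3

open Filter Topology

/-- martingale multiplier with weights `μ`, killing the constants; levels are numbered from `k` -/
noncomputable def M (μ : ℕ → ℝ) : (n : ℕ) → (k : ℕ) → Y n →ₗ[ℝ] Y n
  | 0, _ => 0
  | n + 1, k =>
    { toFun := fun f =>
        mk (M μ n (k + 1) (lf f) + (μ k * ((mean n (lf f) - mean n (rt f)) / 2)) • one n)
          (M μ n (k + 1) (rt f) - (μ k * ((mean n (lf f) - mean n (rt f)) / 2)) • one n)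
      map_add' := fun f g => by
        apply Y_ext
        · simp only [lf_mk, lf_add, rt_add, map_add]; module
        · simp only [rt_mk, lf_add, rt_add, map_add]; module
      map_smul' := fun c f => by
        apply Y_ext
        · simp only [lf_mk, lf_smul, rt_smul, map_smul, RingHom.id_apply, smul_eq_mul]; module
        · simp only [rt_mk, lf_smul, rt_smul, map_smul, RingHom.id_apply, smul_eq_mul]; module }

lemma M_zero (μ : ℕ → ℝ) (k : ℕ) (f : Y 0) : M μ 0 k f = 0 := rfl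

lemma lf_M (μ : ℕ → ℝ) (n k : ℕ) (f : Y (n + 1)) : lf (M μ (n + 1) k f) =
    M μ n (k + 1) (lf f) + (μ k * ((mean n (lf f) - mean n (rt f)) / 2)) • one n := rfl

lemma rt_M (μ : ℕ → ℝ) (n k : ℕ) (f : Y (n + 1)) : rt (M μ (n + 1) k f) =
    M μ n (k + 1) (rt f) - (μ k * ((mean n (lf f) - mean n (rt f)) / 2)) • one n := rfl

lemma M_one (μ : ℕ → ℝ) : ∀ n k : ℕ, M μ n k (one n) = 0
  | 0, _ => rfl
  | n + 1, k => by
    apply Y_ext
    · rw [lf_M, lf_one, rt_one, M_one μ n]; simp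
    · rw [rt_M, lf_one, rt_one, M_one μ n]; simp

/-- the basic extremal relation -/
def R (μ : ℕ → ℝ) (n k : ℕ) (x y ν v : ℝ) : Prop :=
  ∃ f : Y n, mean n f = 0 ∧ nr n k (x • one n + f) ≤ ν ∧ v ≤ nr n k (y • one n + M μ n k f)

lemma R_triv (μ : ℕ → ℝ) (n k : ℕ) {x y ν v : ℝ} (h1 : |x| ≤ ν) (h2 : v ≤ |y|) :
    R μ n k x y ν v := by
  refine ⟨0, by simp, ?_, ?_⟩
  · rw [add_zero, nr_const]; exact h1
  · rw [map_zero, add_zero, nr_const]; exact h2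

lemma R_neg {μ : ℕ → ℝ} {n k : ℕ} {x y ν v : ℝ} (h : R μ n k x y ν v) :
    R μ n k (-x) (-y) ν v := by
  obtain ⟨f, h0, h1, h2⟩ := h
  refine ⟨-f, by simp [h0], ?_, ?_⟩
  · rw [show (-x) • one n + -f = -(x • one n + f) by module, nr_neg]; exact h1
  · rw [show (-y) • one n + M μ n k (-f) = -(y • one n + M μ n k f) by rw [map_neg]; module,
      nr_neg]; exact h2

lemma R_step {μ : ℕ → ℝ} {n k : ℕ} {x y d ν1 ν2 v1 v2 : ℝ} (hv1 : 0 ≤ v1) (hv2 : 0 ≤ v2)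
    (h1 : R μ n (k + 1) (x + d) (y + μ k * d) ν1 v1)
    (h2 : R μ n (k + 1) (x - d) (y - μ k * d) ν2 v2) :
    R μ (n + 1) k x y (qq k ν1 ν2) (qq k v1 v2) := by
  obtain ⟨f, f0, f1, f2⟩ := h1
  obtain ⟨g, g0, g1, g2⟩ := h2
  refine ⟨mk (d • one n + f) ((-d) • one n + g), ?_, ?_, ?_⟩
  · simp [f0, g0]
  · rw [nr_succ]
    apply qq_mono k (nr_nonneg _ _ _) (nr_nonneg _ _ _)
    · rw [lf_add, lf_smul, lf_one, lf_mk,
        show x • one n + (d • one n + f) = (x + d) • one n + f by module]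
      exact f1
    · rw [rt_add, rt_smul, rt_one, rt_mk,
        show x • one n + (-d • one n + g) = (x - d) • one n + g by module]
      exact g1
  · rw [nr_succ]
    apply qq_mono k hv1 hv2
    · rw [lf_add, lf_M, lf_smul, lf_one, lf_mk, rt_mk]
      have e : (mean n (d • one n + f) - mean n ((-d) • one n + g)) / 2 = d := by
        simp [f0, g0]
      rw [e, map_add, map_smul, M_one,
        show y • one n + (d • (0 : Y n) + M μ n (k + 1) f + (μ k * d) • one n) =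
          (y + μ k * d) • one n + M μ n (k + 1) f by module]
      exact f2
    · rw [rt_add, rt_M, rt_smul, rt_one, lf_mk, rt_mk]
      have e : (mean n (d • one n + f) - mean n ((-d) • one n + g)) / 2 = d := by
        simp [f0, g0]
      rw [e, map_add, map_smul, M_one,
        show y • one n + ((-d) • (0 : Y n) + M μ n (k + 1) g - (μ k * d) • one n) =
          (y - μ k * d) • one n + M μ n (k + 1) g by module]
      exact g2

lemma R_mono {μ : ℕ → ℝ} {n k : ℕ} {x y ν v ν' v' : ℝ} (h : R μ n k x y ν v) (h1 : ν ≤ ν')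
    (h2 : v' ≤ v) : R μ n k x y ν' v' := by
  obtain ⟨f, f0, f1, f2⟩ := h
  exact ⟨f, f0, f1.trans h1, h2.trans f2⟩

lemma R_skip {μ : ℕ → ℝ} {n k : ℕ} {x y ν v : ℝ} (hν : 0 ≤ ν) (hv : 0 ≤ v)
    (h : R μ n (k + 1) x y ν v) : R μ (n + 1) k x y ν v := by
  have := R_step (μ := μ) (n := n) (k := k) (x := x) (y := y) (d := 0) hv hv
    (by simpa using h) (by simpa using h)
  rwa [qq_diag k hν, qq_diag k hv] at this

lemma R_skips {μ : ℕ → ℝ} {n k : ℕ} {x y ν v : ℝ} (hν : 0 ≤ ν) (hv : 0 ≤ v) :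
    ∀ j : ℕ, R μ n (k + j) x y ν v → R μ (n + j) k x y ν v
  | 0, h => by simpa using h
  | j + 1, h => by
    have h' : R μ n ((k + 1) + j) x y ν v := by
      rwa [show k + 1 + j = k + (j + 1) by ring]
    exact R_skip hν hv (R_skips hν hv j h')

/-- the extremal relation at the origin -/
def Q (μ : ℕ → ℝ) (n k : ℕ) (g : ℝ) : Prop := R μ n k 0 0 1 g

lemma Q_zero (μ : ℕ → ℝ) (n k : ℕ) : Q μ n k 0 := R_triv μ n k (by simp) (by simp)

lemma R_scale {μ : ℕ → ℝ} {n k : ℕ} {g s : ℝ} (y : ℝ) (hs : 0 ≤ s) (h : Q μ n k g) :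
    R μ n k 0 y s (s * g) := by
  obtain ⟨f, f0, f1, f2⟩ := h
  rw [zero_smul, zero_add] at f1 f2
  have key : s * g ≤ nr n k (y • one n + M μ n k (s • f)) ∨
      s * g ≤ nr n k (y • one n + M μ n k ((-s) • f)) := by
    by_contra hcon
    push Not at hcon
    obtain ⟨a1, a2⟩ := hcon
    have e1 : nr n k ((2 * s) • M μ n k f) ≤ nr n k (y • one n + M μ n k (s • f)) +
        nr n k (y • one n + M μ n k ((-s) • f)) := by
      have e2 : (2 * s) • M μ n k f = (y • one n + M μ n k (s • f)) +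
          -(y • one n + M μ n k ((-s) • f)) := by
        rw [map_smul, map_smul]; module
      rw [e2]
      refine le_trans (nr_add_le _ _ _ _) ?_
      rw [nr_neg]
    rw [nr_smul, abs_of_nonneg (by positivity)] at e1
    nlinarith
  rcases key with h1 | h1
  · refine ⟨s • f, by simp [f0], ?_, h1⟩
    rw [zero_smul, zero_add, nr_smul, abs_of_nonneg hs]
    nlinarith
  · refine ⟨(-s) • f, by simp [f0], ?_, h1⟩
    rw [zero_smul, zero_add, nr_smul, abs_neg, abs_of_nonneg hs]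
    nlinarith

lemma R_A {μ : ℕ → ℝ} {n k : ℕ} {g s : ℝ} (hk : k % 2 = 0) (y : ℝ) (hs : 0 ≤ s) (hg : 0 ≤ g)
    (h : Q μ n (k + 1) g) : R μ (n + 1) k 0 y s (√(y ^ 2 / 2 + s ^ 2 * g ^ 2)) := by
  have h2 : 0 ≤ √2 * s := by positivity
  have hr := R_scale (y := y) h2 h
  have ht : R μ n (k + 1) 0 y 0 |y| := R_triv μ n (k + 1) (by simp) le_rfl
  have := R_step (μ := μ) (n := n) (k := k) (x := 0) (y := y) (d := 0) (abs_nonneg y)
    (mul_nonneg h2 hg) (by simpa using ht) (by simpa using hr)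
  have s2 : √2 ^ 2 = 2 := Real.sq_sqrt (by norm_num)
  have e1 : qq k 0 (√2 * s) = s := by
    simp only [qq, hk, if_true, q2]
    rw [show (0 ^ 2 + (√2 * s) ^ 2) / 2 = s ^ 2 by rw [mul_pow, s2]; ring, Real.sqrt_sq hs]
  have e2 : qq k |y| (√2 * s * g) = √(y ^ 2 / 2 + s ^ 2 * g ^ 2) := by
    simp only [qq, hk, if_true, q2]
    congr 1
    rw [sq_abs, mul_pow, mul_pow, s2]; ring
  rwa [e1, e2] at this

/-- scalar optimisation -/
lemma scal {g γ : ℝ} (hγ : 0 ≤ γ) (Γ : ℝ) (hΓ : γ ^ 2 ≤ Γ) :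
    ∃ t : ℝ, 0 ≤ t ∧ t ≤ 1 / 4 ∧
      g ^ 4 + γ ^ 4 / 128 ≤ (Γ * t / 2 + √(2 - 16 * t ^ 2) * g ^ 2) ^ 2 / 2 := by
  have gen : ∀ t : ℝ, 0 ≤ t → t ≤ 1 / 4 →
      γ ^ 4 * t ^ 2 / 8 + γ ^ 2 * t * g ^ 2 / 2 + (1 - 8 * t ^ 2) * g ^ 4 ≤
      (Γ * t / 2 + √(2 - 16 * t ^ 2) * g ^ 2) ^ 2 / 2 := by
    intro t ht0 ht1
    have hnn : 0 ≤ 2 - 16 * t ^ 2 := by nlinarith
    have hS : √(2 - 16 * t ^ 2) ^ 2 = 2 - 16 * t ^ 2 := Real.sq_sqrt hnn
    have hS1 : 1 ≤ √(2 - 16 * t ^ 2) := by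
      apply Real.le_sqrt_of_sq_le; nlinarith
    have h1 : γ ^ 4 ≤ Γ ^ 2 := by nlinarith [sq_nonneg γ]
    have hg2 : 0 ≤ g ^ 2 := sq_nonneg g
    have hΓ0 : 0 ≤ Γ := le_trans (sq_nonneg γ) hΓ
    have h2 : γ ^ 2 * t * g ^ 2 ≤ Γ * t * √(2 - 16 * t ^ 2) * g ^ 2 := by
      have : γ ^ 2 * t * 1 ≤ Γ * t * √(2 - 16 * t ^ 2) := by gcongr
      nlinarith
    have h3 : γ ^ 4 * t ^ 2 ≤ Γ ^ 2 * t ^ 2 := by gcongr
    have e : (Γ * t / 2 + √(2 - 16 * t ^ 2) * g ^ 2) ^ 2 / 2 = Γ ^ 2 * t ^ 2 / 8 +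
        Γ * t * √(2 - 16 * t ^ 2) * g ^ 2 / 2 + √(2 - 16 * t ^ 2) ^ 2 * g ^ 4 / 2 := by ring
    rw [e, hS]
    nlinarith
  by_cases hc : g ^ 2 ≤ γ ^ 2 / 8
  · refine ⟨1 / 4, by norm_num, le_rfl, le_trans ?_ (gen (1 / 4) (by norm_num) le_rfl)⟩
    nlinarith [sq_nonneg g, sq_nonneg γ]
  · push Not at hc
    have hg2 : 0 < g ^ 2 := lt_of_le_of_lt (by positivity) hc
    have hg0 : g ≠ 0 := by rintro rfl; simp at hg2
    have ht0 : 0 ≤ γ ^ 2 / (32 * g ^ 2) := by positivity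
    have ht1 : γ ^ 2 / (32 * g ^ 2) ≤ 1 / 4 := by
      rw [div_le_iff₀ (by positivity)]; linarith
    refine ⟨γ ^ 2 / (32 * g ^ 2), ht0, ht1, le_trans ?_ (gen _ ht0 ht1)⟩
    have e1 : γ ^ 2 * (γ ^ 2 / (32 * g ^ 2)) * g ^ 2 = γ ^ 4 / 32 := by
      field_simp
    have e2 : (γ ^ 2 / (32 * g ^ 2)) ^ 2 * g ^ 4 = γ ^ 4 / 1024 := by
      field_simp; ring
    have e3 : 0 ≤ γ ^ 4 * (γ ^ 2 / (32 * g ^ 2)) ^ 2 / 8 := by positivity
    nlinarith

/-- one block of three essential levels increases the extremal value -/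
lemma block {μ : ℕ → ℝ} {n k j : ℕ} {g γ : ℝ} (hk : k % 2 = 0) (hj : j % 2 = 0) (hg : 0 ≤ g)
    (hγ : 0 ≤ γ) (hμ : γ ≤ |μ k - μ (k + 1 + j)|) (h : Q μ n (k + 1 + j + 1 + 1) g) :
    ∃ g', 0 ≤ g' ∧ g ^ 4 + γ ^ 4 / 128 ≤ g' ^ 4 ∧ Q μ (n + 1 + 1 + j + 1) k g' := by
  have hΓ : γ ^ 2 ≤ (μ k - μ (k + 1 + j)) ^ 2 := by
    rw [← sq_abs (μ k - μ (k + 1 + j))]; gcongr
  obtain ⟨t, ht0, ht1, ht⟩ := scal (g := g) hγ _ hΓ
  set d := √t with hd
  have hd2 : d ^ 2 = t := Real.sq_sqrt ht0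
  have hd0 : 0 ≤ d := Real.sqrt_nonneg _
  set S := √(2 - 16 * t ^ 2) with hS
  have hSn : 0 ≤ S := Real.sqrt_nonneg _
  have hS2 : S ^ 2 = 2 - 16 * t ^ 2 := Real.sq_sqrt (by nlinarith)
  set s := √S with hs
  have hs0 : 0 ≤ s := Real.sqrt_nonneg _
  have hs2 : s ^ 2 = S := Real.sq_sqrt hSn
  set w := μ (k + 1 + j) with hw
  set y := (μ k - w) * d with hy
  -- quadratic level
  have r1 : R μ (n + 1) (k + 1 + j + 1) 0 y s (√(y ^ 2 / 2 + s ^ 2 * g ^ 2)) :=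
    R_A (by omega) y hs0 hg h
  -- quartic level
  set v := √(y ^ 2 / 2 + s ^ 2 * g ^ 2) with hv
  have hv0 : 0 ≤ v := Real.sqrt_nonneg _
  have hv2 : v ^ 2 = y ^ 2 / 2 + s ^ 2 * g ^ 2 := Real.sq_sqrt (by positivity)
  have r2 : R μ (n + 1 + 1) (k + 1 + j) d (μ k * d) (qq (k + 1 + j) (2 * d) s)
      (qq (k + 1 + j) 0 v) := by
    apply R_step (d := d) le_rfl hv0
    · apply R_triv
      · rw [abs_of_nonneg (by positivity)]; linarith
      · exact abs_nonneg _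
    · rw [show d - d = 0 by ring, show μ k * d - μ (k + 1 + j) * d = y by rw [hy, hw]; ring]
      exact r1
  have hodd : ¬ ((k + 1 + j) % 2 = 0) := by omega
  have e1 : qq (k + 1 + j) (2 * d) s = 1 := by
    simp only [qq, hodd, if_false, q4]
    have : ((2 * d) ^ 4 + s ^ 4) / 2 = 1 := by
      rw [show (2 * d) ^ 4 = 16 * (d ^ 2) ^ 2 by ring, show s ^ 4 = (s ^ 2) ^ 2 by ring, hd2, hs2,
        hS2]
      ring
    rw [this]; simp
  rw [e1] at r2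
  set g' := qq (k + 1 + j) 0 v with hg'
  have hg'0 : 0 ≤ g' := qq_nonneg _ _ _
  have hg'4 : g' ^ 4 = v ^ 4 / 2 := by
    rw [hg']; simp only [qq, hodd, if_false]; rw [q4_pow]; ring
  refine ⟨g', hg'0, ?_, ?_⟩
  · rw [hg'4, show v ^ 4 = (v ^ 2) ^ 2 by ring, hv2, hs2, hy, mul_pow, hd2]
    convert ht using 2
  · have r3 := R_skips (k := k + 1) (n := n + 1 + 1) zero_le_one hg'0 j r2
    have r4 := R_step (μ := μ) (n := n + 1 + 1 + j) (k := k) (x := 0) (y := 0) (d := d) hg'0 hg'0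
      (by simpa using r3) (by simpa using R_neg r3)
    rwa [qq_diag k zero_le_one, qq_diag k hg'0] at r4

lemma Q_skips {μ : ℕ → ℝ} {n k : ℕ} {g : ℝ} (hg : 0 ≤ g) (j : ℕ) (h : Q μ n (k + j) g) :
    Q μ (n + j) k g := R_skips zero_le_one hg j h

lemma grow_chain {U : Filter ℕ} (μ : ℕ → ℕ → ℝ) (lam : ℕ → ℝ)
    (hlim : ∀ i, Tendsto (fun m => μ m i) U (𝓝 (lam i))) (b γ : ℝ) (hγ : 0 < γ)
    (hA : ∀ k, ∃ i, k ≤ i ∧ i % 2 = 0 ∧ γ ≤ |lam i - b|)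
    (hB : ∀ k, ∃ i, k ≤ i ∧ i % 2 = 1 ∧ |lam i - b| < γ / 4) :
    ∀ N k : ℕ, ∃ K, k ≤ K ∧ ∀ᶠ m in U, ∀ n g, 0 ≤ g → Q (μ m) n K g →
      ∃ g', 0 ≤ g' ∧ g ^ 4 + N * ((γ / 2) ^ 4 / 128) ≤ g' ^ 4 ∧ Q (μ m) (n + (K - k)) k g' := by
  intro N
  induction N with
  | zero =>
    intro k
    refine ⟨k, le_rfl, Eventually.of_forall fun m n g hg h => ⟨g, hg, by simp, by simpa using h⟩⟩
  | succ N ih =>
    intro k
    obtain ⟨i1, hi1, hi1e, hi1g⟩ := hA k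
    obtain ⟨i2, hi2, hi2e, hi2g⟩ := hB (i1 + 1)
    obtain ⟨K, hK, hKe⟩ := ih (i2 + 2)
    refine ⟨K, by omega, ?_⟩
    have hdiff : Tendsto (fun m => |μ m i1 - μ m i2|) U (𝓝 |lam i1 - lam i2|) :=
      ((hlim i1).sub (hlim i2)).abs
    have hlt : γ / 2 < |lam i1 - lam i2| := by
      have := abs_sub_abs_le_abs_sub (lam i1 - b) (lam i2 - b)
      rw [show lam i1 - b - (lam i2 - b) = lam i1 - lam i2 by ring] at this
      linarith
    have hev := hdiff.eventually_const_lt hlt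
    filter_upwards [hKe, hev] with m hm1 hm2 n g hg hQ
    obtain ⟨g1, hg1, hg1b, hQ1⟩ := hm1 n g hg hQ
    obtain ⟨j, rfl⟩ : ∃ j, i2 = i1 + 1 + j := ⟨i2 - (i1 + 1), by omega⟩
    have hj : j % 2 = 0 := by omega
    obtain ⟨g2, hg2, hg2b, hQ2⟩ := block (μ := μ m) (k := i1) (j := j) hi1e hj hg1
      (by positivity) hm2.le hQ1
    refine ⟨g2, hg2, ?_, ?_⟩
    · push_cast
      linarith
    · obtain ⟨l, rfl⟩ : ∃ l, i1 = k + l := ⟨i1 - k, by omega⟩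
      have := Q_skips hg2 l hQ2
      convert this using 1
      omega

end Pool.Agent.H851R3
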