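import Pool.Agent.H851R3.Avg

set_option autoImplicit false

namespace Pool.Agent.H851R3

open Filter Topology ENNReal

noncomputable instance instNorm (n : ℕ) : Norm (Y n) := ⟨nr n 0⟩

lemma norm_def (n : ℕ) (f : Y n) : ‖f‖ = nr n 0 f := rfl

lemma core (n : ℕ) : NormedSpace.Core ℝ (Y n) where
  norm_nonneg := nr_nonneg n 0
  norm_smul := fun c f => nr_smul n 0 c f
  norm_triangle := nr_add_le n 0
  norm_eq_zero_iff := fun f => ⟨nr_eq_zero n 0 f, fun h => by rw [h]; exact nr_zero n 0⟩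

noncomputable instance instNACG (n : ℕ) : NormedAddCommGroup (Y n) :=
  NormedAddCommGroup.ofCore (core n)

noncomputable instance instNS (n : ℕ) : NormedSpace ℝ (Y n) :=
  NormedSpace.ofCore (core n)

lemma finDim : ∀ n : ℕ, @FiniteDimensional ℝ (Y n) _ (instACG n) (instMod n)
  | 0 => inferInstanceAs (FiniteDimensional ℝ ℝ)
  | n + 1 => by
    have := finDim n
    exact inferInstanceAs (FiniteDimensional ℝ (Y n × Y n))

instance instFD (n : ℕ) : FiniteDimensional ℝ (Y n) := finDim n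

instance instCS (n : ℕ) : CompleteSpace (Y n) := FiniteDimensional.complete ℝ (Y n)

/-- the space: the quadratic sum of the tree spaces of all finite depths -/
abbrev H : Type := lp (fun n : ℕ => Y n) 2

lemma two_toReal : (2 : ℝ≥0∞).toReal = 2 := by simp

lemma two_pos' : 0 < (2 : ℝ≥0∞).toReal := by simp

lemma hasSum_sq (x : H) : HasSum (fun i => ‖x i‖ ^ 2) (‖x‖ ^ 2) := by
  have := lp.hasSum_norm two_pos' x
  simpa [two_toReal] using this

lemma H_U (x y : H) : ‖x + y‖ ^ 4 + ‖x - y‖ ^ 4 ≤ 4 * (‖x‖ ^ 2 + ‖y‖ ^ 2) ^ 2 := by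
  have h1 := hasSum_sq (x + y)
  have h2 := hasSum_sq (x - y)
  have h3 := (hasSum_sq x).add (hasSum_sq y)
  have fin : ∀ s : Finset ℕ, (∑ i ∈ s, ‖(x + y) i‖ ^ 2) ^ 2 + (∑ i ∈ s, ‖(x - y) i‖ ^ 2) ^ 2 ≤
      4 * (∑ i ∈ s, (‖x i‖ ^ 2 + ‖y i‖ ^ 2)) ^ 2 := by
    intro s
    induction s using Finset.induction_on with
    | empty => simp
    | insert a s ha ih =>
      rw [Finset.sum_insert ha, Finset.sum_insert ha, Finset.sum_insert ha]
      have hU : (‖(x + y) a‖ ^ 2) ^ 2 + (‖(x - y) a‖ ^ 2) ^ 2 ≤ 4 * (‖x a‖ ^ 2 + ‖y a‖ ^ 2) ^ 2 := by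
        have := nr_U a 0 (x a) (y a)
        rw [← pow_mul, ← pow_mul]
        exact this
      set S := ∑ i ∈ s, ‖(x + y) i‖ ^ 2
      set T := ∑ i ∈ s, ‖(x - y) i‖ ^ 2
      set C := ∑ i ∈ s, (‖x i‖ ^ 2 + ‖y i‖ ^ 2)
      set p := ‖(x + y) a‖ ^ 2
      set q := ‖(x - y) a‖ ^ 2
      set c := ‖x a‖ ^ 2 + ‖y a‖ ^ 2
      have hC : 0 ≤ C := Finset.sum_nonneg fun i _ => by positivity
      have hc : 0 ≤ c := by positivity
      have key : p * S + q * T ≤ 4 * (c * C) := by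
        apply pow2_le (by positivity)
        have : (p * S + q * T) ^ 2 ≤ (p ^ 2 + q ^ 2) * (S ^ 2 + T ^ 2) := by
          nlinarith [sq_nonneg (p * T - q * S)]
        calc (p * S + q * T) ^ 2 ≤ (p ^ 2 + q ^ 2) * (S ^ 2 + T ^ 2) := this
          _ ≤ (4 * c ^ 2) * (4 * C ^ 2) := by gcongr
          _ = _ := by ring
      nlinarith
  have l1 : Tendsto (fun s : Finset ℕ => (∑ i ∈ s, ‖(x + y) i‖ ^ 2) ^ 2 +
      (∑ i ∈ s, ‖(x - y) i‖ ^ 2) ^ 2) atTop (𝓝 ((‖x + y‖ ^ 2) ^ 2 + (‖x - y‖ ^ 2) ^ 2)) :=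
    (h1.pow 2).add (h2.pow 2)
  have l2 : Tendsto (fun s : Finset ℕ => 4 * (∑ i ∈ s, (‖x i‖ ^ 2 + ‖y i‖ ^ 2)) ^ 2) atTop
      (𝓝 (4 * (‖x‖ ^ 2 + ‖y‖ ^ 2) ^ 2)) := (Tendsto.pow h3 2).const_mul 4
  have := le_of_tendsto_of_tendsto' l1 l2 fin
  rw [← pow_mul, ← pow_mul] at this
  exact this

instance : UniformConvexSpace H where
  uniform_convex := by
    intro ε hε
    refine ⟨min (ε ^ 4 / 32) 1, by positivity, ?_⟩
    intro x hx y hy hxy
    set δ := min (ε ^ 4 / 32) 1 with hδ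
    have hδ1 : δ ≤ 1 := min_le_right _ _
    have hδ2 : δ ≤ ε ^ 4 / 32 := min_le_left _ _
    have hδ0 : 0 < δ := by positivity
    have hU := H_U x y
    rw [hx, hy] at hU
    have h4 : ε ^ 4 ≤ ‖x - y‖ ^ 4 := by gcongr
    apply pow4_le (by linarith)
    have : 16 - 32 * δ ≤ (2 - δ) ^ 4 := by nlinarith [sq_nonneg δ, sq_nonneg (δ - 2), sq_nonneg (δ ^ 2 - 4 * δ)]
    nlinarith

/-- compression of an operator to the `m`-th summand -/
noncomputable def comp (m : ℕ) (T : H →L[ℝ] H) : Y m →ₗ[ℝ] Y m where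
  toFun := fun f => (T (lp.single 2 m f)) m
  map_add' := fun f g => by rw [lp.single_add, map_add]; rfl
  map_smul' := fun c f => by
    rw [lp.single_smul, map_smul]; rfl

lemma comp_add (m : ℕ) (S T : H →L[ℝ] H) : comp m (S + T) = comp m S + comp m T := rfl
lemma comp_smul (m : ℕ) (c : ℝ) (T : H →L[ℝ] H) : comp m (c • T) = c • comp m T := rfl

lemma comp_bound (m : ℕ) (T : H →L[ℝ] H) (f : Y m) : nr m 0 (comp m T f) ≤ ‖T‖ * nr m 0 f := by
  have h1 : ‖(T (lp.single 2 m f)) m‖ ≤ ‖T (lp.single 2 m f)‖ :=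
    lp.norm_apply_le_norm (by norm_num) _ _
  have h2 := T.le_opNorm (lp.single 2 m f)
  rw [lp.norm_single (by norm_num)] at h2
  exact h1.trans h2

/-- the level functional in the `m`-th summand -/
noncomputable def lamm (m i : ℕ) : (H →L[ℝ] H) →L[ℝ] ℝ :=
  LinearMap.mkContinuous
    { toFun := fun T => coef m i (comp m T)
      map_add' := fun S T => by rw [comp_add, coef_add]
      map_smul' := fun c T => by rw [comp_smul, coef_smul]; rfl } 1
    (fun T => by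
      rw [one_mul]
      exact coef_bound m i (comp m T) ‖T‖ (norm_nonneg _) (comp_bound m T))

lemma lamm_apply (m i : ℕ) (T : H →L[ℝ] H) : lamm m i T = coef m i (comp m T) := rfl

lemma lamm_norm (m i : ℕ) : ‖lamm m i‖ ≤ 1 :=
  LinearMap.mkContinuous_norm_le _ zero_le_one _

/-- weak-star limits along ultrafilters -/
lemma ultralim {E : Type} [NormedAddCommGroup E] [NormedSpace ℝ E] (φ : ℕ → (E →L[ℝ] ℝ)) (C : ℝ)
    (hφ : ∀ m, ‖φ m‖ ≤ C) (U : Ultrafilter ℕ) :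
    ∃ ψ : E →L[ℝ] ℝ, ‖ψ‖ ≤ C ∧ ∀ x, Tendsto (fun m => φ m x) U (𝓝 (ψ x)) := by
  have hc := WeakDual.isCompact_closedBall (𝕜 := ℝ) (E := E) 0 C
  have hmem : ∀ m, (StrongDual.toWeakDual (φ m)) ∈
      (WeakDual.toStrongDual ⁻¹' Metric.closedBall (0 : StrongDual ℝ E) C) := by
    intro m
    simp only [Set.mem_preimage, Metric.mem_closedBall, dist_zero_right]
    exact hφ m
  obtain ⟨ψ, hψ1, hψ2⟩ := hc.ultrafilter_le_nhds (U.map fun m => StrongDual.toWeakDual (φ m))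
    (by
      rw [Ultrafilter.coe_map, le_principal_iff, mem_map]
      exact Filter.Eventually.of_forall hmem)
  refine ⟨WeakDual.toStrongDual ψ, ?_, fun x => ?_⟩
  · simpa only [Set.mem_preimage, Metric.mem_closedBall, dist_zero_right] using hψ1
  · have h1 : Tendsto (fun m => StrongDual.toWeakDual (φ m)) U (𝓝 ψ) := hψ2
    exact ((WeakDual.eval_continuous x).tendsto ψ).comp h1

end Pool.Agent.H851R3
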