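import Mathlib

set_option autoImplicit false

namespace Pool.Agent.H851R3

/-- Real functions on the leaves of the binary tree of depth `n`. -/
def Y : ℕ → Type
  | 0 => ℝ
  | n + 1 => Y n × Y n

noncomputable instance instACG : (n : ℕ) → AddCommGroup (Y n)
  | 0 => inferInstanceAs (AddCommGroup ℝ)
  | n + 1 =>
    letI := instACG n
    inferInstanceAs (AddCommGroup (Y n × Y n))

noncomputable instance instMod : (n : ℕ) → Module ℝ (Y n)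
  | 0 => inferInstanceAs (Module ℝ ℝ)
  | n + 1 =>
    letI := instMod n
    inferInstanceAs (Module ℝ (Y n × Y n))

/-- the restriction to the first half -/
def lf {n : ℕ} (f : Y (n + 1)) : Y n := f.1
/-- the restriction to the second half -/
def rt {n : ℕ} (f : Y (n + 1)) : Y n := f.2
/-- gluing of two halves -/
def mk {n : ℕ} (a b : Y n) : Y (n + 1) := (a, b)

/-- scalar functions of depth zero -/
def toR (x : Y 0) : ℝ := x
def ofR (x : ℝ) : Y 0 := x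

section basic
variable {n : ℕ}

@[simp] lemma lf_mk (a b : Y n) : lf (mk a b) = a := rfl
@[simp] lemma rt_mk (a b : Y n) : rt (mk a b) = b := rfl
@[simp] lemma mk_lf_rt (f : Y (n + 1)) : mk (lf f) (rt f) = f := rfl
@[simp] lemma lf_add (f g : Y (n + 1)) : lf (f + g) = lf f + lf g := rfl
@[simp] lemma rt_add (f g : Y (n + 1)) : rt (f + g) = rt f + rt g := rfl
@[simp] lemma lf_sub (f g : Y (n + 1)) : lf (f - g) = lf f - lf g := rfl
@[simp] lemma rt_sub (f g : Y (n + 1)) : rt (f - g) = rt f - rt g := rfl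
@[simp] lemma lf_neg (f : Y (n + 1)) : lf (-f) = -lf f := rfl
@[simp] lemma rt_neg (f : Y (n + 1)) : rt (-f) = -rt f := rfl
@[simp] lemma lf_smul (c : ℝ) (f : Y (n + 1)) : lf (c • f) = c • lf f := rfl
@[simp] lemma rt_smul (c : ℝ) (f : Y (n + 1)) : rt (c • f) = c • rt f := rfl
@[simp] lemma lf_zero : lf (0 : Y (n + 1)) = 0 := rfl
@[simp] lemma rt_zero : rt (0 : Y (n + 1)) = 0 := rfl
@[simp] lemma toR_add (f g : Y 0) : toR (f + g) = toR f + toR g := rfl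
@[simp] lemma toR_sub (f g : Y 0) : toR (f - g) = toR f - toR g := rfl
@[simp] lemma toR_neg (f : Y 0) : toR (-f) = -toR f := rfl
@[simp] lemma toR_smul (c : ℝ) (f : Y 0) : toR (c • f) = c * toR f := rfl
@[simp] lemma toR_zero : toR (0 : Y 0) = 0 := rfl
@[simp] lemma toR_ofR (x : ℝ) : toR (ofR x) = x := rfl
@[simp] lemma ofR_toR (x : Y 0) : ofR (toR x) = x := rfl

lemma Y0_ext {f g : Y 0} (h : toR f = toR g) : f = g := h

lemma Y_ext {f g : Y (n + 1)} (h1 : lf f = lf g) (h2 : rt f = rt g) : f = g :=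
  Prod.ext h1 h2

end basic

/-- the constant function one -/
noncomputable def one : (n : ℕ) → Y n
  | 0 => ofR 1
  | n + 1 => mk (one n) (one n)

/-- the mean value, as a linear map -/
noncomputable def mean : (n : ℕ) → Y n →ₗ[ℝ] ℝ
  | 0 => { toFun := toR, map_add' := fun _ _ => rfl, map_smul' := fun _ _ => rfl }
  | n + 1 =>
    { toFun := fun f => (mean n (lf f) + mean n (rt f)) / 2
      map_add' := fun f g => by simp; ring
      map_smul' := fun c f => by simp; ring }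

@[simp] lemma mean_zero' (f : Y 0) : mean 0 f = toR f := rfl
@[simp] lemma mean_succ (n : ℕ) (f : Y (n + 1)) :
    mean (n + 1) f = (mean n (lf f) + mean n (rt f)) / 2 := rfl
@[simp] lemma lf_one (n : ℕ) : lf (one (n + 1)) = one n := rfl
@[simp] lemma rt_one (n : ℕ) : rt (one (n + 1)) = one n := rfl
@[simp] lemma toR_one : toR (one 0) = 1 := rfl

@[simp] lemma mean_one : ∀ n : ℕ, mean n (one n) = 1
  | 0 => rfl
  | n + 1 => by simp [mean_one n]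

/-- two-point quadratic mean -/
noncomputable def q2 (a b : ℝ) : ℝ := √((a ^ 2 + b ^ 2) / 2)
/-- two-point quartic mean -/
noncomputable def q4 (a b : ℝ) : ℝ := √(√((a ^ 4 + b ^ 4) / 2))
/-- quadratic at even levels, quartic at odd levels -/
noncomputable def qq (k : ℕ) (a b : ℝ) : ℝ := if k % 2 = 0 then q2 a b else q4 a b

lemma q2_nonneg (a b : ℝ) : 0 ≤ q2 a b := Real.sqrt_nonneg _
lemma q4_nonneg (a b : ℝ) : 0 ≤ q4 a b := Real.sqrt_nonneg _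
lemma q2_sq (a b : ℝ) : q2 a b ^ 2 = (a ^ 2 + b ^ 2) / 2 := Real.sq_sqrt (by positivity)
lemma q4_sq (a b : ℝ) : q4 a b ^ 2 = √((a ^ 4 + b ^ 4) / 2) := Real.sq_sqrt (Real.sqrt_nonneg _)
lemma q4_pow (a b : ℝ) : q4 a b ^ 4 = (a ^ 4 + b ^ 4) / 2 := by
  have : q4 a b ^ 4 = (q4 a b ^ 2) ^ 2 := by ring
  rw [this, q4_sq, Real.sq_sqrt (by positivity)]

lemma qq_nonneg (k : ℕ) (a b : ℝ) : 0 ≤ qq k a b := by
  unfold qq; split_ifs
  · exact q2_nonneg a b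
  · exact q4_nonneg a b

lemma pow4_le {a b : ℝ} (ha : 0 ≤ b) (h : a ^ 4 ≤ b ^ 4) : a ≤ b :=
  le_of_pow_le_pow_left₀ (by norm_num) ha h

lemma pow2_le {a b : ℝ} (ha : 0 ≤ b) (h : a ^ 2 ≤ b ^ 2) : a ≤ b :=
  le_of_pow_le_pow_left₀ (by norm_num) ha h

lemma qq_mono (k : ℕ) {a b a' b' : ℝ} (ha : 0 ≤ a) (hb : 0 ≤ b) (h1 : a ≤ a') (h2 : b ≤ b') :
    qq k a b ≤ qq k a' b' := by
  unfold qq; split_ifs
  · apply pow2_le (q2_nonneg _ _)
    rw [q2_sq, q2_sq]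
    gcongr
  · apply pow4_le (q4_nonneg _ _)
    rw [q4_pow, q4_pow]
    gcongr

lemma qq_smul (k : ℕ) {t a b : ℝ} (ht : 0 ≤ t) :
    qq k (t * a) (t * b) = t * qq k a b := by
  unfold qq; split_ifs
  · apply le_antisymm
    · apply pow2_le (mul_nonneg ht (q2_nonneg _ _))
      rw [q2_sq, mul_pow t (q2 a b), q2_sq]; apply le_of_eq; ring
    · apply pow2_le (q2_nonneg _ _)
      rw [q2_sq, mul_pow t (q2 a b), q2_sq]; apply le_of_eq; ring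
  · apply le_antisymm
    · apply pow4_le (mul_nonneg ht (q4_nonneg _ _))
      rw [q4_pow, mul_pow t (q4 a b), q4_pow]; apply le_of_eq; ring
    · apply pow4_le (q4_nonneg _ _)
      rw [q4_pow, mul_pow t (q4 a b), q4_pow]; apply le_of_eq; ring

lemma qq_diag (k : ℕ) {a : ℝ} (ha : 0 ≤ a) : qq k a a = a := by
  unfold qq; split_ifs
  · apply le_antisymm
    · apply pow2_le ha
      rw [q2_sq]; apply le_of_eq; ring
    · apply pow2_le (q2_nonneg _ _)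
      rw [q2_sq]; apply le_of_eq; ring
  · apply le_antisymm
    · apply pow4_le ha
      rw [q4_pow]; apply le_of_eq; ring
    · apply pow4_le (q4_nonneg _ _)
      rw [q4_pow]; apply le_of_eq; ring

lemma qq_comm (k : ℕ) (a b : ℝ) : qq k a b = qq k b a := by
  unfold qq q2 q4; split_ifs
  · rw [add_comm]
  · rw [add_comm]

lemma qq_eq_zero (k : ℕ) {a b : ℝ} (h : qq k a b = 0) : a = 0 ∧ b = 0 := by
  unfold qq at h; split_ifs at h
  · have h2 := q2_sq a b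
    rw [h] at h2
    constructor <;> nlinarith [sq_nonneg a, sq_nonneg b]
  · have h2 := q4_pow a b
    rw [h] at h2
    have ha : 0 ≤ a ^ 4 := by positivity
    have hb : 0 ≤ b ^ 4 := by positivity
    constructor
    · apply pow_eq_zero_iff (n := 4) (by norm_num) |>.1; linarith
    · apply pow_eq_zero_iff (n := 4) (by norm_num) |>.1; linarith

lemma mean_le_qq (k : ℕ) {a b : ℝ} : (a + b) / 2 ≤ qq k a b := by
  unfold qq; split_ifs
  · apply pow2_le (q2_nonneg _ _)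
    rw [q2_sq]; nlinarith [sq_nonneg (a - b)]
  · apply pow4_le (q4_nonneg _ _)
    rw [q4_pow]
    have h1 : ((a + b) / 2) ^ 2 ≤ (a ^ 2 + b ^ 2) / 2 := by nlinarith [sq_nonneg (a - b)]
    have h2 : ((a ^ 2 + b ^ 2) / 2) ^ 2 ≤ (a ^ 4 + b ^ 4) / 2 := by
      nlinarith [sq_nonneg (a ^ 2 - b ^ 2)]
    calc ((a + b) / 2) ^ 4 = (((a + b) / 2) ^ 2) ^ 2 := by ring
      _ ≤ ((a ^ 2 + b ^ 2) / 2) ^ 2 := by gcongr
      _ ≤ _ := h2

/-- Cauchy-Schwarz for two terms -/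
lemma cs2 (a b c d : ℝ) : a * c + b * d ≤ √(a ^ 2 + b ^ 2) * √(c ^ 2 + d ^ 2) := by
  rw [← Real.sqrt_mul (by positivity)]
  apply Real.le_sqrt_of_sq_le
  nlinarith [sq_nonneg (a * d - b * c)]

lemma q2_add (a b c d : ℝ) : q2 (a + c) (b + d) ≤ q2 a b + q2 c d := by
  have hA := q2_nonneg a b
  have hC := q2_nonneg c d
  apply pow2_le (by positivity)
  have h : a * c + b * d ≤ 2 * (q2 a b * q2 c d) := by
    have h1 := cs2 a b c d
    have h2 : √(a ^ 2 + b ^ 2) * √(c ^ 2 + d ^ 2) = 2 * (q2 a b * q2 c d) := by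
      rw [← Real.sqrt_mul (by positivity)]
      unfold q2
      rw [← Real.sqrt_mul (by positivity)]
      rw [show (a ^ 2 + b ^ 2) * (c ^ 2 + d ^ 2) = 2 ^ 2 * ((a ^ 2 + b ^ 2) / 2 * ((c ^ 2 + d ^ 2) / 2)) by ring,
        Real.sqrt_mul (by positivity), Real.sqrt_sq (by norm_num)]
    linarith
  have e1 := q2_sq a b
  have e2 := q2_sq c d
  rw [q2_sq]
  nlinarith

lemma q4_eq (a b : ℝ) : q4 a b = √(q2 (a ^ 2) (b ^ 2)) := by
  unfold q4 q2; congr 3; ring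

lemma q2_mono {a b a' b' : ℝ} (ha : 0 ≤ a) (hb : 0 ≤ b) (h1 : a ≤ a') (h2 : b ≤ b') :
    q2 a b ≤ q2 a' b' := by
  have := qq_mono 0 ha hb h1 h2
  simpa [qq] using this

lemma q2_smul {t a b : ℝ} (ht : 0 ≤ t) : q2 (t * a) (t * b) = t * q2 a b := by
  have := qq_smul 0 (t := t) (a := a) (b := b) ht
  simpa [qq] using this

lemma q4_add {a b c d : ℝ} : q4 (a + c) (b + d) ≤ q4 a b + q4 c d := by
  have hA := q4_nonneg a b
  have hC := q4_nonneg c d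
  apply pow2_le (by positivity)
  have e1 : q4 a b ^ 2 = q2 (a ^ 2) (b ^ 2) := by
    rw [q4_eq, Real.sq_sqrt (q2_nonneg _ _)]
  have e2 : q4 c d ^ 2 = q2 (c ^ 2) (d ^ 2) := by
    rw [q4_eq, Real.sq_sqrt (q2_nonneg _ _)]
  have e3 : q4 (a + c) (b + d) ^ 2 = q2 ((a + c) ^ 2) ((b + d) ^ 2) := by
    rw [q4_eq, Real.sq_sqrt (q2_nonneg _ _)]
  have h1 : q2 ((a + c) ^ 2) ((b + d) ^ 2) ≤
      q2 (a ^ 2) (b ^ 2) + q2 (2 * |a * c|) (2 * |b * d|) + q2 (c ^ 2) (d ^ 2) := by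
    have s1 : q2 ((a + c) ^ 2) ((b + d) ^ 2) ≤
        q2 ((a ^ 2 + 2 * |a * c|) + c ^ 2) ((b ^ 2 + 2 * |b * d|) + d ^ 2) := by
      apply q2_mono (by positivity) (by positivity)
      · nlinarith [le_abs_self (a * c)]
      · nlinarith [le_abs_self (b * d)]
    have s2 := q2_add (a ^ 2 + 2 * |a * c|) (b ^ 2 + 2 * |b * d|) (c ^ 2) (d ^ 2)
    have s3 := q2_add (a ^ 2) (b ^ 2) (2 * |a * c|) (2 * |b * d|)
    linarith
  have h2 : q2 (2 * |a * c|) (2 * |b * d|) ≤ 2 * (q4 a b * q4 c d) := by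
    rw [q2_smul (by norm_num)]
    have : q2 |a * c| |b * d| ≤ q4 a b * q4 c d := by
      apply pow2_le (by positivity)
      rw [mul_pow, q4_sq, q4_sq, q2_sq]
      have h := cs2 (a ^ 2) (b ^ 2) (c ^ 2) (d ^ 2)
      rw [← Real.sqrt_mul (by positivity)] at h ⊢
      rw [show (a ^ 4 + b ^ 4) / 2 * ((c ^ 4 + d ^ 4) / 2) =
        (1 / 2) ^ 2 * (((a ^ 2) ^ 2 + (b ^ 2) ^ 2) * ((c ^ 2) ^ 2 + (d ^ 2) ^ 2)) by ring,
        Real.sqrt_mul (by positivity), Real.sqrt_sq (by norm_num)]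
      rw [sq_abs, sq_abs]
      nlinarith
    linarith
  rw [e3]
  nlinarith

lemma qq_add (k : ℕ) (a b c d : ℝ) : qq k (a + c) (b + d) ≤ qq k a b + qq k c d := by
  unfold qq; split_ifs
  · exact q2_add a b c d
  · exact q4_add

/-- the uniform convexity inequality passes to quadratic means -/
lemma q2_U {s0 s1 t0 t1 a0 a1 b0 b1 : ℝ}
    (h0 : s0 ^ 4 + t0 ^ 4 ≤ 4 * (a0 ^ 2 + b0 ^ 2) ^ 2)
    (h1 : s1 ^ 4 + t1 ^ 4 ≤ 4 * (a1 ^ 2 + b1 ^ 2) ^ 2) :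
    q2 s0 s1 ^ 4 + q2 t0 t1 ^ 4 ≤ 4 * (q2 a0 a1 ^ 2 + q2 b0 b1 ^ 2) ^ 2 := by
  have e : ∀ x y : ℝ, q2 x y ^ 4 = ((x ^ 2 + y ^ 2) / 2) ^ 2 := fun x y => by
    rw [← q2_sq]; ring
  rw [e, e, q2_sq, q2_sq]
  have key : s0 ^ 2 * s1 ^ 2 + t0 ^ 2 * t1 ^ 2 ≤ 4 * ((a0 ^ 2 + b0 ^ 2) * (a1 ^ 2 + b1 ^ 2)) := by
    apply pow2_le (by positivity)
    have : (s0 ^ 2 * s1 ^ 2 + t0 ^ 2 * t1 ^ 2) ^ 2 ≤ (s0 ^ 4 + t0 ^ 4) * (s1 ^ 4 + t1 ^ 4) := by
      nlinarith [sq_nonneg (s0 ^ 2 * t1 ^ 2 - t0 ^ 2 * s1 ^ 2)]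
    calc (s0 ^ 2 * s1 ^ 2 + t0 ^ 2 * t1 ^ 2) ^ 2 ≤ (s0 ^ 4 + t0 ^ 4) * (s1 ^ 4 + t1 ^ 4) := this
      _ ≤ (4 * (a0 ^ 2 + b0 ^ 2) ^ 2) * (4 * (a1 ^ 2 + b1 ^ 2) ^ 2) := by gcongr
      _ = _ := by ring
  nlinarith

lemma q4_U {s0 s1 t0 t1 a0 a1 b0 b1 : ℝ}
    (h0 : s0 ^ 4 + t0 ^ 4 ≤ 4 * (a0 ^ 2 + b0 ^ 2) ^ 2)
    (h1 : s1 ^ 4 + t1 ^ 4 ≤ 4 * (a1 ^ 2 + b1 ^ 2) ^ 2) :
    q4 s0 s1 ^ 4 + q4 t0 t1 ^ 4 ≤ 4 * (q4 a0 a1 ^ 2 + q4 b0 b1 ^ 2) ^ 2 := by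
  rw [q4_pow, q4_pow]
  have hA := q4_pow a0 a1
  have hB := q4_pow b0 b1
  have key : a0 ^ 2 * b0 ^ 2 + a1 ^ 2 * b1 ^ 2 ≤ 2 * (q4 a0 a1 ^ 2 * q4 b0 b1 ^ 2) := by
    rw [q4_sq, q4_sq]
    have h := cs2 (a0 ^ 2) (a1 ^ 2) (b0 ^ 2) (b1 ^ 2)
    rw [← Real.sqrt_mul (by positivity)] at h ⊢
    rw [show (a0 ^ 4 + a1 ^ 4) / 2 * ((b0 ^ 4 + b1 ^ 4) / 2) =
      (1 / 2) ^ 2 * (((a0 ^ 2) ^ 2 + (a1 ^ 2) ^ 2) * ((b0 ^ 2) ^ 2 + (b1 ^ 2) ^ 2)) by ring,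
      Real.sqrt_mul (by positivity), Real.sqrt_sq (by norm_num)]
    linarith
  nlinarith

lemma qq_U (k : ℕ) {s0 s1 t0 t1 a0 a1 b0 b1 : ℝ}
    (h0 : s0 ^ 4 + t0 ^ 4 ≤ 4 * (a0 ^ 2 + b0 ^ 2) ^ 2)
    (h1 : s1 ^ 4 + t1 ^ 4 ≤ 4 * (a1 ^ 2 + b1 ^ 2) ^ 2) :
    qq k s0 s1 ^ 4 + qq k t0 t1 ^ 4 ≤ 4 * (qq k a0 a1 ^ 2 + qq k b0 b1 ^ 2) ^ 2 := by
  unfold qq; split_ifs
  · exact q2_U h0 h1
  · exact q4_U h0 h1

/-- the iterated mixed norm; level `k` is quadratic for even `k`, quartic for odd `k` -/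
noncomputable def nr : (n : ℕ) → (k : ℕ) → Y n → ℝ
  | 0, _, x => |toR x|
  | n + 1, k, f => qq k (nr n (k + 1) (lf f)) (nr n (k + 1) (rt f))

lemma nr_zero' (k : ℕ) (x : Y 0) : nr 0 k x = |toR x| := rfl
lemma nr_succ (n k : ℕ) (f : Y (n + 1)) :
    nr (n + 1) k f = qq k (nr n (k + 1) (lf f)) (nr n (k + 1) (rt f)) := rfl

lemma nr_nonneg : ∀ (n k : ℕ) (f : Y n), 0 ≤ nr n k f
  | 0, _, _ => abs_nonneg _
  | _ + 1, _, _ => qq_nonneg _ _ _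

lemma nr_add_le : ∀ (n k : ℕ) (f g : Y n), nr n k (f + g) ≤ nr n k f + nr n k g
  | 0, _, f, g => by simpa [nr_zero'] using abs_add_le (toR f) (toR g)
  | n + 1, k, f, g => by
    rw [nr_succ, nr_succ, nr_succ, lf_add, rt_add]
    refine le_trans ?_ (qq_add k _ _ _ _)
    exact qq_mono k (nr_nonneg _ _ _) (nr_nonneg _ _ _) (nr_add_le _ _ _ _) (nr_add_le _ _ _ _)

lemma nr_smul : ∀ (n k : ℕ) (c : ℝ) (f : Y n), nr n k (c • f) = |c| * nr n k f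
  | 0, _, c, f => by simp [nr_zero', abs_mul]
  | n + 1, k, c, f => by
    rw [nr_succ, nr_succ, lf_smul, rt_smul, nr_smul, nr_smul, qq_smul k (abs_nonneg c)]

lemma nr_eq_zero : ∀ (n k : ℕ) (f : Y n), nr n k f = 0 → f = 0
  | 0, _, f, h => by
    apply Y0_ext
    simpa [nr_zero'] using h
  | n + 1, k, f, h => by
    rw [nr_succ] at h
    obtain ⟨h1, h2⟩ := qq_eq_zero k h
    exact Y_ext (nr_eq_zero _ _ _ h1) (nr_eq_zero _ _ _ h2)

@[simp] lemma nr_zero (n k : ℕ) : nr n k 0 = 0 := by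
  have := nr_smul n k 0 0
  simpa using this

lemma nr_neg (n k : ℕ) (f : Y n) : nr n k (-f) = nr n k f := by
  have := nr_smul n k (-1) f
  simpa using this

@[simp] lemma nr_one : ∀ (n k : ℕ), nr n k (one n) = 1
  | 0, _ => by simp [nr_zero']
  | n + 1, k => by
    rw [nr_succ, lf_one, rt_one, nr_one, qq_diag k zero_le_one]

lemma nr_const (n k : ℕ) (c : ℝ) : nr n k (c • one n) = |c| := by
  rw [nr_smul, nr_one, mul_one]

lemma abs_mean_le : ∀ (n k : ℕ) (f : Y n), |mean n f| ≤ nr n k f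
  | 0, _, f => le_of_eq rfl
  | n + 1, k, f => by
    rw [nr_succ, mean_succ]
    refine le_trans ?_ (mean_le_qq k)
    have h1 := abs_mean_le n (k + 1) (lf f)
    have h2 := abs_mean_le n (k + 1) (rt f)
    rw [abs_div, abs_two]
    have := abs_add_le (mean n (lf f)) (mean n (rt f))
    linarith

lemma nr_U : ∀ (n k : ℕ) (f g : Y n),
    nr n k (f + g) ^ 4 + nr n k (f - g) ^ 4 ≤ 4 * (nr n k f ^ 2 + nr n k g ^ 2) ^ 2
  | 0, _, f, g => by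
    simp only [nr_zero', toR_add, toR_sub]
    have e : ∀ x : ℝ, |x| ^ 4 = x ^ 4 := fun x => by
      rw [show (4 : ℕ) = 2 * 2 by norm_num, pow_mul, sq_abs, ← pow_mul]
    rw [e, e, sq_abs, sq_abs]
    nlinarith [mul_nonneg (sq_nonneg (toR f)) (sq_nonneg (toR g)), sq_nonneg (toR f ^ 2 - toR g ^ 2)]
  | n + 1, k, f, g => by
    simp only [nr_succ, lf_add, rt_add, lf_sub, rt_sub]
    exact qq_U k (nr_U n (k + 1) (lf f) (lf g)) (nr_U n (k + 1) (rt f) (rt g))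

end Pool.Agent.H851R3
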